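import Pool.Agent.Lib.MP_399f8e_an.Uc.Defs
import Pool.Agent.Lib.MP_399f8e_an.Ur.Mean

open Set Filter Topology Metric Complex
open scoped Real
open Pool.Agent.Lib.MP_399f8e_an.Rg

noncomputable section

namespace Pool.Agent.Lib.MP_399f8e_an.Ur.Uc

open MeanAux

theorem mu_lower {V : Set ℝ} {δ : ℝ} {f : ℝ → ℝ} {B : ℝ} (hδ : 0 < δ) (hV : Sep V δ) (hf : Sp V f)
    (h0 : ∀ t, 0 ≤ f t) (h1 : ∀ t, ∃ s ∈ Icc t (t + B), 1 ≤ f s) : 1 / (|B| + 1) ≤ mu f := by
  have hz : Tendsto (fun N : ℕ => 1 / (|B| + 1) - 1 / (N : ℝ)) atTop (𝓝 (1 / (|B| + 1) - 0)) :=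
    tendsto_const_nhds.sub (tendsto_const_div_atTop_nhds_zero_nat 1)
  rw [sub_zero] at hz
  refine le_of_tendsto_of_tendsto (hz.mono_left Nat.hyperfilter_le_atTop)
    (tends hδ hV hf) (Eventually.filter_mono Nat.hyperfilter_le_atTop ?_)
  filter_upwards [eventually_gt_atTop 0] with N hN
  have hN' : (0 : ℝ) < N := by exact_mod_cast hN
  have hL : (0 : ℝ) < |B| + 1 := by positivity
  have h4 := sm_pos hδ hV hf h0 h1 N
  rw [av, le_div_iff₀ hN']
  have e : (1 / (|B| + 1) - 1 / (N : ℝ)) * N = N / (|B| + 1) - 1 := by field_simp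
  rw [e]
  exact h4

theorem mu_upper {V : Set ℝ} {T : ℝ} {f : ℝ → ℝ} (hT : 0 < T) (hV : Sep V T) (hf : Sp V f)
    (h1 : ∀ t, |f t| ≤ 1) : |mu f| ≤ 1 / T := by
  have hz : Tendsto (fun N : ℕ => 1 / T + 1 / (N : ℝ)) atTop (𝓝 (1 / T + 0)) :=
    tendsto_const_nhds.add (tendsto_const_div_atTop_nhds_zero_nat 1)
  rw [add_zero] at hz
  refine le_of_tendsto_of_tendsto (tends hT hV hf).abs (hz.mono_left Nat.hyperfilter_le_atTop)
    (Eventually.filter_mono Nat.hyperfilter_le_atTop ?_)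
  filter_upwards [eventually_gt_atTop 0] with N hN
  have hN' : (0 : ℝ) < N := by exact_mod_cast hN
  obtain ⟨F, hF⟩ := exists_fin hT hV N
  have hc := card_le hT hV (a := 0) (b := N) hN'.le F
    (fun t ht => ⟨((hF t).1 ht).1, Ico_subset_Icc_self ((hF t).1 ht).2⟩)
  have h2 := abs_sum_le h1 F
  rw [av, sm_eq hf.1 hF, abs_div, abs_of_pos hN', div_le_iff₀ hN']
  have e : (1 / T + 1 / (N : ℝ)) * N = (N - 0) / T + 1 := by field_simp; ring
  rw [e]
  linarith

theorem exists_mean2 : ∃ μ, IsMean2 μ := by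
  refine ⟨mu, ⟨?_, ?_, ?_, ?_, ?_⟩, fun V T f => mu_upper, fun V δ f B => mu_lower⟩
  · intro V δ f f' hδ hV hf hf'
    refine tendsto_nhds_unique (tends hδ hV (sp_add hf hf')) ?_
    refine ((tends hδ hV hf).add (tends hδ hV hf')).congr fun N => ?_
    obtain ⟨T, hT⟩ := exists_fin hδ hV N
    simp only [av, sm_eq hf.1 hT, sm_eq hf'.1 hT, sm_eq (sp_add hf hf').1 hT,
      Finset.sum_add_distrib, add_div]
  · intro V δ c f hδ hV hf
    refine tendsto_nhds_unique (tends hδ hV (sp_smul c hf)) ?_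
    refine ((tends hδ hV hf).const_mul c).congr fun N => ?_
    obtain ⟨T, hT⟩ := exists_fin hδ hV N
    simp only [av, sm_eq hf.1 hT, sm_eq (sp_smul c hf).1 hT, ← Finset.mul_sum, mul_div_assoc]
  · intro V δ f f' hδ hV hf hf' hle
    refine le_of_tendsto_of_tendsto' (tends hδ hV hf) (tends hδ hV hf') fun N => ?_
    obtain ⟨T, hT⟩ := exists_fin hδ hV N
    simp only [av, sm_eq hf.1 hT, sm_eq hf'.1 hT]
    exact div_le_div_of_nonneg_right (Finset.sum_le_sum fun t _ => hle t) (Nat.cast_nonneg _)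
  · intro V V' δ f f' b B hδ hV hV' hf hf' hb h1 h2
    obtain ⟨K, hK⟩ := sm_shift hδ hV hV' hf hf' hb h1 h2
    have hz : Tendsto (fun N : ℕ => av f N - av f' N) atTop (𝓝 0) := by
      refine squeeze_zero_norm (a := fun N : ℕ => K / N) (fun N => ?_)
        (tendsto_const_div_atTop_nhds_zero_nat K)
      rw [Real.norm_eq_abs, av, av, ← sub_div, abs_div, Nat.abs_cast]
      exact div_le_div_of_nonneg_right (hK N) (Nat.cast_nonneg _)
    have h3 := tendsto_nhds_unique ((tends hδ hV hf).sub (tends hδ hV' hf'))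
      (hz.mono_left Nat.hyperfilter_le_atTop)
    linarith
  · intro V δ f B hδ hV hf h0 h1
    exact lt_of_lt_of_le (by positivity) (mu_lower hδ hV hf h0 h1)

end Pool.Agent.Lib.MP_399f8e_an.Ur.Uc
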