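import Pool.Agent.Lib.MP_399f8e_an.Uc.Defs
import Pool.Agent.Lib.MP_399f8e_an.Ur.Visit
import Pool.Agent.Lib.MP_399f8e_an.Ur.RtEx
import Pool.Agent.Lib.MP_399f8e_an.Ur.Mean

open Set Filter Topology Metric Complex
open scoped Real
open Pool.Agent.Lib.MP_399f8e_an.Rg

noncomputable section

namespace Pool.Agent.Lib.MP_399f8e_an.Ur.Uc

variable {φ : ℝ → S → S} {lam δ : ℝ} {Y : S → ℂ → S} {pr : S → S → ℂ} {T : S → S → ℝ}
variable {μ : (ℝ → ℝ) → ℝ} {h : S ≃ₜ S}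

namespace ViAux

theorem mean_le (hμ : IsMean2 μ) {V : Set ℝ} {a C : ℝ} {f : ℝ → ℝ} (ha : 0 < a) (hV : Sep V a)
    (hf : Sp V f) (hC : 0 < C) (h1 : ∀ t, |f t| ≤ C) : |μ f| ≤ C / a := by
  have h2 := hμ.upper V a (fun t => C⁻¹ * f t) ha hV (MeanAux.sp_smul _ hf) fun t => by
    rw [abs_mul, abs_of_pos (inv_pos.2 hC), inv_mul_le_iff₀ hC, mul_one]
    exact h1 t
  rw [hμ.smul V a _ f ha hV hf, abs_mul, abs_of_pos (inv_pos.2 hC), inv_mul_le_iff₀ hC] at h2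
  rwa [div_eq_mul_one_div]

/-- the mean of a sequence -/
def out (μ : (ℝ → ℝ) → ℝ) (F : ℤ → ℝ) : ℝ :=
  μ ((range fun n : ℤ => (n : ℝ)).indicator fun s => F ⌊s⌋)

theorem sepI : Sep (range fun n : ℤ => (n : ℝ)) (1 / 2) := by
  rintro _ ⟨m, rfl⟩ _ ⟨n, rfl⟩ h
  have h1 : |m - n| < 1 := by
    have : ((|m - n| : ℤ) : ℝ) < 1 := by push_cast; linarith
    exact_mod_cast this
  rw [sub_eq_zero.1 (Int.abs_lt_one_iff.1 h1)]

theorem absI {F : ℤ → ℝ} {K : ℝ} (hF : ∀ n, |F n| ≤ K) (s : ℝ) :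
    |(range fun n : ℤ => (n : ℝ)).indicator (fun s => F ⌊s⌋) s| ≤ K := by
  by_cases hs : s ∈ range fun n : ℤ => (n : ℝ)
  · rw [indicator_of_mem hs]
    exact hF _
  · rw [indicator_of_notMem hs, abs_zero]
    exact (abs_nonneg _).trans (hF 0)

theorem spI {F : ℤ → ℝ} {K : ℝ} (hF : ∀ n, |F n| ≤ K) :
    Sp (range fun n : ℤ => (n : ℝ)) ((range fun n : ℤ => (n : ℝ)).indicator fun s => F ⌊s⌋) :=
  ⟨fun _ ht => indicator_of_notMem ht _, K, absI hF⟩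

theorem out_add (hμ : IsMean2 μ) {F F' : ℤ → ℝ} {K K' : ℝ} (hF : ∀ n, |F n| ≤ K)
    (hF' : ∀ n, |F' n| ≤ K') : out μ (fun n => F n + F' n) = out μ F + out μ F' := by
  unfold out
  rw [← hμ.add _ _ _ _ (by norm_num) sepI (spI hF) (spI hF'), indicator_add]

theorem out_smul (hμ : IsMean2 μ) (a : ℝ) {F : ℤ → ℝ} {K : ℝ} (hF : ∀ n, |F n| ≤ K) :
    out μ (fun n => a * F n) = a * out μ F := by
  unfold out
  rw [← hμ.smul _ _ a _ (by norm_num) sepI (spI hF)]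
  congr 1
  funext t
  exact indicator_const_mul _ _ _ _

theorem out_mono (hμ : IsMean2 μ) {F F' : ℤ → ℝ} {K K' : ℝ} (hF : ∀ n, |F n| ≤ K)
    (hF' : ∀ n, |F' n| ≤ K') (hle : ∀ n, F n ≤ F' n) : out μ F ≤ out μ F' :=
  hμ.mono _ _ _ _ (by norm_num) sepI (spI hF) (spI hF') fun t =>
    indicator_le_indicator (hle _)

theorem out_le (hμ : IsMean2 μ) {F : ℤ → ℝ} {K : ℝ} (hK : 0 < K) (hF : ∀ n, |F n| ≤ K) :
    out μ F ≤ 2 * K := by
  have := mean_le hμ (by norm_num) sepI (spI hF) hK (absI hF)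
  have e : K / (1 / 2) = 2 * K := by ring
  exact (le_abs_self _).trans (this.trans e.le)

theorem out_pos (hμ : IsMean2 μ) {F : ℤ → ℝ} {K a : ℝ} (hF : ∀ n, |F n| ≤ K) (ha : 0 < a)
    (h1 : ∀ n, a ≤ F n) : 0 < out μ F := by
  have h0 : ∀ n : ℤ, |(fun _ : ℤ => (1 : ℝ)) n| ≤ 1 := fun _ => by simp
  have h2 : 0 < out μ fun _ => 1 := by
    refine hμ.pos _ _ _ 1 (by norm_num) sepI (spI h0)
      (fun t => indicator_nonneg (fun _ _ => zero_le_one) t) fun t => ⟨(⌈t⌉ : ℝ),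
        ⟨Int.le_ceil t, (Int.ceil_lt_add_one t).le⟩, ?_⟩
    rw [indicator_of_mem (mem_range_self _)]
  have h3 := out_mono hμ (F := fun n => a * 1) (K := |a|) (fun _ => by rw [mul_one]) hF
    fun n => by rw [mul_one]; exact h1 n
  rw [out_smul hμ a h0] at h3
  exact (mul_pos ha h2).trans_le h3

theorem out_shift (hμ : IsMean2 μ) {F : ℤ → ℝ} {K : ℝ} (hF : ∀ n, |F n| ≤ K) (j : ℤ) :
    out μ (fun n => F (n + j)) = out μ F := by
  refine hμ.shift _ _ (1 / 2) _ _ (fun s => s + j) |(j : ℝ)| (by norm_num) sepI sepI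
    (spI (F := fun n => F (n + j)) fun n => hF _) (spI hF)
    (fun s _ t _ e => add_right_cancel e) (fun t ht => ⟨?_, by rw [add_sub_cancel_left]⟩)
    fun t' ht' => ⟨t' - j, ?_, sub_add_cancel _ _⟩
  · obtain ⟨n, rfl⟩ := mem_of_indicator_ne_zero ht
    beta_reduce
    rw [indicator_of_mem (mem_range_self n), indicator_of_mem (show (n : ℝ) + j ∈ range fun n : ℤ => (n : ℝ) from ⟨n + j, by push_cast; rfl⟩),
      Int.floor_add_intCast]
  · obtain ⟨n, rfl⟩ := mem_of_indicator_ne_zero ht'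
    beta_reduce at ht' ⊢
    rw [indicator_of_mem (mem_range_self n)] at ht'
    rwa [indicator_of_mem (show (n : ℝ) - j ∈ range fun n : ℤ => (n : ℝ) from
      ⟨n - j, by push_cast; rfl⟩), Int.floor_sub_intCast, sub_add_cancel]

theorem pr_vis (hB : Box φ lam δ Y pr T) {p c : S} {t : ℝ} (ht : t ∈ vis φ Y p c) :
    ‖pr c (φ t p)‖ ≤ 200000 ∧ φ t p = Y c (pr c (φ t p)) := by
  obtain ⟨z, h1, h2⟩ := ht
  rw [VisitAux.pr_eq hB h1 h2]
  exact ⟨h1, h2⟩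

/-- bounded on the visits -/
def Bv (φ : ℝ → S → S) (Y : S → ℂ → S) (pr : S → S → ℂ) (p c : S) (w : ℂ → ℝ) (C : ℝ) : Prop :=
  ∀ t ∈ vis φ Y p c, |w (pr c (φ t p))| ≤ C

theorem abs_ind {p c : S} {w : ℂ → ℝ} {C : ℝ} (hw : Bv φ Y pr p c w C) (t : ℝ) :
    |(vis φ Y p c).indicator (fun t => w (pr c (φ t p))) t| ≤ |C| + 1 := by
  by_cases ht : t ∈ vis φ Y p c
  · rw [indicator_of_mem ht]
    linarith [hw t ht, le_abs_self C]
  · rw [indicator_of_notMem ht, abs_zero]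
    positivity

theorem sp {p c : S} {w : ℂ → ℝ} {C : ℝ} (hw : Bv φ Y pr p c w C) :
    Sp (vis φ Y p c) ((vis φ Y p c).indicator fun t => w (pr c (φ t p))) :=
  ⟨fun _ ht => indicator_of_notMem ht _, _, abs_ind hw⟩

theorem sep (hφ : IsFl φ) (hB : Box φ lam δ Y pr T) (p c : S) : Sep (vis φ Y p c) δ := by
  rintro s ⟨z, h1, h2⟩ t ⟨z', h3, h4⟩ h
  have : φ (s - t) (Y c z') = Y c z := by rw [← h4, ← hφ.add, sub_add_cancel, h2]
  exact sub_eq_zero.1 (hB.uniq c z' z _ h (by linarith) (by linarith) this).1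

theorem mem_Zs (hB : Box φ lam δ Y pr T) {n : ℤ} {c : S} {t : ℝ} (ht : t ∈ vis φ Y (base h n) c) :
    pr c (φ t (base h n)) ∈ Zs φ h Y c :=
  ⟨(pr_vis hB ht).1, n, t, (pr_vis hB ht).2⟩

theorem bv (hB : Box φ lam δ Y pr T) {c : S} {w : ℂ → ℝ} {C : ℝ}
    (hC : ∀ z ∈ Zs φ h Y c, |w z| ≤ C) (n : ℤ) : Bv φ Y pr (base h n) c w C :=
  fun _ ht => hC _ (mem_Zs hB ht)

theorem nup_le (hμ : IsMean2 μ) (hφ : IsFl φ) (hB : Box φ lam δ Y pr T) {p c : S} {w : ℂ → ℝ}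
    {C : ℝ} (hw : Bv φ Y pr p c w C) : |nup μ φ Y pr p c w| ≤ (|C| + 1) / δ :=
  mean_le hμ hB.δ_pos (sep hφ hB p c) (sp hw) (by positivity) (abs_ind hw)

theorem zpow_comm (hc : ∀ t x, h (φ t x) = φ t (h x)) (j : ℤ) (t : ℝ) (x : S) :
    (h ^ j) (φ t x) = φ t ((h ^ j) x) := by
  induction j using Int.induction_on generalizing x with
  | zero => rfl
  | succ n ih => rw [zpow_add_one, Homeomorph.mul_apply, Homeomorph.mul_apply, hc, ih]
  | pred n ih =>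
    have e : h⁻¹ (φ t x) = φ t (h⁻¹ x) := h.injective (by
      rw [hc]
      exact (h.apply_symm_apply _).trans (congrArg (φ t) (h.apply_symm_apply x).symm))
    rw [zpow_sub_one, Homeomorph.mul_apply, Homeomorph.mul_apply, e, ih]

theorem base_add (n j : ℤ) : base h (n + j) = (h ^ j) (base h n) := by
  unfold base
  rw [add_comm, zpow_add, Homeomorph.mul_apply]

theorem nup_transfer (hμ : IsMean2 μ) (hφ : IsFl φ) (hB : Box φ lam δ Y pr T) {H : S ≃ₜ S}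
    (hc : ∀ t x, H (φ t x) = φ t (H x)) {f₀ : ℂ → ℂ} {p c c' : S} {R₁ R₂ B C : ℝ}
    (h1 : R₁ ≤ 200000) (h2 : R₂ ≤ 200000)
    (hfl : ∀ z, ‖z‖ ≤ R₁ → ∃ a : ℝ, |a| ≤ B ∧ Y c' (f₀ z) = φ a (H (Y c z)))
    (hinj : InjOn f₀ (closedBall 0 R₁)) (hsurj : ∀ z', ‖z'‖ < R₂ → ∃ z, ‖z‖ ≤ R₁ ∧ f₀ z = z')
    (hout : ∀ z, ‖f₀ z‖ < R₂ → ‖z‖ ≤ R₁) {w : ℂ → ℝ} (hw : Bv φ Y pr (H p) c' w C)
    (h0 : ∀ z, R₂ ≤ ‖z‖ → w z = 0) :
    nup μ φ Y pr p c (fun z => w (f₀ z)) = nup μ φ Y pr (H p) c' w := by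
  choose! a ha1 ha2 using hfl
  have hlt : ∀ z, w z ≠ 0 → ‖z‖ < R₂ := fun z hz => not_le.1 fun hc => hz (h0 z hc)
  set f := (vis φ Y p c).indicator fun t => w (f₀ (pr c (φ t p))) with hf
  set f' := (vis φ Y (H p) c').indicator fun t => w (pr c' (φ t (H p))) with hf'
  have key : ∀ t, f t ≠ 0 → ‖pr c (φ t p)‖ ≤ R₁ ∧
      pr c' (φ (t + a (pr c (φ t p))) (H p)) = f₀ (pr c (φ t p)) ∧
      f' (t + a (pr c (φ t p))) = f t := fun t ht => by
    have b1 : t ∈ vis φ Y p c := mem_of_indicator_ne_zero ht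
    rw [hf, indicator_of_mem b1] at ht ⊢
    have b2 := hlt _ ht
    have b3 := hout _ b2
    have b4 : φ (t + a (pr c (φ t p))) (H p) = Y c' (f₀ (pr c (φ t p))) := by
      rw [ha2 _ b3, ← (pr_vis hB b1).2, add_comm, hφ.add, hc]
    have b5 := VisitAux.pr_eq hB (b2.le.trans h2) b4
    refine ⟨b3, b5, ?_⟩
    rw [hf', indicator_of_mem (show _ ∈ vis φ Y (H p) c' from ⟨_, b2.le.trans h2, b4⟩), b5]
  have s' : Sp (vis φ Y (H p) c') f' := sp hw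
  refine hμ.shift _ _ δ f f' (fun t => t + a (pr c (φ t p))) B hB.δ_pos (sep hφ hB p c)
    (sep hφ hB (H p) c') ⟨fun t ht => indicator_of_notMem ht _, ?_⟩ s' (fun s hs t ht e => ?_)
    (fun t ht => ⟨(key t ht).2.2, by rw [add_sub_cancel_left]; exact ha1 _ (key t ht).1⟩)
    fun t' ht' => ?_
  · obtain ⟨C, hC⟩ := s'.2
    refine ⟨C, fun t => ?_⟩
    by_cases ht : f t = 0
    · rw [ht, abs_zero]
      exact (abs_nonneg _).trans (hC 0)
    · rw [← (key t ht).2.2]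
      exact hC _
  · have e' : s + a (pr c (φ s p)) = t + a (pr c (φ t p)) := e
    have b1 : pr c (φ s p) = pr c (φ t p) :=
      hinj (mem_closedBall_zero_iff.2 (key s hs).1) (mem_closedBall_zero_iff.2 (key t ht).1)
        (by rw [← (key s hs).2.1, ← (key t ht).2.1, e'])
    rw [b1] at e'
    exact add_right_cancel e'
  · have b1 : t' ∈ vis φ Y (H p) c' := mem_of_indicator_ne_zero ht'
    rw [hf', indicator_of_mem b1] at ht'
    obtain ⟨z, b2, b3⟩ := hsurj _ (hlt _ ht')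
    have b4 : φ (t' - a z) p = Y c z := H.injective (by
      rw [hc]
      exact VisitAux.back hφ (by rw [← ha2 z b2, b3, ← (pr_vis hB b1).2]))
    have b5 := VisitAux.pr_eq hB (b2.trans h1) b4
    refine ⟨t' - a z, ?_, by rw [b5, sub_add_cancel]⟩
    rwa [hf, indicator_of_mem (show _ ∈ vis φ Y p c from ⟨_, b2.trans h1, b4⟩), b5, b3]

theorem ind_bv (p c : S) (x : ℂ) (r : ℝ) : Bv φ Y pr p c (ind x r) 1 := fun t _ => by
  unfold ind
  by_cases hz : pr c (φ t p) ∈ ball x r <;> simp [hz]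

theorem nu_eq (c : S) (w : ℂ → ℝ) :
    nu μ φ h Y pr c w = out μ fun n => nup μ φ Y pr (base h n) c w := rfl

end ViAux

open ViAux

theorem Zs_countable (hφ : IsFl φ) (hB : Box φ lam δ Y pr T) (h : S ≃ₜ S) (c : S) :
    (Zs φ h Y c).Countable := by
  have h1 : ∀ p, (vis φ Y p c).Countable := fun p => by
    refine MapsTo.countable_of_injOn (f := fun t : ℝ => ⌊t / δ⌋) (mapsTo_univ _ _)
      (fun s hs t ht h => sep hφ hB p c s hs t ht ?_) countable_univ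
    have := Int.abs_sub_lt_one_of_floor_eq_floor h
    rw [← sub_div, abs_div, abs_of_pos hB.δ_pos, div_lt_one hB.δ_pos] at this
    exact this.le
  refine (countable_iUnion fun n : ℤ =>
    (h1 (base h n)).image fun t => pr c (φ t (base h n))).mono ?_
  rintro z ⟨h2, n, t, h3⟩
  exact mem_iUnion.2 ⟨n, t, ⟨z, h2, h3⟩, VisitAux.pr_eq hB h2 h3⟩

theorem Zs_iff (hφ : IsFl φ) (hc : ∀ t x, h (φ t x) = φ t (h x)) (j : ℤ) {c c' : S} {z z' : ℂ}
    {a : ℝ} (hz : ‖z‖ ≤ 200000) (hz' : ‖z'‖ ≤ 200000) (e : Y c' z' = φ a ((h ^ j) (Y c z))) :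
    z' ∈ Zs φ h Y c' ↔ z ∈ Zs φ h Y c := by
  constructor
  · rintro ⟨_, n, t, ht⟩
    refine ⟨hz, n - j, t - a, (h ^ j).injective ?_⟩
    rw [zpow_comm hc, ← base_add, sub_add_cancel]
    exact VisitAux.back hφ (ht.trans e)
  · rintro ⟨_, n, t, ht⟩
    exact ⟨hz', n + j, a + t, by rw [hφ.add, base_add, ← zpow_comm hc, ht, e]⟩

theorem nu_add (hμ : IsMean2 μ) (hφ : IsFl φ) (hB : Box φ lam δ Y pr T) (h : S ≃ₜ S) (c : S)
    (w w' : ℂ → ℝ) (hw : Bd (Zs φ h Y c) w) (hw' : Bd (Zs φ h Y c) w') :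
    nu μ φ h Y pr c (fun z => w z + w' z) = nu μ φ h Y pr c w + nu μ φ h Y pr c w' := by
  obtain ⟨C, hC⟩ := hw
  obtain ⟨C', hC'⟩ := hw'
  refine Eq.trans ?_ (out_add hμ (fun n => nup_le hμ hφ hB (bv hB hC n))
    fun n => nup_le hμ hφ hB (bv hB hC' n))
  rw [nu_eq]
  refine congrArg (out μ) (funext fun n => ?_)
  unfold nup
  rw [← hμ.add _ δ _ _ hB.δ_pos (sep hφ hB _ c) (sp (bv hB hC n)) (sp (bv hB hC' n)),
    indicator_add]

theorem nu_smul (hμ : IsMean2 μ) (hφ : IsFl φ) (hB : Box φ lam δ Y pr T) (h : S ≃ₜ S) (c : S)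
    (a : ℝ) (w : ℂ → ℝ) (hw : Bd (Zs φ h Y c) w) :
    nu μ φ h Y pr c (fun z => a * w z) = a * nu μ φ h Y pr c w := by
  obtain ⟨C, hC⟩ := hw
  refine Eq.trans ?_ (out_smul hμ a fun n => nup_le hμ hφ hB (bv hB hC n))
  rw [nu_eq]
  refine congrArg (out μ) (funext fun n => ?_)
  unfold nup
  rw [← hμ.smul _ δ a _ hB.δ_pos (sep hφ hB _ c) (sp (bv hB hC n))]
  congr 1
  funext t
  exact indicator_const_mul _ _ _ _

theorem nu_mono (hμ : IsMean2 μ) (hφ : IsFl φ) (hB : Box φ lam δ Y pr T) (h : S ≃ₜ S) (c : S)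
    (w w' : ℂ → ℝ) (hw : Bd (Zs φ h Y c) w) (hw' : Bd (Zs φ h Y c) w')
    (hle : ∀ z ∈ Zs φ h Y c, w z ≤ w' z) : nu μ φ h Y pr c w ≤ nu μ φ h Y pr c w' := by
  obtain ⟨C, hC⟩ := hw
  obtain ⟨C', hC'⟩ := hw'
  refine out_mono hμ (fun n => nup_le hμ hφ hB (bv hB hC n))
    (fun n => nup_le hμ hφ hB (bv hB hC' n)) fun n => ?_
  refine hμ.mono _ δ _ _ hB.δ_pos (sep hφ hB _ c) (sp (bv hB hC n)) (sp (bv hB hC' n)) fun t => ?_
  by_cases ht : t ∈ vis φ Y (base h n) c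
  · rw [indicator_of_mem ht, indicator_of_mem ht]
    exact hle _ (mem_Zs hB ht)
  · rw [indicator_of_notMem ht, indicator_of_notMem ht]

theorem nu_pos (hμ : IsMean2 μ) (hφ : IsFl φ) (hmin : ∀ x, Dense (range fun t : ℝ => φ t x))
    (hB : Box φ lam δ Y pr T) (h : S ≃ₜ S) (c : S) (x : ℂ) (r : ℝ) (hx : ‖x‖ ≤ 100000)
    (hr : 0 < r) : 0 < nu μ φ h Y pr c (ind x r) := by
  have hl := hB.lam_pos
  have hδ := hB.δ_pos
  set O : Set S := {q : S | ‖(q : E) - c‖ < 10 ^ 6 * lam} ∩ pr c ⁻¹' ball x (min r 1) with hO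
  have h1 : IsOpen O := ((hB.prcont c).mono fun q hq => le_of_lt hq).isOpen_inter_preimage
    (isOpen_lt (continuous_subtype_val.sub continuous_const).norm continuous_const) isOpen_ball
  have h2 : O.Nonempty := by
    refine ⟨Y c x, (hB.Ynear c x).trans_lt (by nlinarith), ?_⟩
    rw [mem_preimage, hB.pr_Y c (by linarith)]
    exact mem_ball_self (lt_min hr one_pos)
  obtain ⟨F, hF⟩ := isCompact_univ.elim_finite_subcover (fun s : ℝ => {y : S | φ s y ∈ O})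
    (fun s => h1.preimage (hφ.cont.comp (Continuous.prodMk_right s))) fun y _ => by
      obtain ⟨_, ⟨s, rfl⟩, hs⟩ := (hmin y).exists_mem_open h1 h2
      exact mem_iUnion.2 ⟨s, hs⟩
  have h3 : ∀ z, 0 ≤ ind x r z := fun z => indicator_nonneg (fun _ _ => zero_le_one) z
  refine out_pos hμ (fun n => nup_le hμ hφ hB (ind_bv (base h n) c x r))
    (a := 1 / (|2 * (∑ s ∈ F, |s|) + 2 * δ| + 1)) (by positivity) fun n => ?_
  set p := base h n
  refine hμ.lower _ δ _ (2 * (∑ s ∈ F, |s|) + 2 * δ) hδ (sep hφ hB p c) (sp (ind_bv p c x r))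
    (fun t => indicator_nonneg (fun _ _ => h3 _) t) fun t => ?_
  obtain ⟨s, hs, hq⟩ := mem_iUnion₂.1 (hF (mem_univ (φ (t + ∑ s ∈ F, |s| + δ) p)))
  have h4 := abs_le.1 (Finset.single_le_sum (f := fun s : ℝ => |s|) (fun _ _ => abs_nonneg _) hs)
  set q := φ s (φ (t + ∑ s ∈ F, |s| + δ) p) with hq'
  have h5 : ‖(q : E) - c‖ ≤ 10 ^ 6 * lam := le_of_lt hq.1
  have h6 := abs_le.1 (hB.Tle c q h5)
  have h7 : φ (T c q + (s + (t + ∑ s ∈ F, |s| + δ))) p = Y c (pr c q) := by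
    rw [hφ.add, hφ.add, hB.flow c q h5]
  have h8 : ‖pr c q - x‖ < min r 1 := mem_ball_iff_norm.1 hq.2
  have h9 : ‖pr c q‖ ≤ 200000 := by
    linarith [norm_sub_norm_le (pr c q) x, min_le_right r 1]
  refine ⟨T c q + (s + (t + ∑ s ∈ F, |s| + δ)), ⟨by linarith, by linarith⟩, ?_⟩
  rw [indicator_of_mem (show _ ∈ vis φ Y p c from ⟨_, h9, h7⟩), VisitAux.pr_eq hB h9 h7, ind,
    indicator_of_mem (mem_ball_iff_norm.2 (h8.trans_le (min_le_left r 1)))]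

theorem nu_small (hμ : IsMean2 μ) (hφ : IsFl φ) (aper : ∀ x t, φ t x = x → t = 0)
    (hB : Box φ lam δ Y pr T) (h : S ≃ₜ S) (c : S) (θ : ℝ) (hθ : 0 < θ) :
    ∃ r : ℝ, 0 < r ∧ ∀ x, nu μ φ h Y pr c (ind x r) ≤ θ := by
  have hδ := hB.δ_pos
  obtain ⟨ρ, hρ, H⟩ : ∃ ρ : ℝ, 0 < ρ ∧ ∀ (t : ℝ) (y : S), δ ≤ |t| → |t| ≤ 2 / θ →
      ρ ≤ dist (φ t y) y := by
    have hK : IsCompact (({t : ℝ | δ ≤ |t|} ∩ Icc (-(2 / θ)) (2 / θ)) ×ˢ (univ : Set S)) :=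
      (isCompact_Icc.inter_left (isClosed_le continuous_const continuous_abs)).prod isCompact_univ
    obtain ⟨ρ, hρ, H⟩ := hK.exists_forall_le' (a := 0)
      (f := fun q : ℝ × S => dist (φ q.1 q.2) q.2) (hφ.cont.dist continuous_snd).continuousOn
      fun q hq => dist_pos.2 fun e => by
        have h1 : δ ≤ |q.1| := hq.1.1
        rw [aper _ _ e, abs_zero] at h1
        linarith
    exact ⟨ρ, hρ, fun t y h1 h2 => H (t, y) ⟨⟨h1, abs_le.1 h2⟩, mem_univ _⟩⟩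
  obtain ⟨r, hr, hu⟩ := Metric.uniformContinuousOn_iff.1
    ((isCompact_closedBall (0 : ℂ) 200000).uniformContinuousOn_of_continuous
      (hB.Ycont c).continuousOn) ρ hρ
  refine ⟨r / 2, half_pos hr, fun x => ?_⟩
  rw [nu_eq]
  refine (out_le hμ (K := θ / 2) (half_pos hθ) fun n => ?_).trans (by linarith)
  set p := base h n
  have h1 := hμ.upper {t | t ∈ vis φ Y p c ∧ pr c (φ t p) ∈ ball x (r / 2)} (2 / θ)
    ((vis φ Y p c).indicator fun t => ind x (r / 2) (pr c (φ t p))) (by positivity)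
    (fun s hs t ht hst => ?_) ⟨fun t ht => ?_, (sp (ind_bv p c x (r / 2))).2⟩ fun t => ?_
  · rwa [one_div_div] at h1
  · refine sep hφ hB p c s hs.1 t ht.1 (le_of_not_ge fun h2 => ?_)
    have h3 := H (s - t) (φ t p) h2 hst
    rw [← hφ.add, sub_add_cancel, (pr_vis hB hs.1).2, (pr_vis hB ht.1).2] at h3
    have h4 := hu _ (mem_closedBall_zero_iff.2 (pr_vis hB hs.1).1) _
      (mem_closedBall_zero_iff.2 (pr_vis hB ht.1).1) (by
        linarith [dist_triangle_right (pr c (φ s p)) (pr c (φ t p)) x, mem_ball.1 hs.2,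
          mem_ball.1 ht.2])
    linarith
  · by_cases h2 : t ∈ vis φ Y p c
    · rw [indicator_of_mem h2, ind, indicator_of_notMem fun e => ht ⟨h2, e⟩]
    · exact indicator_of_notMem h2 _
  · by_cases h2 : t ∈ vis φ Y p c
    · rw [indicator_of_mem h2]
      exact ind_bv p c x (r / 2) t h2
    · rw [indicator_of_notMem h2, abs_zero]
      exact zero_le_one

theorem nu_transfer (hμ : IsMean2 μ) (hφ : IsFl φ) (hB : Box φ lam δ Y pr T)
    (hc : ∀ t x, h (φ t x) = φ t (h x)) (j : ℤ) {f : ℂ → ℂ} {c c' : S} {R₁ R₂ B : ℝ}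
    (h1 : R₁ ≤ 200000) (h2 : R₂ ≤ 200000)
    (hfl : ∀ z, ‖z‖ ≤ R₁ → ∃ a : ℝ, |a| ≤ B ∧ Y c' (f z) = φ a ((h ^ j) (Y c z)))
    (hinj : InjOn f (closedBall 0 R₁)) (hsurj : ∀ z', ‖z'‖ < R₂ → ∃ z, ‖z‖ ≤ R₁ ∧ f z = z')
    (hout : ∀ z, ‖f z‖ < R₂ → ‖z‖ ≤ R₁) {w : ℂ → ℝ} (hw : Bd (Zs φ h Y c') w)
    (h0 : ∀ z, R₂ ≤ ‖z‖ → w z = 0) :
    nu μ φ h Y pr c (fun z => w (f z)) = nu μ φ h Y pr c' w := by
  obtain ⟨C, hC⟩ := hw
  refine Eq.trans ?_ (out_shift hμ (fun n => nup_le hμ hφ hB (bv hB hC n)) j)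
  rw [nu_eq]
  refine congrArg (out μ) (funext fun n => ?_)
  have h3 := bv hB hC (n + j)
  rw [base_add] at h3 ⊢
  exact nup_transfer hμ hφ hB (zpow_comm hc j) h1 h2 hfl hinj hsurj hout h3 h0


end Pool.Agent.Lib.MP_399f8e_an.Ur.Uc
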