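import Pool.Agent.Lib.MP_399f8e_an.Uc.Tame
import Pool.Agent.Lib.MP_399f8e_an.Ur.Conj

open Set Filter Topology Metric Complex
open scoped Real
open Pool.Agent.Lib.MP_399f8e_an.Rg

noncomputable section

namespace Pool.Agent.Lib.MP_399f8e_an.Ur.Uc

variable {g g' : ℂ → ℂ} {ν : (ℂ → ℝ) → ℝ} {Z : Set ℂ} {ψ : ℂ ≃ₜ ℂ}

open ConjAux

theorem conj_good (hG : Good g g' ν Z 100000 (1 / 2)) (h1 : NearI ψ univ (1 / 10))
    (h2 : ∀ x, ‖ψ x - x‖ ≤ 5) : Good (fun z => ψ (g (ψ.symm z))) (fun z => ψ (g' (ψ.symm z)))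
      (fun w => ν fun z => w (ψ z)) (ψ '' Z) 3000 1 := by
  have hb : ∀ z : ℂ, ‖z‖ ≤ 3000 → ‖ψ.symm z‖ ≤ 100000 := fun z hz => by
    have := symm_bd h2 z
    linarith
  refine
    { cont := ψ.continuous.comp (hG.cont.comp ψ.symm.continuous)
      cont' := ψ.continuous.comp (hG.cont'.comp ψ.symm.continuous)
      near := near_conj h1 hG.near
      near' := near_conj h1 hG.near'
      inv := fun z hz => ?_
      inv' := fun z hz => ?_
      nofix := fun z hz h => ?_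
      cnt := hG.cnt.image _
      Zg := fun z hz => ?_
      add := fun w w' hw hw' => hG.add _ _ (bd_comp hw) (bd_comp hw')
      smul := fun c w hw => hG.smul c _ (bd_comp hw)
      mono := fun w w' hw hw' h =>
        hG.mono _ _ (bd_comp hw) (bd_comp hw') fun z hz => h _ ⟨z, hz, rfl⟩
      pos := fun x r hx hr => ?_
      invν := fun w hw h0 => ?_ }
  · rw [Homeomorph.symm_apply_apply, hG.inv _ (hb z hz), Homeomorph.apply_symm_apply]
  · rw [Homeomorph.symm_apply_apply, hG.inv' _ (hb z hz), Homeomorph.apply_symm_apply]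
  · refine hG.nofix _ (hb z hz) (ψ.injective ?_)
    rw [Homeomorph.apply_symm_apply]
    exact h
  · rw [mem_img, mem_img, Homeomorph.symm_apply_apply]
    exact hG.Zg _ (hb z hz)
  · refine (hG.pos (ψ.symm x) (r / 2) (hb x hx) (by linarith)).trans_le
      (hG.mono _ _ ⟨1, fun z _ => ind_abs _ _ _⟩ ⟨1, fun z _ => ind_abs _ _ _⟩ fun z _ => ?_)
    unfold ind
    by_cases h : z ∈ ball (ψ.symm x) (r / 2)
    · have h' : ψ z ∈ ball x r := by
        have a := up h1 z (ψ.symm x)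
        rw [Homeomorph.apply_symm_apply] at a
        rw [mem_ball, dist_eq_norm] at h ⊢
        linarith
      rw [indicator_of_mem h, indicator_of_mem h']
    · rw [indicator_of_notMem h]
      exact indicator_nonneg (fun _ _ => zero_le_one) _
  · simp only [Homeomorph.symm_apply_apply]
    refine hG.invν (fun z => w (ψ z)) (bd_comp hw) fun z hz => h0 _ ?_
    have := symm_bd h2 (ψ z)
    rw [Homeomorph.symm_apply_apply] at this
    linarith

theorem conj_step {P : (ℝ → ℂ) → ℝ → ℝ} {B B' θ : ℝ} (hG : Good g g' ν Z 100000 (1 / 2))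
    (hS : Step g ν Z P 40000 B' θ) (hB : B + π ≤ B') (h1 : NearI ψ univ (1 / 10))
    (h2 : ∀ x, ‖ψ x - x‖ ≤ 5) :
    Step (fun z => ψ (g (ψ.symm z))) (fun w => ν fun z => w (ψ z)) (ψ '' Z)
      (fun k l => P (fun t => ψ.symm (k t)) l) 3000 B θ := by
  intro k l k' l' β b hk hk' hβ e1 e2 e3 e4 b1 b2
  have tk := conj_tame h1 h2 hk
  have tk' := conj_tame h1 h2 hk'
  have tβ := conj_tame h1 h2 hβ
  have f1 : ψ.symm (k l) = g (ψ.symm (k 0)) := by
    rw [e1]; exact ψ.symm_apply_apply _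
  have f2 : ψ.symm (k' l') = g (ψ.symm (k' 0)) := by
    rw [e2]; exact ψ.symm_apply_apply _
  have f3 : ψ.symm (β 0) = ψ.symm (k 0) := by rw [e3]
  have f4 : ψ.symm (β b) = ψ.symm (k' 0) := by rw [e4]
  have tg : ∀ z ∈ Z, Off (fun t => g (ψ.symm (β t))) 0 b z := fun z hz =>
    hG.off_map tβ (by norm_num) hz
  have p1 : ∀ z ∈ Z, |var (fun t => ψ.symm (β t)) 0 b z| ≤ B' := fun z hz => by
    have hz' : ψ z ∈ ψ '' Z := ⟨z, hz, rfl⟩
    have t1 := (symm_near h1).twOn (by norm_num) β 0 b (ψ z) (hβ.isOff hz')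
      (fun _ _ => mem_univ _) (mem_univ _)
    rw [Homeomorph.symm_apply_apply] at t1
    have t2 := b1 _ hz'
    rw [abs_le] at t1 t2 ⊢
    constructor <;> linarith [t1.1, t1.2, t2.1, t2.2]
  have p2 : ∀ z ∈ Z, |var (fun t => g (ψ.symm (β t))) 0 b z| ≤ B' := fun z hz => by
    have t1 := h1.twOn (by norm_num) _ 0 b z (tg z hz) (fun _ _ => mem_univ _) (mem_univ _)
    have t2 := b2 _ ⟨z, hz, rfl⟩
    rw [abs_le] at t1 t2 ⊢
    constructor <;> linarith [t1.1, t1.2, t2.1, t2.2]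
  have main := hS _ l _ l' _ b (tk.mono (by norm_num)) (tk'.mono (by norm_num))
    (tβ.mono (by norm_num)) f1 f2 f3 f4 p1 p2
  show P (fun t => ψ.symm (k t)) l + (ν fun z => Wn (fun z => ψ (g (ψ.symm z))) k l k' l' β b (ψ z))
    - θ ≤ P (fun t => ψ.symm (k' t)) l'
  refine le_trans (le_of_eq ?_) main
  congr 2
  symm
  refine hG.nu_congr ?_ fun z hz => ?_
  · obtain ⟨C, hC⟩ := tk.bv
    obtain ⟨C', hC'⟩ := tk'.bv
    exact ⟨_, fun z hz => TameAux.four (hC z hz) (p2 z hz) (hC' z hz) (p1 z hz)⟩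
  have v1 := h1.var_eq (by norm_num) (tk.isOff hz) (fun _ _ => mem_univ _) (mem_univ _)
  have v2 := h1.var_eq (by norm_num) (tk'.isOff hz) (fun _ _ => mem_univ _) (mem_univ _)
  have v3 := h1.var_eq (by norm_num) (tβ.isOff hz) (fun _ _ => mem_univ _) (mem_univ _)
  have v4 := h1.var_eq (by norm_num) (tg z hz) (fun _ _ => mem_univ _) (mem_univ _)
  have c1 : (fun t => ψ (ψ.symm (k t))) = k := funext fun t => ψ.apply_symm_apply _
  have c2 : (fun t => ψ (ψ.symm (k' t))) = k' := funext fun t => ψ.apply_symm_apply _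
  have c3 : (fun t => ψ (ψ.symm (β t))) = β := funext fun t => ψ.apply_symm_apply _
  rw [c1, f1] at v1
  rw [c2, f2] at v2
  rw [c3, f3, f4] at v3
  rw [f3, f4] at v4
  unfold Wn
  linarith

theorem conj_bnd {P : (ℝ → ℂ) → ℝ → ℝ} (hP : Bnd Z P 40000) (h1 : NearI ψ univ (1 / 10))
    (h2 : ∀ x, ‖ψ x - x‖ ≤ 5) : Bnd (ψ '' Z) (fun k l => P (fun t => ψ.symm (k t)) l) 3000 := by
  intro C
  obtain ⟨M, hM⟩ := hP (C + π)
  refine ⟨M, fun k l hk hC => hM _ l ((conj_tame h1 h2 hk).mono (by norm_num)) fun z hz => ?_⟩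
  have hz' : ψ z ∈ ψ '' Z := ⟨z, hz, rfl⟩
  have t1 := (symm_near h1).twOn (by norm_num) k 0 l (ψ z) (hk.isOff hz')
    (fun _ _ => mem_univ _) (mem_univ _)
  rw [Homeomorph.symm_apply_apply] at t1
  have t2 := hC _ hz'
  rw [abs_le] at t1 t2 ⊢
  constructor <;> linarith [t1.1, t1.2, t2.1, t2.2]

end Pool.Agent.Lib.MP_399f8e_an.Ur.Uc
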