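import Pool.Agent.Lib.MP_399f8e_an.Ur.Defs

open Set Filter Topology Metric Complex
open scoped Real
open Pool.Agent.Lib.MP_399f8e_an.Rg

noncomputable section

namespace Pool.Agent.Lib.MP_399f8e_an.Ur.Uc

/-- plane data: the map, its inverse and an invariant positive mean that lives on `Z` -/
structure Good (g g' : ℂ → ℂ) (ν : (ℂ → ℝ) → ℝ) (Z : Set ℂ) (R b : ℝ) : Prop where
  cont : Continuous g
  cont' : Continuous g'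
  near : ∀ z, ‖g z - z‖ ≤ b
  near' : ∀ z, ‖g' z - z‖ ≤ b
  inv : ∀ z, ‖z‖ ≤ R → g' (g z) = z
  inv' : ∀ z, ‖z‖ ≤ R → g (g' z) = z
  nofix : ∀ z, ‖z‖ ≤ R → g z ≠ z
  cnt : Z.Countable
  Zg : ∀ z, ‖z‖ ≤ R → (g z ∈ Z ↔ z ∈ Z)
  add : ∀ w w', Bd Z w → Bd Z w' → ν (fun z => w z + w' z) = ν w + ν w'
  smul : ∀ (c : ℝ) w, Bd Z w → ν (fun z => c * w z) = c * ν w
  mono : ∀ w w', Bd Z w → Bd Z w' → (∀ z ∈ Z, w z ≤ w' z) → ν w ≤ ν w'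
  pos : ∀ (x : ℂ) (r : ℝ), ‖x‖ ≤ R → 0 < r → 0 < ν (ind x r)
  invν : ∀ w, Bd Z w → (∀ z, R ≤ ‖z‖ → w z = 0) → ν (fun z => w (g z)) = ν w

/-- `P` is a flux potential up to the error `θ`, for connecting paths that wind at most `B` -/
def Step (g : ℂ → ℂ) (ν : (ℂ → ℝ) → ℝ) (Z : Set ℂ) (P : (ℝ → ℂ) → ℝ → ℝ) (r B θ : ℝ) : Prop :=
  ∀ k l k' l' β b, Tame Z r k l → Tame Z r k' l' → Tame Z r β b → k l = g (k 0) →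
    k' l' = g (k' 0) → β 0 = k 0 → β b = k' 0 → (∀ z ∈ Z, |var β 0 b z| ≤ B) →
    (∀ z ∈ Z, |var (fun t => g (β t)) 0 b z| ≤ B) →
      P k l + ν (Wn g k l k' l' β b) - θ ≤ P k' l'

/-- `P` is bounded above on paths of bounded winding -/
def Bnd (Z : Set ℂ) (P : (ℝ → ℂ) → ℝ → ℝ) (r : ℝ) : Prop :=
  ∀ C : ℝ, ∃ M : ℝ, ∀ k l, Tame Z r k l → (∀ z ∈ Z, |var k 0 l z| ≤ C) → P k l ≤ M

/-- every admissible grid move raises `P` by `δ` -/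
def Gm (g g' : ℂ → ℂ) (ε d : ℝ) (P : (ℝ → ℂ) → ℝ → ℝ) (δ : ℝ) : Prop :=
  ∀ (k σ : ℝ → ℂ) (l s₀ s s₁ T : ℝ) (v u u₀ : ℂ), GArc g ε 2000 k l →
    GV ε k l s₀ s s₁ v u u₀ → Far g g' (k 0) (d / 15) v → Continuous σ → 0 < T →
    InjOn σ (Icc 0 T) → (∀ x ∈ Icc (0 : ℝ) ε, σ x = v + x * (I * u)) →
    (∀ x ∈ Icc 0 T, σ x ∈ Grid ε ∧ ‖σ x‖ ≤ 2000) →
    (∀ x ∈ Icc 0 T, ∀ y ∈ Ioo (0 : ℝ) ε, σ x ≠ v + y * u ∧ σ x ≠ v - y * u₀) →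
    (∀ x ∈ Icc 0 T, ‖σ x - v‖ < d / 10 → ∀ y ∈ Icc 0 x, ‖σ y - v‖ < d / 10) →
    ((∃ x ∈ Ioc 0 T, σ x ∈ k '' Icc 0 l) ∨ ∃ x ∈ Icc 0 T, ∃ y ∈ Icc 0 T, σ x = g (σ y)) →
    ∃ κ l', Arc g κ l' ∧ Shape g g' k l s σ T κ l' ∧ P k l + δ ≤ P κ l'

/-- a symmetry of the flow that is close to the identity after a time change -/
structure Rt (φ : ℝ → S → S) (h : S ≃ₜ S) (τ : S → ℝ) (lam δ : ℝ) : Prop where
  comm : ∀ t x, h (φ t x) = φ t (h x)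
  cont : Continuous τ
  near : ∀ x, ‖(φ (τ x) (h x) : E) - x‖ ≤ lam / 10
  far : ∀ x a, |a - τ x| ≤ δ / 10 → φ a (h x) ≠ x
  coarse : ∀ (y : S) (t : ℝ), |t| ≤ δ → |τ (φ t y) - τ y| ≤ δ / 10

/-- the symmetry read in a chart -/
def ret (φ : ℝ → S → S) (h : S ≃ₜ S) (τ : S → ℝ) (Y : S → ℂ → S) (pr : S → S → ℂ) (c : S)
    (z : ℂ) : ℂ :=
  pr c (φ (τ (Y c (cl z))) (h (Y c (cl z)))) + (z - cl z)

/-- a mean with explicit bounds -/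
structure IsMean2 (μ : (ℝ → ℝ) → ℝ) : Prop extends IsMean μ where
  upper : ∀ V T f, 0 < T → Sep V T → Sp V f → (∀ t, |f t| ≤ 1) → |μ f| ≤ 1 / T
  lower : ∀ V δ f (B : ℝ), 0 < δ → Sep V δ → Sp V f → (∀ t, 0 ≤ f t) →
    (∀ t, ∃ s ∈ Icc t (t + B), 1 ≤ f s) → 1 / (|B| + 1) ≤ μ f

/-- the times at which the orbit of `p` meets the section through `c` -/
def vis (φ : ℝ → S → S) (Y : S → ℂ → S) (p c : S) : Set ℝ :=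
  {t | ∃ z : ℂ, ‖z‖ ≤ 200000 ∧ φ t p = Y c z}

/-- the mean over the visits of the orbit of `p` -/
def nup (μ : (ℝ → ℝ) → ℝ) (φ : ℝ → S → S) (Y : S → ℂ → S) (pr : S → S → ℂ) (p c : S)
    (w : ℂ → ℝ) : ℝ :=
  μ ((vis φ Y p c).indicator fun t => w (pr c (φ t p)))

/-- the images of the pole -/
def base (h : S ≃ₜ S) (n : ℤ) : S := (h ^ n) pole

/-- the points at which the orbits of the images of the pole meet the section through `c` -/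
def Zs (φ : ℝ → S → S) (h : S ≃ₜ S) (Y : S → ℂ → S) (c : S) : Set ℂ :=
  {z | ‖z‖ ≤ 200000 ∧ ∃ (n : ℤ) (t : ℝ), φ t (base h n) = Y c z}

/-- the mean over the visits of all these orbits -/
def nu (μ : (ℝ → ℝ) → ℝ) (φ : ℝ → S → S) (h : S ≃ₜ S) (Y : S → ℂ → S) (pr : S → S → ℂ) (c : S)
    (w : ℂ → ℝ) : ℝ :=
  μ ((range fun n : ℤ => (n : ℝ)).indicator fun s => nup μ φ Y pr (base h ⌊s⌋) c w)

/-- an atlas of plane data indexed by the sphere -/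
structure Atlas (lam : ℝ) (Y : S → ℂ → S) (γ : S → S → ℂ → ℂ) (g g' : S → ℂ → ℂ)
    (ν : S → (ℂ → ℝ) → ℝ) (Z : S → Set ℂ) : Prop where
  lam_pos : 0 < lam
  lam_le : 8000 * lam ≤ 1
  good : ∀ i, Good (g i) (g' i) (ν i) (Z i) 100000 (1 / 2)
  small : ∀ i (θ : ℝ), 0 < θ → ∃ r : ℝ, 0 < r ∧ ∀ x, ν i (ind x r) ≤ θ
  Ynear : ∀ i z, dist (Y i z) i ≤ 2 * lam * ‖z‖
  self : ∀ i z, ‖z‖ ≤ 100000 → γ i i z = z
  cont : ∀ i j, dist i j ≤ 8000 * lam → Continuous (γ i j)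
  near : ∀ i j, dist i j ≤ 8000 * lam → NearI (γ i j) (closedBall 0 100000) (1 / 1000)
  disp : ∀ i j, dist i j ≤ 8000 * lam → ∀ z, ‖γ i j z - z‖ ≤ 17000
  bd : ∀ i j, dist i j ≤ 8000 * lam → ∀ z, ‖z‖ ≤ 100000 → lam * ‖γ i j z‖ ≤ 2 * dist (Y i z) j
  coc : ∀ i j m, dist i j ≤ 8000 * lam → dist j m ≤ 8000 * lam → dist i m ≤ 8000 * lam →
    ∀ z, ‖z‖ ≤ 100000 → γ j m (γ i j z) = γ i m z
  comm : ∀ i j, dist i j ≤ 8000 * lam → ∀ z, ‖z‖ ≤ 100000 → γ i j (g i z) = g j (γ i j z)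
  mem : ∀ i j, dist i j ≤ 8000 * lam → ∀ z, ‖z‖ ≤ 100000 → (γ i j z ∈ Z j ↔ z ∈ Z i)
  mean : ∀ i j, dist i j ≤ 8000 * lam → ∀ w, Bd (Z j) w → (∀ z, 61000 ≤ ‖z‖ → w z = 0) →
    ν i (fun z => w (γ i j z)) = ν j w

/-- clipping at the level `M` -/
def clip (M x : ℝ) : ℝ := max (-M) (min x M)

/-- the cutoff -/
def chi (z : ℂ) : ℝ := if ‖z‖ ≤ 42000 then 1 else 0

/-- the integrand of the potential, for the angle function `A` -/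
def En (g : ℂ → ℂ) (A : ℂ → ℝ) (k : ℝ → ℂ) (l : ℝ) (z : ℂ) : ℝ :=
  chi z * var k 0 l z - (chi (g z) - chi z) * arg ((k 0 - z) / (0 - z)) - chi (g z) * A z

end Pool.Agent.Lib.MP_399f8e_an.Ur.Uc
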