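import Pool.Agent.Lib.MP_399f8e_an.Uc.Move
import Pool.Agent.Lib.MP_399f8e_an.Ur.GMove

open Set Filter Topology Metric Complex
open scoped Real
open Pool.Agent.Lib.MP_399f8e_an.Rg

noncomputable section

namespace Pool.Agent.Lib.MP_399f8e_an.Ur.Uc

theorem garc_bound {g : ℂ → ℂ} {Z : Set ℂ} {P : (ℝ → ℂ) → ℝ → ℝ} {ε : ℝ} (hP : Bnd Z P 3000)
    (hε : 0 < ε) (hZ : ∀ z ∈ Z, z ∉ Grid ε) :
    ∃ M : ℝ, ∀ k l, GArc g ε 2000 k l → P k l ≤ M := by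
  obtain ⟨C, hC⟩ := grid_bound hε 2000
  obtain ⟨M, hM⟩ := hP C
  exact ⟨M, fun k l h => hM k l ((h.tame hε hZ).mono (by norm_num)) fun z hz =>
    hC k 0 l h.arc.pos.le h.arc.cont h.arc.inj (fun t ht => ⟨h.grid t ht, h.bd t ht⟩) z (hZ z hz)⟩

open GMoveAux in
theorem gmove {g g' : ℂ → ℂ} {ν : (ℂ → ℝ) → ℝ} {Z : Set ℂ} {ε d t e : ℝ}
    (hG : Good g g' ν Z 3000 1) (hε : 0 < ε) (hF : Fine g g' 3000 d t e)
    (ht0 : 0 < t) (ht : t ≤ d / 40) (he : ε ≤ e) (hd : ε ≤ d / 1000) (hZ : ∀ z ∈ Z, z ∉ Grid ε) :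
    ∃ δ B : ℝ, 0 < δ ∧ 0 ≤ B ∧ ∀ (P : (ℝ → ℂ) → ℝ → ℝ) (θ : ℝ), Step g ν Z P 3000 B θ →
      Gm g g' ε d P (δ - θ) := by
  have hd1 : d ≤ 1 := (hF.low 0 (by simp)).trans (hG.near 0)
  obtain ⟨γ₁, hγ₁, H₁⟩ := exists_gap hG.cont hε ht0 he hF.md
  obtain ⟨γ₂, hγ₂, H₂⟩ := exists_gap hG.cont' hε ht0 he hF.md'
  obtain ⟨γ, hγ, hγa, hγb, hγc⟩ : ∃ γ : ℝ, 0 < γ ∧ γ ≤ γ₁ ∧ γ ≤ γ₂ ∧ γ ≤ ε / 2 :=
    ⟨min (min γ₁ γ₂) (ε / 2), lt_min (lt_min hγ₁ hγ₂) (half_pos hε),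
      (min_le_left _ _).trans (min_le_left _ _), (min_le_left _ _).trans (min_le_right _ _),
      min_le_right _ _⟩
  obtain ⟨C, hC⟩ := grid_bound hε 2000
  obtain ⟨δ, hδ, Hδ⟩ := fin_pos ((vtx_finite hε 2000).prod (dir_finite.prod dir_finite))
    (fun q : ℂ × ℂ × ℂ => 2 * π * ν (ind (q.1 + ε / 2 * q.2.1 + γ / 2 * q.2.2) (γ / 2)))
    (fun q hq => by
      refine mul_pos (by positivity) (hG.pos _ _ ?_ (half_pos hγ))
      have h1 := norm_add_le (q.1 + ε / 2 * q.2.1) (γ / 2 * q.2.2)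
      have h2 := norm_add_le q.1 (ε / 2 * q.2.1)
      rw [half_norm hγ (Dir.norm hq.2.2)] at h1
      rw [half_norm hε (Dir.norm hq.2.1)] at h2
      have h3 : ‖q.1‖ ≤ 2000 := hq.1.2
      linarith)
  refine ⟨δ, 2 * π + 3 * |C|, hδ, by positivity,
    fun P θ hS k σ l s₀ s s₁ T v u u₀ hk hv hfar hc hT hi hray hσg hσe hloc hit => ?_⟩
  have hu : Dir u := hv.du
  have hu₀ : Dir u₀ := by
    rcases hv.turn with h | h
    · rw [h]; exact hu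
    · rw [h]; exact hu.mulI
  have hs0 : 0 ≤ s := hv.h0.trans hv.inn.lt.le
  have hsl : s ≤ l := hv.out.lt.le.trans hv.h1
  have hvn : ‖v‖ ≤ 2000 := by rw [← hv.out.fst]; exact hk.bd s ⟨hs0, hsl⟩
  have hv3 : ‖v‖ ≤ 3000 := hvn.trans (by norm_num)
  have hneg : v - ε / 2 * u₀ = v + ε / 2 * (-u₀) := by ring
  have hw : v - ε * u₀ ∈ Vtx ε := by
    have h := vtx_add hv.vt hu₀ (-1)
    have e : v + ((-1 : ℤ) : ℂ) * ε * u₀ = v - ε * u₀ := by push_cast; ring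
    rwa [e] at h
  have hk3 : ∀ p ∈ Icc 0 l, k p ∈ Grid ε ∧ ‖k p‖ ≤ 3000 :=
    fun p hp => ⟨hk.grid p hp, (hk.bd p hp).trans (by norm_num)⟩
  have h0l : (0 : ℝ) ∈ Icc 0 l := ⟨le_rfl, hk.arc.pos.le⟩
  have hσ0 : σ 0 = v := by rw [hray 0 ⟨le_rfl, hε.le⟩]; simp
  have hhalf : ε / 2 ∈ Icc (0 : ℝ) ε := ⟨(half_pos hε).le, (half_lt_self hε).le⟩
  have hsub : ∀ z ∈ k '' Icc 0 l ∪ σ '' Icc 0 T, z ∈ Grid ε ∧ ‖z‖ ≤ 2000 := by
    rintro z (⟨p, hp, rfl⟩ | ⟨p, hp, rfl⟩)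
    · exact ⟨hk.grid p hp, hk.bd p hp⟩
    · exact hσg p hp
  have hfar2 : ∀ {z w : ℂ}, Dir w → d / 15 ≤ ‖v - z‖ → 2 * t ≤ ‖z - (v + ε / 2 * w)‖ := by
    intro z w hw h
    have h1 := mid_le hε hw.norm v z
    linarith
  have hlow : ∀ p ∈ Icc 0 T, d ≤ ‖g (σ p) - σ p‖ :=
    fun p hp => hF.low _ ((hσg p hp).2.trans (by norm_num))
  have hlow' : ∀ p ∈ Icc 0 T, d ≤ ‖g' (σ p) - σ p‖ := by
    intro p hp
    have h1 : ‖g' (σ p)‖ ≤ 3000 := by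
      have h2 := norm_add_le (g' (σ p) - σ p) (σ p)
      rw [sub_add_cancel] at h2
      linarith [hG.near' (σ p), (hσg p hp).2]
    have h3 := hF.low _ h1
    rwa [hG.inv' _ ((hσg p hp).2.trans (by norm_num)), norm_sub_rev] at h3
  have hσ3 : ∀ {x y : ℝ}, x ∈ Icc 0 T → y ∈ Ico 0 x → Icc 0 y ⊆ Icc 0 T :=
    fun hx hy => Icc_subset_Icc le_rfl (hy.2.le.trans hx.2)
  obtain ⟨κ, l', h1, h2, h3⟩ := move hG hS (abs_nonneg C) (γ := γ) hk.arc hε hu.norm hv.h0 hv.h1 hv.out hv.inn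
    hv.turn hc hT hi hray
    (fun z hz => ⟨(hsub z hz).2, fun h => hZ z h (hsub z hz).1⟩)
    (fun Q b hb hQ hQi hQs z hz => (hC Q 0 b hb hQ hQi
      (fun x hx => hsub _ (hQs ⟨x, hx, rfl⟩)) z (hZ z hz)).trans (le_abs_self C))
    hit hγ
    (fun p hp hn => hγc.trans
      (seg_far hε hk.arc.cont hk.arc.inj hk.grid hv.out hv.vt hu hs0 hv.h1 hp hn))
    (fun p hp hn => by
      have h := seg_far hε hk.arc.cont hk.arc.inj hk.grid hv.inn hw hu₀ hv.h0 hsl hp hn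
      have e : v - ε * u₀ + ε / 2 * u₀ = v - ε / 2 * u₀ := by ring
      rw [e] at h
      exact hγc.trans h)
    (fun p hp => by
      constructor
      · refine hγa.trans (H₁ k 0 l v u hk.arc.cont hk.arc.inj hk3 hv.vt hv3 hu ?_
          (hfar2 hu hfar.2.1) ?_ p hp)
        · intro p' hp' e
          obtain ⟨q, hq, eq⟩ := seg_surj hk.arc.cont hv.out
            (fun h => by simpa [h] using hu.norm) hhalf
          have e1 : k q = v + ε / 2 * u := by rw [eq]; push_cast; ring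
          have hql := (hk.arc.free p' hp' q ⟨hs0.trans hq.1, hq.2.trans hv.h1⟩
            (e.trans e1.symm)).1
          have h4 := hfar2 hu hfar.2.1
          rw [← hql, e, sub_self, norm_zero] at h4
          linarith
        · rw [hk.arc.last]; exact hfar2 hu hfar.2.2.1
      · rw [hneg]
        refine hγb.trans (H₂ k 0 l v (-u₀) hk.arc.cont hk.arc.inj hk3 hv.vt hv3 hu₀.neg ?_
          (hfar2 hu₀.neg hfar.2.2.2) ?_ p hp)
        · intro p' hp' e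
          obtain ⟨q, hq, eq⟩ := seg_surj hk.arc.cont hv.inn
            (fun h => by simpa [h] using hu₀.norm) hhalf
          have e1 : k q = v + ε / 2 * (-u₀) := by rw [eq]; push_cast; ring
          have e2 : g (k q) = k p' := by rw [e1, ← e, hG.inv' _ (hk3 p' hp').2]
          have hq0 := (hk.arc.free q ⟨hv.h0.trans hq.1, hq.2.trans hsl⟩ p' hp' e2).1
          have h4 := hfar2 hu₀.neg hfar.1
          rw [← hq0, e1, sub_self, norm_zero] at h4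
          linarith
        · rw [hk.arc.last, hG.inv _ (hk3 0 h0l).2]; exact hfar2 hu₀.neg hfar.1)
    (fun x hx => by
      constructor
      · by_contra hlt
        obtain ⟨y, hy, e⟩ := mid_near hε hv.vt hu (hσg x hx).1 ((not_le.1 hlt).trans_le hγc)
        exact (hσe x hx y hy).1 e
      · rw [hneg]
        by_contra hlt
        obtain ⟨y, hy, e⟩ := mid_near hε hv.vt hu₀.neg (hσg x hx).1 ((not_le.1 hlt).trans_le hγc)
        exact (hσe x hx y hy).2 (by rw [e]; ring))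
    (fun x hx p hp e => by
      rcases lt_trichotomy p s with h | h | h
      · obtain ⟨y, hy, e'⟩ := seg_in hk.arc.inj hv.inn hv.h0 hsl ⟨hp.1, h⟩
        exact absurd (by rw [e, e']; push_cast; ring)
          (hσe x hx (ε - y) ⟨sub_pos.2 hy.2, sub_lt_self _ hy.1⟩).2
      · exact h
      · obtain ⟨y, hy, e'⟩ := seg_in hk.arc.inj hv.out hs0 hv.h1 ⟨h, hp.2⟩
        exact absurd (e.trans e') (hσe x hx y hy).1)
    (fun x hx y hy e hne p hp => by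
      have hend := ends hε ht hd hu.norm hσ0 hx hy hlow hloc e
      exact hγa.trans (H₁ σ 0 y v u hc (hi.mono (hσ3 hx hy))
        (fun q hq => ⟨(hσg q (hσ3 hx hy hq)).1, (hσg q (hσ3 hx hy hq)).2.trans (by norm_num)⟩)
        hv.vt hv3 hu hne hend.1 hend.2 p hp))
    (fun x hx y hy e hne p hp => by
      have hend := ends hε ht hd hu₀.neg.norm hσ0 hx hy hlow' hloc e
      rw [hneg] at hne ⊢
      exact hγb.trans (H₂ σ 0 y v (-u₀) hc (hi.mono (hσ3 hx hy))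
        (fun q hq => ⟨(hσg q (hσ3 hx hy hq)).1, (hσg q (hσ3 hx hy hq)).2.trans (by norm_num)⟩)
        hv.vt hv3 hu₀.neg hne hend.1 hend.2 p hp))
  refine ⟨κ, l', h1, h2, ?_⟩
  rcases h3 with h3 | h3
  · have h4 := Hδ (v, u, I * u) ⟨⟨hv.vt, hvn⟩, hu, hu.mulI⟩
    simp only at h4
    linarith
  · have h4 := Hδ (v, -u₀, I * u₀) ⟨⟨hv.vt, hvn⟩, hu₀.neg, hu₀.mulI⟩
    simp only at h4
    rw [hneg] at h3
    linarith

end Pool.Agent.Lib.MP_399f8e_an.Ur.Uc
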