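import Pool.Agent.Lib.MP_399f8e_an.Uc.Defs
import Pool.Agent.Lib.MP_399f8e_an.Ur.Phase

open Set Filter Topology Metric Complex
open scoped Real
open Pool.Agent.Lib.MP_399f8e_an.Rg

noncomputable section

namespace Pool.Agent.Lib.MP_399f8e_an.Ur.Uc

open PhaseAux in
theorem phase {g g' : ℂ → ℂ} {P : (ℝ → ℂ) → ℝ → ℝ} {ε d t e δ M : ℝ} {n : ℕ}
    (hT : Top g g' 2995) (hn : n * ε = 1) (hε : 0 < ε) (hF : Fine g g' 3000 d t e)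
    (hd : ε ≤ d / 1000) (hδ : 0 < δ) (hmove : Gm g g' ε d P δ)
    (hM : ∀ k l, GArc g ε 2000 k l → P k l ≤ M) : ∀ k l, GArc g ε 200 k l →
      ∃ κ l' v, GArc g ε 2000 κ l' ∧ 1000 ≤ ‖v‖ ∧ ‖v‖ ≤ 1415 ∧
        (∀ p ∈ Icc 0 l', ‖κ p - v‖ ≤ 100) ∧ P k l + δ ≤ P κ l' := by
  intro k l hk
  obtain ⟨A, hA⟩ : ∃ A : Set ℝ, ∀ x, x ∈ A ↔ ∃ κ l', Arc g κ l' ∧
      (∀ p ∈ Icc 0 l', κ p ∈ Grid ε ∧ κ p ∈ Om) ∧ P k l ≤ P κ l' ∧ x = P κ l' :=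
    ⟨{x | _}, fun _ => Iff.rfl⟩
  have mk : ∀ {κ : ℝ → ℂ} {l' : ℝ}, Arc g κ l' → (∀ p ∈ Icc 0 l', κ p ∈ Grid ε ∧ κ p ∈ Om) →
      GArc g ε 2000 κ l' := fun h1 h2 =>
    ⟨h1, fun p hp => (h2 p hp).1, fun p hp => om_norm (h2 p hp).2⟩
  have hne : A.Nonempty := ⟨_, (hA _).2 ⟨k, l, hk.arc,
    fun p hp => ⟨hk.grid p hp, om_of_norm (hk.bd p hp)⟩, le_rfl, rfl⟩⟩
  have hbd : BddAbove A := ⟨M, fun x hx => by
    obtain ⟨κ, l', h1, h2, -, rfl⟩ := (hA x).1 hx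
    exact hM _ _ (mk h1 h2)⟩
  obtain ⟨x, hx, hlt⟩ := exists_lt_of_lt_csSup hne (sub_lt_self (sSup A) hδ)
  obtain ⟨k₀, l₀, hk₀, hg₀, hle, rfl⟩ := (hA x).1 hx
  have hst : ∀ s₀ s s₁ v u u₀, GV ε k₀ l₀ s₀ s s₁ v u u₀ → Far g g' (k₀ 0) (d / 15) v →
      (v / (I * u)).re = 1000 := by
    intro s₀ s s₁ v u u₀ hV hfar
    by_contra hne'
    have hs : s ∈ Icc 0 l₀ := ⟨hV.h0.trans hV.inn.lt.le, hV.out.lt.le.trans hV.h1⟩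
    have hs₁ : s₁ ∈ Icc 0 l₀ := ⟨hs.1.trans hV.out.lt.le, hV.h1⟩
    have hv : v ∈ Om := hV.out.fst ▸ (hg₀ s hs).2
    have hv' : v + ε * u ∈ Om := hV.out.snd ▸ (hg₀ s₁ hs₁).2
    obtain ⟨m, hm⟩ := vtx_height hV.vt hV.du.mulI
    have hh : (v / (I * u)).re + ε ≤ 1000 := by
      have h1 := mem_Om.1 hv _ hV.du.mulI
      have h2 : (m : ℝ) * ε < (1000 * n) * ε := by
        rw [mul_assoc, hn, mul_one, ← hm]
        exact lt_of_le_of_ne h1 hne'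
      have h3 : (m : ℝ) < 1000 * n := lt_of_mul_lt_mul_right h2 hε.le
      have h4 : m + 1 ≤ 1000 * (n : ℤ) := by exact_mod_cast h3
      have h5 : (m : ℝ) + 1 ≤ 1000 * n := by exact_mod_cast h4
      have h6 := mul_le_mul_of_nonneg_right h5 hε.le
      rw [mul_assoc, hn] at h6
      rw [hm]
      linarith
    obtain ⟨σ, hc, hi, h0, h3, hσ⟩ := exists_cell hε hV.vt hV.du
    have hom : ∀ y ∈ Icc 0 (3 * ε), σ y ∈ Grid ε ∧ σ y ∈ Om := fun y hy => by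
      obtain ⟨a, ⟨p, hp, q, hq, e⟩, -⟩ := hσ y hy
      exact ⟨a, e ▸ cell_om hV.du hv hv' hh hp hq⟩
    obtain ⟨κ, l', hκ, ⟨r₁, hr₁, r₂, hr₂, hsub, -⟩, hP⟩ := hmove k₀ σ l₀ s₀ s s₁ (3 * ε) v u u₀
      (mk hk₀ hg₀) hV hfar hc (by linarith) hi h0
      (fun y hy => ⟨(hom y hy).1, om_norm (hom y hy).2⟩)
      (fun y hy z hz => by
        obtain ⟨-, ⟨p, hp, q, hq, e⟩, hn'⟩ := hσ y hy
        exact ⟨hn' z hz, e ▸ cell_ne hV.du hV.turn hp.1 hq.1 hz.1⟩)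
      (fun y hy _ z hz => by
        obtain ⟨-, ⟨p, hp, q, hq, e⟩, -⟩ := hσ z ⟨hz.1, hz.2.trans hy.2⟩
        have := cell_norm (v := v) hV.du hp hq
        rw [e]
        linarith)
      (Or.inl ⟨3 * ε, ⟨by linarith, le_rfl⟩, s₁, hs₁, hV.out.snd.trans h3.symm⟩)
    have hmem : P κ l' ∈ A := (hA _).2 ⟨κ, l', hκ, fun p hp => by
      rcases hsub ⟨p, hp, rfl⟩ with ⟨y, hy, e⟩ | ⟨y, hy, e⟩
      · exact e ▸ hg₀ y ⟨hr₁.1.trans hy.1, hy.2.trans hr₂.2⟩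
      · exact e ▸ hom y hy, by linarith, rfl⟩
    have := le_csSup hbd hmem
    linarith
  obtain ⟨κ, l', v, h1, h2, h3, h4, h5⟩ := last_move hT hn hε hF hd hmove hk₀ hg₀ hst
  exact ⟨κ, l', v, h1, h2, h3, h4, by linarith⟩

end Pool.Agent.Lib.MP_399f8e_an.Ur.Uc
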