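import Pool.Agent.Lib.MP_399f8e_an.Uc.Glob
import Pool.Agent.Lib.MP_399f8e_an.Uc.Conj
import Pool.Agent.Lib.MP_399f8e_an.Uc.GMove
import Pool.Agent.Lib.MP_399f8e_an.Uc.Phase
import Pool.Agent.Lib.MP_399f8e_an.Ur.Final

open Set Filter Topology Metric Complex
open scoped Real
open Pool.Agent.Lib.MP_399f8e_an.Rg

noncomputable section

namespace Pool.Agent.Lib.MP_399f8e_an.Ur.Uc

variable {lam : ℝ} {Y : S → ℂ → S} {γ : S → S → ℂ → ℂ} {g g' : S → ℂ → ℂ}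
  {ν : S → (ℂ → ℝ) → ℝ} {Z : S → Set ℂ}

theorem regrid (hA : Atlas lam Y γ g g' ν Z) {P : S → (ℝ → ℂ) → ℝ → ℝ} {θ : ℝ} {i j : S}
    (hP : dist i j ≤ 4000 * lam → ∀ (k k₂ : ℝ → ℂ) (l : ℝ), Tame (Z i) 20000 k l →
      k l = g i (k 0) → Continuous k₂ → (∀ t ∈ Icc 0 l, k₂ t = γ i j (k t)) →
        P i k l - θ ≤ P j k₂ l)
    {ε : ℝ} (hε : 0 < ε) {ψ ψ' : ℂ ≃ₜ ℂ} {o c v : ℂ} (ho : ‖o‖ ≤ 1) (hc : c ∈ Vtx ε)
    (h1 : NearI ψ univ (1 / 10)) (h2 : ∀ x, ‖ψ x - x‖ ≤ 5) (h3 : ∀ x, 400 ≤ ‖x‖ → ψ x = x - o)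
    (hZ : ∀ z ∈ Z i, ψ z ∉ Grid ε) (h2' : ∀ x, ‖ψ' x - x‖ ≤ 5)
    (h3' : ∀ x, ‖x‖ ≤ 150 → ψ' x = γ j i x - c - o) (hv : 1000 ≤ ‖v‖) (hv' : ‖v‖ ≤ 1415)
    (hj : dist (Y i v) j ≤ lam) {κ : ℝ → ℂ} {l : ℝ}
    (hκ : GArc (fun z => ψ (g i (ψ.symm z))) ε 2000 κ l) (hb : ∀ p ∈ Icc 0 l, ‖κ p - v‖ ≤ 100) :
    GArc (fun z => ψ' (g j (ψ'.symm z))) ε 200 (fun t => κ t - c) l ∧
      P i (fun t => ψ.symm (κ t)) l - θ ≤ P j (fun t => ψ'.symm (κ t - c)) l := by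
  have hl := hA.lam_pos
  have hG := hA.good i
  have hY := hA.Ynear i v
  have hd : dist i j ≤ 4000 * lam := by
    have h := dist_triangle_left i j (Y i v)
    have : 2 * lam * ‖v‖ ≤ 2 * lam * 1415 := mul_le_mul_of_nonneg_left hv' (by positivity)
    linarith
  have hd' : dist i j ≤ 8000 * lam := by linarith
  have hd'' : dist j i ≤ 8000 * lam := by rwa [dist_comm]
  have hγv : ‖γ i j v‖ ≤ 2 := by
    have h := hA.bd i j hd' v (by linarith)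
    exact le_of_mul_le_mul_left (by linarith) hl
  have big : ∀ y : ℂ, ‖y - v‖ ≤ 102 → 400 ≤ ‖y‖ ∧ ‖y‖ ≤ 1517 := by
    intro y hy
    have a1 := norm_sub_norm_le y v
    have a2 := norm_sub_norm_le v y
    rw [norm_sub_rev] at a2
    constructor <;> linarith
  have small : ∀ y : ℂ, ‖y - v‖ ≤ 102 → ‖γ i j y‖ ≤ 105 := by
    intro y hy
    have a1 := hA.near i j hd' y (by simpa using (big y hy).2.trans (by norm_num)) v
      (by simpa using hv'.trans (by norm_num))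
    have e : γ i j y = (γ i j y - γ i j v - (y - v)) + (y - v) + γ i j v := by ring
    rw [e]
    refine norm_add₃_le.trans ?_
    linarith
  have new : ∀ y : ℂ, ‖y - v‖ ≤ 102 → ψ' (γ i j y) = y - c - o := by
    intro y hy
    have a1 := (big y hy).2
    rw [h3' _ ((small y hy).trans (by norm_num)),
      hA.coc i j i hd' hd'' (by rw [dist_self]; positivity) y (by linarith),
      hA.self i y (by linarith)]
  have hy : ∀ p ∈ Icc 0 l, ‖κ p + o - v‖ ≤ 101 := by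
    intro p hp
    have e : κ p + o - v = (κ p - v) + o := by ring
    rw [e]
    exact (norm_add_le _ _).trans (by linarith [hb p hp])
  have old : ∀ p ∈ Icc 0 l, ψ.symm (κ p) = κ p + o := by
    intro p hp
    rw [Homeomorph.symm_apply_eq, h3 _ (big _ ((hy p hp).trans (by norm_num))).1]
    ring
  have inv : ∀ p ∈ Icc 0 l, ψ'.symm (κ p - c) = γ i j (κ p + o) := by
    intro p hp
    rw [Homeomorph.symm_apply_eq, new _ ((hy p hp).trans (by norm_num))]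
    ring
  have hgy : ∀ p ∈ Icc 0 l, ‖g i (κ p + o) - v‖ ≤ 102 := by
    intro p hp
    have e : g i (κ p + o) - v = (g i (κ p + o) - (κ p + o)) + (κ p + o - v) := by ring
    rw [e]
    exact (norm_add_le _ _).trans (by linarith [hy p hp, hG.near (κ p + o)])
  have gg : ∀ p ∈ Icc 0 l, ψ' (g j (ψ'.symm (κ p - c))) = ψ (g i (ψ.symm (κ p))) - c := by
    intro p hp
    rw [inv p hp, old p hp, ← hA.comm i j hd' _
      ((big _ ((hy p hp).trans (by norm_num))).2.trans (by norm_num)), new _ (hgy p hp),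
      h3 _ (big _ (hgy p hp)).1]
    ring
  have h0 : (0 : ℝ) ∈ Icc 0 l := ⟨le_rfl, hκ.arc.pos.le⟩
  refine ⟨⟨⟨hκ.arc.cont.sub continuous_const, hκ.arc.pos,
    fun s hs t ht e => hκ.arc.inj hs ht (sub_left_inj.1 e), ?_, fun s hs t ht e => ?_⟩,
    fun p hp => (grid_sub hc).2 (hκ.grid p hp), fun p hp => ?_⟩, ?_⟩
  · show κ l - c = ψ' (g j (ψ'.symm (κ 0 - c)))
    rw [gg 0 h0, hκ.arc.last]
  · have e' : ψ' (g j (ψ'.symm (κ s - c))) = κ t - c := e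
    rw [gg s hs] at e'
    exact hκ.arc.free s hs t ht (sub_left_inj.1 e')
  · have e : κ p - c = ψ' (γ i j (κ p + o)) := by
      rw [new _ ((hy p hp).trans (by norm_num))]; ring
    show ‖κ p - c‖ ≤ 200
    rw [e]
    have a1 := norm_sub_norm_le (ψ' (γ i j (κ p + o))) (γ i j (κ p + o))
    linarith [h2' (γ i j (κ p + o)), small _ ((hy p hp).trans (by norm_num))]
  · have t1 : Tame (ψ '' Z i) 2000 κ l := hκ.tame hε (by rintro _ ⟨z, hz, rfl⟩; exact hZ z hz)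
    refine hP hd _ _ l ((conj_tame h1 h2 t1).mono (by norm_num)) ?_
      (ψ'.symm.continuous.comp (hκ.arc.cont.sub continuous_const)) fun t ht => ?_
    · show ψ.symm (κ l) = g i (ψ.symm (κ 0))
      rw [hκ.arc.last, Homeomorph.symm_apply_apply]
    · show ψ'.symm (κ t - c) = γ i j (ψ.symm (κ t))
      rw [inv t ht, old t ht]

theorem no_atlas (hA : Atlas lam Y γ g g' ν Z) : False := by
  classical
  have hl := hA.lam_pos
  obtain ⟨F₀, -, hfin, hcov⟩ := finite_cover_balls_of_compact (isCompact_univ (X := S)) hl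
  set F : Finset S := hfin.toFinset with hFdef
  have hnet : ∀ q : S, ∃ m ∈ F, dist q m ≤ lam := by
    intro q
    have := hcov (mem_univ q)
    simp only [mem_iUnion] at this
    obtain ⟨m, hm, hq⟩ := this
    exact ⟨m, hfin.mem_toFinset.2 hm, (mem_ball.1 hq).le⟩
  obtain ⟨d, t, e, hd, ht, htd, he, hF⟩ := exists_fine F g g' (fun i => (hA.good i).cont)
    (fun i => (hA.good i).cont') (fun i z hz => (hA.good i).nofix z (by linarith))
  obtain ⟨n, hn⟩ := exists_nat_one_div_lt (K := ℝ)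
    (show 0 < min (e / 2) (min (d / 2000) (1 / 2)) from
      lt_min (by linarith) (lt_min (by linarith) (by norm_num)))
  set ε : ℝ := 1 / ((n : ℝ) + 1) with hεdef
  have hε : 0 < ε := by positivity
  have hnε : ((n + 1 : ℕ) : ℝ) * ε = 1 := by
    rw [hεdef]; push_cast; field_simp
  have hε1 : ε ≤ e / 2 := (hn.trans_le (min_le_left _ _)).le
  have hε2 : ε ≤ d / 2000 := (hn.trans_le ((min_le_right _ _).trans (min_le_left _ _))).le
  have hε3 : ε ≤ 1 / 2 := (hn.trans_le ((min_le_right _ _).trans (min_le_right _ _))).le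
  have hZc : (⋃ i ∈ F₀, Z i).Countable :=
    hfin.countable.biUnion fun i _ => (hA.good i).cnt
  obtain ⟨o, ho, hoZ⟩ := exists_offset hZc ε
  have hoZ' : ∀ i ∈ F, ∀ z ∈ Z i, z - o ∉ Grid ε := fun i hi z hz =>
    hoZ z (mem_biUnion (hfin.mem_toFinset.1 hi) hz)
  -- the hybrid charts
  have key : ∀ p : S × S, ∃ (c : ℂ) (ψ : ℂ ≃ₜ ℂ) (δ B : ℝ), 0 < δ ∧ (p.1 ∈ F → p.2 ∈ F →
      dist p.1 p.2 ≤ 4000 * lam → c ∈ Vtx ε ∧ NearI ψ univ (1 / 10) ∧ (∀ x, ‖ψ x - x‖ ≤ 5) ∧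
      (∀ x, ‖x‖ ≤ 150 → ψ x = γ p.1 p.2 x - c - o) ∧ (∀ x, 400 ≤ ‖x‖ → ψ x = x - o) ∧
      (∀ z ∈ Z p.1, ψ z ∉ Grid ε) ∧
      ∀ (P : (ℝ → ℂ) → ℝ → ℝ) (θ : ℝ), Step (fun z => ψ (g p.1 (ψ.symm z)))
        (fun w => ν p.1 fun z => w (ψ z)) (ψ '' Z p.1) P 3000 B θ →
        Gm (fun z => ψ (g p.1 (ψ.symm z))) (fun z => ψ (g' p.1 (ψ.symm z))) ε (d / 2) P (δ - θ)) := by
    rintro ⟨j, i⟩
    by_cases hadm : j ∈ F ∧ i ∈ F ∧ dist j i ≤ 4000 * lam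
    · obtain ⟨hj, hi, hji⟩ := hadm
      have hji' : dist j i ≤ 8000 * lam := by linarith
      obtain ⟨c, hc, hc2⟩ := exists_vtx_near hε (γ j i 0)
      have hnear : NearI (γ j i) (closedBall 0 500) (1 / 1000) := fun x hx y hy =>
        hA.near j i hji' x (closedBall_subset_closedBall (by norm_num) hx) y
          (closedBall_subset_closedBall (by norm_num) hy)
      obtain ⟨ψ, h1, h2, h3, h4, h5⟩ := exists_hyb hnear ho (hc2.trans (by linarith)) ε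
        (hA.good j).cnt (hoZ' j hj) (fun z hz hz' hmem => by
          have h6 : γ j i z ∈ Z i := (hA.mem j i hji' z (by linarith)).2 hz
          refine hoZ' i hi _ h6 ((grid_sub hc).1 ?_)
          rwa [sub_right_comm] at hmem)
      obtain ⟨δ, B, hδ, -, hm⟩ := gmove (conj_good (hA.good j) h1 h2) hε (conj_fine (hF j hj) h1 h2)
        (by linarith) (by linarith) hε1 (by linarith) (by
          rintro _ ⟨z, hz, rfl⟩
          exact h5 z hz)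
      exact ⟨c, ψ, δ, B, hδ, fun _ _ _ => ⟨hc, h1, h2, h3, h4, h5, hm⟩⟩
    · exact ⟨0, Homeomorph.refl ℂ, 1, 0, one_pos, fun h1 h2 h3 => (hadm ⟨h1, h2, h3⟩).elim⟩
  choose c ψ δ B hδ hk using key
  obtain ⟨δ₀, hδ₀, hδle⟩ := FinalAux.exists_min (F ×ˢ F) δ hδ
  obtain ⟨B₀, hB₀⟩ := FinalAux.exists_max (F ×ˢ F) B
  obtain ⟨P, hS, hP⟩ := exists_global hA F (B := |B₀| + π) (θ := δ₀ / 10)
    (by positivity) (by positivity)
  have hT : ∀ p : S × S, p.1 ∈ F → p.2 ∈ F → dist p.1 p.2 ≤ 4000 * lam →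
      Top (fun z => ψ p (g p.1 ((ψ p).symm z))) (fun z => ψ p (g' p.1 ((ψ p).symm z))) 2995 := by
    intro p h1 h2 h3
    obtain ⟨-, a1, a2, -⟩ := hk p h1 h2 h3
    have := (conj_good (hA.good p.1) a1 a2).top le_rfl
    rwa [show (3000 : ℝ) - 5 = 2995 by norm_num] at this
  have hM : ∀ p : S × S, ∃ M : ℝ, p.1 ∈ F → p.2 ∈ F → dist p.1 p.2 ≤ 4000 * lam →
      ∀ k l, GArc (fun z => ψ p (g p.1 ((ψ p).symm z))) ε 2000 k l →
        P p.1 (fun t => (ψ p).symm (k t)) l ≤ M := by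
    intro p
    by_cases hadm : p.1 ∈ F ∧ p.2 ∈ F ∧ dist p.1 p.2 ≤ 4000 * lam
    · obtain ⟨-, a1, a2, -, -, a5, -⟩ := hk p hadm.1 hadm.2.1 hadm.2.2
      obtain ⟨M, hM⟩ := garc_bound (g := fun z => ψ p (g p.1 ((ψ p).symm z)))
        (conj_bnd (hS p.1 hadm.1).2 a1 a2) hε (by
          rintro _ ⟨z, hz, rfl⟩
          exact a5 z hz)
      exact ⟨M, fun _ _ _ => hM⟩
    · exact ⟨0, fun h1 h2 h3 => (hadm ⟨h1, h2, h3⟩).elim⟩
  choose M hM using hM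
  obtain ⟨M₀, hM₀⟩ := FinalAux.exists_max (F ×ˢ F) M
  refine FinalAux.no_succ (V := {x | ∃ p : S × S, p.1 ∈ F ∧ p.2 ∈ F ∧
    dist p.1 p.2 ≤ 4000 * lam ∧ ∃ k l, GArc (fun z => ψ p (g p.1 ((ψ p).symm z))) ε 200 k l ∧
      x = P p.1 (fun t => (ψ p).symm (k t)) l}) (M := M₀) (δ := δ₀ / 2) (by linarith) ?_ ?_ ?_
  · obtain ⟨i, hi, -⟩ := hnet pole
    have hii : dist i i ≤ 4000 * lam := by rw [dist_self]; linarith
    obtain ⟨k, l, hkl⟩ := exists_start (hT (i, i) hi hi hii) hnε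
    exact ⟨_, (i, i), hi, hi, hii, k, l, hkl, rfl⟩
  · rintro x ⟨p, h1, h2, h3, k, l, hkl, rfl⟩
    exact (hM p h1 h2 h3 k l (FinalAux.garc_mono hkl (by norm_num))).trans
      (hM₀ p (Finset.mem_product.2 ⟨h1, h2⟩))
  · rintro x ⟨p, h1, h2, h3, k, l, hkl, rfl⟩
    obtain ⟨-, a1, a2, -, a4, a5, hm⟩ := hk p h1 h2 h3
    have q1 := hδle p (Finset.mem_product.2 ⟨h1, h2⟩)
    have q2 := hB₀ p (Finset.mem_product.2 ⟨h1, h2⟩)
    obtain ⟨κ, l', v, hκ, hv, hv', hb, hinc⟩ := phase (hT p h1 h2 h3) hnε hε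
      (conj_fine (hF p.1 h1) a1 a2) (by linarith) (by linarith) (hm _ _ (conj_step (hA.good p.1)
        (hS p.1 h1).1 (by linarith [le_abs_self B₀]) a1 a2)) (hM p h1 h2 h3) k l hkl
    obtain ⟨m, hm, hmv⟩ := hnet (Y p.1 v)
    have hmj : dist m p.1 ≤ 4000 * lam := by
      have e1 := hA.Ynear p.1 v
      have e2 := dist_triangle_left m p.1 (Y p.1 v)
      have e3 : 2 * lam * ‖v‖ ≤ 2 * lam * 1415 := mul_le_mul_of_nonneg_left hv' (by linarith)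
      linarith
    obtain ⟨b0, -, b2, b3, -⟩ := hk (m, p.1) hm h1 hmj
    obtain ⟨r1, r2⟩ := regrid hA (hP p.1 h1 m hm) hε ho b0 a1 a2 a4 a5 b2 b3 hv hv' hmv hκ hb
    refine ⟨_, ⟨(m, p.1), hm, h1, hmj, _, l', r1, rfl⟩, ?_⟩
    show _ ≤ P m (fun t => (ψ (m, p.1)).symm (κ t - c (m, p.1))) l'
    linarith

end Pool.Agent.Lib.MP_399f8e_an.Ur.Uc
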