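import Pool.Agent.Lib.MP_399f8e_an.Uc.Ret
import Pool.Agent.Lib.MP_399f8e_an.Ur.Frame

open Set Filter Topology Metric Complex
open scoped Real RealInnerProductSpace
open Pool.Agent.Lib.MP_399f8e_an.Rg

noncomputable section

namespace Pool.Agent.Lib.MP_399f8e_an.Ur.Uc

variable {φ : ℝ → S → S} {X : S → E} {m M L : ℝ}

open FrameAux in
theorem exists_frame3 (h : FD φ X m M L) (hmin : ∀ x, Dense (range fun t : ℝ => φ t x)) (ε : ℝ)
    (hε : 0 < ε) : ∃ η : ℝ, 0 < η ∧ ∀ (f : S ≃ₜ S) (τ : S → ℝ),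
      (∀ t x, f (φ t x) = φ t (f x)) → Continuous τ → (∀ x, ‖(φ (τ x) (f x) : E) - x‖ ≤ η) →
      (∃ t₀ : ℝ, (∀ x, f x = φ t₀ x) ∧ ∀ x, |τ x + t₀| ≤ ε) ∨
        ∃ u n : S → E, Continuous u ∧ Continuous n ∧ ∀ x : S, Frame x (X x) (u x) (n x) := by
  obtain ⟨ϱ, δ, C, hϱ, hδ, hC, T, hTc, hT, hTu⟩ := exists_time h
  obtain ⟨d, hd, hshort⟩ := short h
  set a : ℝ := min ε (min (δ / 2) d) with ha
  have ha0 : 0 < a := lt_min hε (lt_min (half_pos hδ) hd)
  have ha1 : a ≤ ε := min_le_left _ _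
  have ha2 : a ≤ δ / 2 := (min_le_right _ _).trans (min_le_left _ _)
  have ha3 : a ≤ d := (min_le_right _ _).trans (min_le_right _ _)
  refine ⟨min (min ϱ (1 / 2)) (a / C), lt_min (lt_min hϱ (by norm_num)) (div_pos ha0 hC),
    fun f τ hc hτ hnear => ?_⟩
  have n1 : ∀ x : S, ‖(φ (τ x) (f x) : E) - x‖ ≤ ϱ := fun x =>
    (hnear x).trans ((min_le_left _ _).trans (min_le_left _ _))
  have n2 : ∀ x : S, ‖(φ (τ x) (f x) : E) - x‖ ≤ 1 / 2 := fun x =>
    (hnear x).trans ((min_le_left _ _).trans (min_le_right _ _))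
  have n3 : ∀ x : S, |T x (φ (τ x) (f x))| ≤ a := fun x => by
    have h1 := (hT x _ (n1 x)).1
    have h2 : ‖(φ (τ x) (f x) : E) - x‖ ≤ a / C := (hnear x).trans (min_le_right _ _)
    rw [le_div_iff₀ hC] at h2
    linarith
  by_cases hfar : ∀ x : S, φ (T x (φ (τ x) (f x))) (φ (τ x) (f x)) ≠ x
  swap
  · push Not at hfar
    obtain ⟨x, hx⟩ := hfar
    rw [← h.add] at hx
    have e := RtAux.eq_time h.toIsFl hmin hc hx
    set t₀ := -(T x (φ (τ x) (f x)) + τ x) with ht₀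
    have dich : ∀ y : S, |τ y + t₀| ≤ δ → |τ y + t₀| ≤ a := fun y hy => by
      have h1 : -(τ y + t₀) = T y (φ (τ y) (f y)) := by
        refine hTu y _ _ (n1 y) (by rwa [abs_neg]) ?_
        rw [e, ← h.add, ← h.add, show -(τ y + t₀) + τ y + t₀ = 0 by ring, h.zero]
        exact h.perp y
      rw [← abs_neg, h1]
      exact n3 y
    refine Or.inl ⟨t₀, e, fun y => ?_⟩
    by_contra hy
    have h1 : δ < |τ y + t₀| := by
      by_contra h1
      have := dich y (not_lt.1 h1)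
      exact hy (by linarith)
    have h2 : |τ x + t₀| ≤ a := by
      rw [ht₀, show τ x + -(T x (φ (τ x) (f x)) + τ x) = -T x (φ (τ x) (f x)) by ring, abs_neg]
      exact n3 x
    have := preconn
    obtain ⟨w, hw⟩ := intermediate_value_univ x y (hτ.add (continuous_const (y := t₀))).abs
      (show δ ∈ Icc |τ x + t₀| |τ y + t₀| from ⟨by linarith, h1.le⟩)
    have h3 : |τ w + t₀| = δ := hw
    have := dich w h3.le
    linarith
  right
  have hq : Continuous fun x : S => φ (τ x) (f x) := h.cont.comp (hτ.prodMk f.continuous)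
  have hTx : Continuous fun x : S => T x (φ (τ x) (f x)) :=
    hTc.comp_continuous (continuous_id.prodMk hq) n1
  have hG : Continuous fun x : S => φ (T x (φ (τ x) (f x))) (φ (τ x) (f x)) := h.cont.comp (hTx.prodMk hq)
  have hX := contX h
  have h0 : ∀ x, X x ≠ 0 := fun x => norm_pos_iff.1 (h.m_pos.trans_le (h.low x))
  obtain ⟨u, n, l, hn, hF⟩ := exists_frame X (fun x : S => φ (T x (φ (τ x) (f x))) (φ (τ x) (f x))) hX hG
    h.perp h0 hfar 1 le_rfl (fun x => by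
      have h1 := hshort _ (φ (τ x) (f x)) ((n3 x).trans ha3)
      have h2 := n2 x
      have h3 := norm_sub_le_norm_sub_add_norm_sub (φ (T x (φ (τ x) (f x))) (φ (τ x) (f x)) : E)
        (φ (τ x) (f x) : E) (x : E)
      linarith) (fun x => by
      rw [inner_sub_left, (hT x _ (n1 x)).2, h.perp x, sub_zero])
  have hne : ∀ x : S, CrossAux.cr x (X x) (n x) ≠ 0 := fun x =>
    CrossAux.cr_ne (ne_zero_of_mem_unit_sphere x) (h0 x)
      (norm_ne_zero_iff.1 (by rw [(hF x).1.nn]; exact one_ne_zero)) (h.perp x) (hF x).1.xn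
      (hF x).1.wn
  have hcr : Continuous fun x : S => CrossAux.cr x (X x) (n x) :=
    CrossAux.continuous_cr continuous_subtype_val hX hn
  refine ⟨fun x => ‖CrossAux.cr x (X x) (n x)‖⁻¹ • CrossAux.cr x (X x) (n x), n,
    (hcr.norm.inv₀ fun x => norm_ne_zero_iff.2 (hne x)).smul hcr, hn, fun x =>
    ⟨?_, (hF x).1.nn, ?_, (hF x).1.xn, ?_, (hF x).1.wn, ?_⟩⟩
  · rw [norm_smul, norm_inv, norm_norm, inv_mul_cancel₀ (norm_ne_zero_iff.2 (hne x))]
  · rw [inner_smul_right, CrossAux.cr_a, mul_zero]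
  · rw [inner_smul_right, CrossAux.cr_b, mul_zero]
  · rw [real_inner_comm, inner_smul_right, CrossAux.cr_c, mul_zero]

end Pool.Agent.Lib.MP_399f8e_an.Ur.Uc
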