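import Pool.Agent.Lib.MP_399f8e_an.Uc.Pot
import Pool.Agent.Lib.MP_399f8e_an.Ur.Prim
import Pool.Agent.Lib.MP_399f8e_an.Ur.Pot
import Pool.Agent.Lib.MP_399f8e_an.Ur.Final

open Set Filter Topology Metric Complex
open scoped Real
open Pool.Agent.Lib.MP_399f8e_an.Rg

noncomputable section

namespace Pool.Agent.Lib.MP_399f8e_an.Ur.Uc

open AmapAux PtAux

variable {lam : ℝ} {Y : S → ℂ → S} {γ : S → S → ℂ → ℂ} {g g' : S → ℂ → ℂ}
  {ν : S → (ℂ → ℝ) → ℝ} {Z : S → Set ℂ}

namespace GlAux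

theorem exists_ref {g g' : ℂ → ℂ} {ν : (ℂ → ℝ) → ℝ} {Z : Set ℂ} (h : Good g g' ν Z 100000 (1 / 2)) :
    ∃ k, Tame Z 3 k 1 ∧ k 1 = g (k 0) := by
  obtain ⟨a, ha1, ha2⟩ := (h.cnt.dense_compl ℂ).inter_open_nonempty (ball 0 1) isOpen_ball
    ⟨0, mem_ball_self one_pos⟩
  have hn : ‖a‖ ≤ 1 := (mem_ball_zero_iff.1 ha1).le
  have hg : ‖g a‖ ≤ 2 := by linarith [norm_sub_norm_le (g a) a, h.near a]
  obtain ⟨β, h1, h2, h3⟩ := PotAux.tame_join h.cnt (r := 2) ha2
    (fun hh => ha2 ((h.Zg a (by linarith)).1 hh)) (by linarith) hg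
  refine ⟨β, h1.mono (by norm_num), by rw [h3, h2]⟩

theorem up (hA : Atlas lam Y γ g g' ν Z) {i j : S} (hd : dist i j ≤ 8000 * lam) (z : ℂ) :
    ‖γ i j z‖ ≤ ‖z‖ + 17000 := TameAux.up (hA.disp i j hd) z

theorem down (hA : Atlas lam Y γ g g' ν Z) {i j : S} (hd : dist i j ≤ 8000 * lam) (z : ℂ) :
    ‖z‖ - 17000 ≤ ‖γ i j z‖ := TameAux.down (hA.disp i j hd) z

theorem low (hA : Atlas lam Y γ g g' ν Z) {i j : S} (hd : dist i j ≤ 8000 * lam) {x y : ℂ}
    (hx : ‖x‖ ≤ 100000) (hy : ‖y‖ ≤ 100000) : 999 / 1000 * ‖x - y‖ ≤ ‖γ i j x - γ i j y‖ := by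
  have h1 := hA.near i j hd x (mem_closedBall_zero_iff.2 hx) y (mem_closedBall_zero_iff.2 hy)
  have h2 := norm_sub_norm_le (x - y) (γ i j x - γ i j y)
  rw [norm_sub_rev (x - y)] at h2
  linarith

theorem tw (hA : Atlas lam Y γ g g' ν Z) {i j : S} (hd : dist i j ≤ 8000 * lam) {P : ℝ → ℂ}
    {a b : ℝ} {z : ℂ} (hP : Off P a b z) (hb : ∀ t ∈ uIcc a b, ‖P t‖ ≤ 100000)
    (hz : ‖z‖ ≤ 100000) : |var (fun t => γ i j (P t)) a b (γ i j z) - var P a b z| ≤ π :=
  (hA.near i j hd).twOn (by norm_num) P a b z hP (fun t ht => mem_closedBall_zero_iff.2 (hb t ht))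
    (mem_closedBall_zero_iff.2 hz)

theorem tame_chg (hA : Atlas lam Y γ g g' ν Z) {i j : S} (hd : dist i j ≤ 8000 * lam) {r b : ℝ}
    {k : ℝ → ℂ} (hk : Tame (Z i) r k b) (hr : r ≤ 25000) :
    Tame (Z j) (r + 17000) (fun t => γ i j (k t)) b := by
  have hb : ∀ t ∈ Icc 0 b, ‖γ i j (k t)‖ ≤ r + 17000 := fun t ht => by
    linarith [up hA hd (k t), hk.bd t ht]
  have hc : Continuous fun t => γ i j (k t) := (hA.cont i j hd).comp hk.cont
  refine ⟨hc, hk.nn, hb, fun t ht h => hk.off t ht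
    ((hA.mem i j hd _ (by linarith [hk.bd t ht])).1 h), ?_⟩
  obtain ⟨C, hC⟩ := hk.bv
  refine ⟨|C| + π, fun z hz => ?_⟩
  have hd' : dist j i ≤ 8000 * lam := dist_comm i j ▸ hd
  rcases le_or_gt ‖z‖ 50000 with h | h
  · have h1 := up hA hd' z
    have h2 : γ j i z ∈ Z i := (hA.mem j i hd' z (by linarith)).2 hz
    have h3 : γ i j (γ j i z) = z := by
      rw [hA.coc j i j hd' hd (by rw [dist_self]; linarith [hA.lam_pos]) z (by linarith),
        hA.self j z (by linarith)]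
    have h4 := tw hA hd (hk.isOff h2)
      (fun t ht => by linarith [hk.bd t (uIcc_of_le hk.nn ▸ ht)]) (by linarith)
    rw [h3] at h4
    linarith [abs_sub_abs_le_abs_sub (var (fun t => γ i j (k t)) 0 b z) (var k 0 b (γ j i z)),
      hC _ h2, le_abs_self C]
  · have := (TameAux.far hc hk.nn hb (z := z) (by linarith)).2
    linarith [abs_nonneg C]

theorem bd_chg (hA : Atlas lam Y γ g g' ν Z) {i j : S} (hd : dist i j ≤ 8000 * lam) {w : ℂ → ℝ}
    (h : Bd (Z j) w) (h0 : ∀ z, 61000 ≤ ‖z‖ → w z = 0) : Bd (Z i) fun z => w (γ i j z) := by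
  obtain ⟨C, hC⟩ := h
  refine ⟨|C|, fun z hz => ?_⟩
  rcases le_total ‖z‖ 100000 with h | h
  · exact (hC _ ((hA.mem i j hd z h).2 hz)).trans (le_abs_self C)
  · beta_reduce
    rw [h0 _ (by linarith [down hA hd z]), abs_zero]
    exact abs_nonneg C

/-- the two angle functions differ by a bounded amount -/
theorem An_chg (hA : Atlas lam Y γ g g' ν Z) {i j : S} (hd : dist i j ≤ 8000 * lam) {a z : ℂ}
    (h : a ≠ z) (ha : ‖a‖ ≤ 30000) (hz : ‖z‖ ≤ 30000) :
    |An (g i) a z - An (g j) (γ i j a) (γ i j z)| ≤ 4 * π := by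
  have hG := hA.good i
  have hG' := hA.good j
  have hxs : ContinuousOn (fun s : ℝ => xs a z s) (uIcc (0 : ℝ) 1) := by
    have h1 : ContinuousOn (fun s : ℝ => (((a, z), s) : (ℂ × ℂ) × ℝ)) (uIcc (0 : ℝ) 1) := by
      fun_prop
    exact (xs_cont 30000).comp h1 fun s hs => ⟨⟨h, ha, hz⟩, hs⟩
  have hb : ∀ s ∈ uIcc (0 : ℝ) 1, ‖xs a z s‖ ≤ 30003 := fun s hs => by
    linarith [norm_xs_le h hs]
  have o1 : Off (fun s : ℝ => xs a z s) 0 1 z := ⟨hxs, fun s hs => xs_ne h hs⟩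
  have o2 : Off (fun s : ℝ => g i (xs a z s)) 0 1 (g i z) :=
    ⟨hG.cont.comp_continuousOn hxs, fun s hs (e : g i (xs a z s) = g i z) => xs_ne h hs (by
      rw [← hG.inv _ ((hb s hs).trans (by norm_num)), e, hG.inv z (by linarith)])⟩
  have o3 := (hA.near i j hd).off (by norm_num) o1
    (fun t ht => mem_closedBall_zero_iff.2 ((hb t ht).trans (by norm_num)))
    (mem_closedBall_zero_iff.2 (by linarith))
  have v1 := var_map (isA_An hG) hG.cont o1 (fun t ht => (hb t ht).trans (by norm_num))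
    (by linarith)
  have v2 := var_map (isA_An hG') hG'.cont o3
    (fun t ht => by linarith [up hA hd (xs a z t), hb t ht]) (by linarith [up hA hd z])
  have t1 := abs_le.1 (tw hA hd o1 (fun t ht => (hb t ht).trans (by norm_num)) (by linarith))
  have t2 := abs_le.1 (tw hA hd o2 (fun t ht => by linarith [TameAux.up hG.near (xs a z t), hb t ht])
    (by linarith [TameAux.up hG.near z]))
  have e : var (fun t => g j (γ i j (xs a z t))) 0 1 (g j (γ i j z)) =
      var (fun t => γ i j (g i (xs a z t))) 0 1 (γ i j (g i z)) := by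
    rw [hA.comm i j hd z (by linarith)]
    exact var_congr (fun t ht => (hA.comm i j hd _ ((hb t ht).trans (by norm_num))).symm) _
  have n1 : 3 ≤ ‖xs a z 1 - z‖ := by
    rw [norm_xs_sub h zero_le_one]
    linarith [norm_nonneg (a - z)]
  have s1 := abs_le.1 (An_le hG (x := xs a z 1) (y := z) (by linarith))
  have s2 := abs_le.1 (An_le hG' (x := γ i j (xs a z 1)) (y := γ i j z) (by
    linarith [low hA hd ((hb 1 one_mem).trans (by norm_num)) (show ‖z‖ ≤ 100000 by linarith)]))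
  simp only [xs_zero] at v1 v2
  rw [e] at v2
  exact abs_le.2 ⟨by linarith [t1.1, t1.2, t2.1, t2.2, s1.1, s1.2, s2.1, s2.2],
    by linarith [t1.1, t1.2, t2.1, t2.2, s1.1, s1.2, s2.1, s2.2]⟩

/-- the difference of the integrands of two charts -/
def D (γ : S → S → ℂ → ℂ) (g : S → ℂ → ℂ) (i j : S) (k : ℝ → ℂ) (l : ℝ) (z : ℂ) : ℝ :=
  En (g i) (An (g i) (k 0)) k l z -
    En (g j) (An (g j) (γ i j (k 0))) (fun t => γ i j (k t)) l (γ i j z)

theorem D_far (hA : Atlas lam Y γ g g' ν Z) {i j : S} (hd : dist i j ≤ 8000 * lam) (k : ℝ → ℂ)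
    (l : ℝ) {z : ℂ} (hz : 61000 ≤ ‖z‖) : D γ g i j k l z = 0 := by
  rw [D, En_far (hA.good i) _ _ _ (by linarith),
    En_far (hA.good j) _ _ _ (by linarith [down hA hd z]), sub_self]

/-- comparison with the clipped integrands -/
theorem D_eq (i j : S) (k : ℝ → ℂ) (l M : ℝ) (z : ℂ) :
    En (g i) (fun y => clip M (An (g i) (k 0) y)) k l z -
      En (g j) (fun y => clip M (An (g j) (γ i j (k 0)) y)) (fun t => γ i j (k t)) l (γ i j z) =
    D γ g i j k l z + (chi (g i z) * (An (g i) (k 0) z - clip M (An (g i) (k 0) z)) -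
      chi (g j (γ i j z)) * (An (g j) (γ i j (k 0)) (γ i j z) -
        clip M (An (g j) (γ i j (k 0)) (γ i j z)))) := by
  unfold D En
  ring

theorem err_near (hA : Atlas lam Y γ g g' ν Z) {i j : S} (hd : dist i j ≤ 8000 * lam) {a z : ℂ}
    {M : ℝ} (hM : 0 ≤ M) (h : a ≠ z) (ha : ‖a‖ ≤ 21000) (hz : ‖a - z‖ ≤ 3) :
    |chi (g i z) * (An (g i) a z - clip M (An (g i) a z)) - chi (g j (γ i j z)) *
      (An (g j) (γ i j a) (γ i j z) - clip M (An (g j) (γ i j a) (γ i j z)))| ≤ 4 * π := by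
  have h1 : ‖z‖ ≤ 21003 := by linarith [norm_sub_norm_le z a, norm_sub_rev z a]
  rw [chi_one (by linarith [TameAux.up (hA.good i).near z]),
    chi_one (by linarith [TameAux.up (hA.good j).near (γ i j z), up hA hd z]), one_mul, one_mul]
  exact (clip_lip hM _ _).trans (An_chg hA hd h (by linarith) (by linarith))

theorem clip_bd (hA : Atlas lam Y γ g g' ν Z) {i j : S} (hd : dist i j ≤ 8000 * lam) {k : ℝ → ℂ}
    {l M : ℝ} (hM : 0 ≤ M) (hk : Tame (Z i) 21001 k l) :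
    Bd (Z i) (En (g i) (fun y => clip M (An (g i) (k 0) y)) k l) ∧
    Bd (Z j) (En (g j) (fun y => clip M (An (g j) (γ i j (k 0)) y)) (fun t => γ i j (k t)) l) := by
  obtain ⟨C, hC⟩ := hk.bv
  obtain ⟨C', hC'⟩ := (tame_chg hA hd hk (by norm_num)).bv
  exact ⟨⟨_, En_clip_le hM hC⟩, ⟨_, En_clip_le (k := fun t => γ i j (k t)) hM hC'⟩⟩

theorem D_bd (hA : Atlas lam Y γ g g' ν Z) {i j : S} (hd : dist i j ≤ 8000 * lam) {k : ℝ → ℂ}
    {l : ℝ} (hk : Tame (Z i) 21000 k l) : Bd (Z i) (D γ g i j k l) := by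
  have hπ := Real.pi_pos
  have k0 : (0 : ℝ) ∈ Icc 0 l := left_mem_Icc.2 hk.nn
  obtain ⟨h1, h2⟩ := clip_bd hA hd hπ.le (hk.mono (by norm_num))
  obtain ⟨C, hC⟩ := bd_sub h1 (bd_chg hA hd h2 fun z hz => En_far (hA.good j) _ _ _ (by linarith))
  refine ⟨C + 4 * π, fun z hz => ?_⟩
  have h3 := abs_le.1 (hC z hz)
  beta_reduce at h3
  rw [D_eq] at h3
  rcases le_or_gt ‖k 0 - z‖ 3 with h | h
  · have h4 := abs_le.1 (err_near hA hd hπ.le (fun e : k 0 = z => hk.off 0 k0 (e ▸ hz)) (hk.bd 0 k0) h)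
    exact abs_le.2 ⟨by linarith [h3.1, h4.2], by linarith [h3.2, h4.1]⟩
  · have h5 : 2 < ‖γ i j (k 0) - γ i j z‖ := by
      rcases le_total ‖z‖ 100000 with h6 | h6
      · linarith [low hA hd (show ‖k 0‖ ≤ 100000 by linarith [hk.bd 0 k0]) h6]
      · linarith [norm_sub_norm_le (γ i j z) (γ i j (k 0)), norm_sub_rev (γ i j z) (γ i j (k 0)),
          up hA hd (k 0), down hA hd z, hk.bd 0 k0]
    rw [clip_eq (An_le (hA.good i) (by linarith)), clip_eq (An_le (hA.good j) h5)] at h3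
    exact abs_le.2 ⟨by linarith [h3.1], by linarith [h3.2]⟩

theorem close (hA : Atlas lam Y γ g g' ν Z) {i j : S} (hd : dist i j ≤ 8000 * lam) {k : ℝ → ℂ}
    {l r : ℝ} (hk : Tame (Z i) r k l) (hr : r ≤ 25000) (e : k l = g i (k 0)) :
    γ i j (k l) = g j (γ i j (k 0)) := by
  rw [e, hA.comm i j hd _ ((hk.bd 0 ⟨le_rfl, hk.nn⟩).trans (by linarith))]

/-- the mean of the difference does not depend on the path -/
theorem D_indep (hA : Atlas lam Y γ g g' ν Z) {i j : S} (hd : dist i j ≤ 8000 * lam)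
    {k k' : ℝ → ℂ} {l l' : ℝ} (hk : Tame (Z i) 21000 k l) (hk' : Tame (Z i) 21000 k' l')
    (e : k l = g i (k 0)) (e' : k' l' = g i (k' 0)) :
    ν i (D γ g i j k l) = ν i (D γ g i j k' l') := by
  have hG := hA.good i
  have hG' := hA.good j
  have hπ := Real.pi_pos
  have k0 : (0 : ℝ) ∈ Icc 0 l := left_mem_Icc.2 hk.nn
  have k0' : (0 : ℝ) ∈ Icc 0 l' := left_mem_Icc.2 hk'.nn
  obtain ⟨β, hβ, b2, b3⟩ := PotAux.tame_join hG.cnt (hk.off 0 k0) (hk'.off 0 k0') (hk.bd 0 k0)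
    (hk'.bd 0 k0')
  have c1 := tame_chg hA hd hk (by norm_num)
  have c2 := tame_chg hA hd hk' (by norm_num)
  have c3 := tame_chg hA hd hβ (by norm_num)
  have e1 := close hA hd hk (by norm_num) e
  have e2 := close hA hd hk' (by norm_num) e'
  have gb : ∀ t ∈ Icc (0 : ℝ) 1, ‖g i (β t)‖ ≤ 21002 := fun t ht => by
    linarith [TameAux.up hG.near (β t), hβ.bd t ht]
  have h5 : ∀ y, var (fun t => g j (γ i j (β t))) 0 1 y = var (fun t => γ i j (g i (β t))) 0 1 y :=
    var_congr fun t ht => (hA.comm i j hd _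
      (by linarith [hβ.bd t (uIcc_of_le hβ.nn ▸ ht)])).symm
  set u : ℂ → ℝ := fun z => chi z * var (fun t => g i (β t)) 0 1 z -
    chi (γ i j z) * var (fun t => g j (γ i j (β t))) 0 1 (γ i j z) with hu
  have u0 : ∀ z, 60000 ≤ ‖z‖ → u z = 0 := fun z hz => by
    rw [hu]
    beta_reduce
    rw [chi_zero (by linarith), chi_zero (by linarith [down hA hd z])]
    ring
  have ub : Bd (Z i) u := ⟨3 * π, fun z hz => by
    rcases le_total 60000 ‖z‖ with h | h
    · rw [u0 z h, abs_zero]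
      positivity
    have t1 := tw hA hd (hG.off_map hβ (by norm_num) hz)
      (fun t ht => (gb t (uIcc_of_le hβ.nn ▸ ht)).trans (by norm_num)) (by linarith)
    rw [hu]
    beta_reduce
    rw [h5]
    rcases le_or_gt ‖z‖ 24000 with h1 | h1
    · rw [chi_one (by linarith), chi_one (by linarith [up hA hd z]), one_mul, one_mul, abs_sub_comm]
      linarith
    · have t2 := (TameAux.far (k := fun t => g i (β t)) (hG.cont.comp hβ.cont) hβ.nn gb (z := z)
        (by linarith)).2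
      have t3 := abs_sub_abs_le_abs_sub (var (fun t => γ i j (g i (β t))) 0 1 (γ i j z))
        (var (fun t => g i (β t)) 0 1 z)
      refine (abs_sub _ _).trans ?_
      linarith [chi_mul_le z (var (fun t => g i (β t)) 0 1 z),
        chi_mul_le (γ i j z) (var (fun t => γ i j (g i (β t))) 0 1 (γ i j z))]⟩
  have ug := bd_map hG ub fun z hz => u0 z (by linarith)
  have h1 := hG.nu_congr (w' := fun z => D γ g i j k' l' z + u (g i z))
    (bd_add (D_bd hA hd hk) ub) fun z hz => by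
      rcases le_total 62000 ‖z‖ with h | h
      · rw [D_far hA hd _ _ (by linarith), D_far hA hd _ _ (by linarith), u0 z (by linarith),
          u0 _ (by linarith [TameAux.down hG.near z])]
      have d1 := En_diff hG (hk.mono (by norm_num)) (hk'.mono (by norm_num))
        (hβ.mono (by norm_num)) e e' b2 b3 hz
      have d2 := En_diff hG' (c1.mono (by norm_num)) (c2.mono (by norm_num))
        (c3.mono (by norm_num)) e1 e2 (by rw [b2]) (by rw [b3])
        ((hA.mem i j hd z (by linarith)).2 hz)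
      have key : ∀ {b : ℝ} {P : ℝ → ℂ}, Off P 0 b z → (∀ t ∈ uIcc 0 b, ‖P t‖ ≤ 100000) →
          var (fun t => γ i j (P t)) 0 b (γ i j z) = var P 0 b z +
            arg ((γ i j (P b) - γ i j z) / (P b - z)) - arg ((γ i j (P 0) - γ i j z) / (P 0 - z)) :=
        fun hP hr => (hA.near i j hd).var_eq (by norm_num) hP
          (fun t ht => mem_closedBall_zero_iff.2 (hr t ht)) (mem_closedBall_zero_iff.2 (by linarith))
      have w1 := key (hk.isOff hz) fun t ht => by linarith [hk.bd t (uIcc_of_le hk.nn ▸ ht)]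
      have w2 := key (hk'.isOff hz) fun t ht => by linarith [hk'.bd t (uIcc_of_le hk'.nn ▸ ht)]
      have w3 := key (hβ.isOff hz) fun t ht => by linarith [hβ.bd t (uIcc_of_le hβ.nn ▸ ht)]
      have w4 := key (hG.off_map hβ (by norm_num) hz)
        fun t ht => (gb t (uIcc_of_le hβ.nn ▸ ht)).trans (by norm_num)
      have w5 : Wn (g j) (fun t => γ i j (k t)) l (fun t => γ i j (k' t)) l' (fun t => γ i j (β t)) 1
          (γ i j z) = Wn (g i) k l k' l' β 1 z := by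
        beta_reduce at w4
        unfold Wn
        rw [h5, w4, w1, w2, w3, b2, b3, ← e, ← e']
        ring
      rw [w5] at d2
      simp only [hu, D]
      rw [hA.comm i j hd z (by linarith)]
      linarith
  rw [hG.add _ _ (D_bd hA hd hk) ub, hG.add _ _ (D_bd hA hd hk') ug,
    hG.invν u ub fun z hz => u0 z (by linarith)] at h1
  linarith

theorem D_coc (hA : Atlas lam Y γ g g' ν Z) {p q s : S} (h1 : dist p q ≤ 8000 * lam)
    (h2 : dist q s ≤ 8000 * lam) (h3 : dist p s ≤ 8000 * lam) {k : ℝ → ℂ} {l : ℝ}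
    (hk : Tame (Z p) 3 k l) :
    ν p (D γ g p q k l) + ν q (D γ g q s (fun t => γ p q (k t)) l) = ν p (D γ g p s k l) := by
  have t1 := D_bd hA h2 ((tame_chg hA h1 hk (by norm_num)).mono (by norm_num))
  have t2 := D_bd hA h1 (hk.mono (by norm_num))
  have t3 := bd_chg hA h1 t1 fun z hz => D_far hA h2 _ _ hz
  rw [← hA.mean p q h1 _ t1 fun z hz => D_far hA h2 _ _ hz, ← (hA.good p).add _ _ t2 t3]
  refine (hA.good p).nu_congr (bd_add t2 t3) fun z _ => ?_
  rcases le_total ‖z‖ 100000 with h | h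
  · have e : ∀ t ∈ Icc 0 l, γ q s (γ p q (k t)) = γ p s (k t) := fun t ht =>
      hA.coc p q s h1 h2 h3 _ ((hk.bd t ht).trans (by norm_num))
    simp only [D]
    rw [En_congr (k := fun t => γ p s (k t)) (k' := fun t => γ q s (γ p q (k t))) hk.nn e,
      e 0 (left_mem_Icc.2 hk.nn), hA.coc p q s h1 h2 h3 z h]
    ring
  · rw [D_far hA h1 _ _ (by linarith), D_far hA h2 _ _ (by linarith [down hA h1 z]),
      D_far hA h3 _ _ (by linarith), add_zero]

end GlAux

open GlAux in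
theorem exists_global (hA : Atlas lam Y γ g g' ν Z) (F : Finset S) {B θ : ℝ} (hB : 0 ≤ B)
    (hθ : 0 < θ) : ∃ P : S → (ℝ → ℂ) → ℝ → ℝ,
    (∀ i ∈ F, Step (g i) (ν i) (Z i) (P i) 40000 B θ ∧ Bnd (Z i) (P i) 40000) ∧
    ∀ i ∈ F, ∀ j ∈ F, dist i j ≤ 4000 * lam →
      ∀ (k k₂ : ℝ → ℂ) (l : ℝ), Tame (Z i) 20000 k l → k l = g i (k 0) → Continuous k₂ →
        (∀ t ∈ Icc 0 l, k₂ t = γ i j (k t)) → P i k l - θ ≤ P j k₂ l := by
  have hl := hA.lam_pos
  have hπ := Real.pi_pos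
  choose ref href hlast using fun i => GlAux.exists_ref (hA.good i)
  obtain ⟨H, hH⟩ := prim (fun i j => ν i (D γ g i j (ref i) 1)) (8000 * lam) (by positivity)
    hA.lam_le fun p q s h1 h2 h3 => by
      rw [← D_coc hA h1 h2 h3 (href p), D_indep hA h2 ((href q).mono (by norm_num))
        ((GlAux.tame_chg hA h1 (href p) (by norm_num)).mono (by norm_num)) (hlast q)
        (close hA h1 (href p) (by norm_num) (hlast p))]
  obtain ⟨θ', hθ', t1, t2⟩ : ∃ θ' : ℝ, 0 < θ' ∧ 4 * B * θ' ≤ θ ∧ 4 * π * θ' ≤ θ := by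
    have e : 4 * (B + π) * (θ / (4 * (B + π))) = θ := by field_simp
    have h0 : 0 < θ / (4 * (B + π)) := by positivity
    exact ⟨θ / (4 * (B + π)), h0, by nlinarith, by nlinarith⟩
  choose ρ hρ hs using fun i => hA.small i θ' hθ'
  obtain ⟨r₀, hr₀, hrρ⟩ := FinalAux.exists_min F ρ hρ
  obtain ⟨r, hr, hr1, hr2⟩ : ∃ r : ℝ, 0 < r ∧ r ≤ r₀ ∧ r ≤ 1 :=
    ⟨min r₀ 1, lt_min hr₀ one_pos, min_le_left _ _, min_le_right _ _⟩
  have sm : ∀ i ∈ F, ∀ x, ν i (ind x r) ≤ θ' := fun i hi x =>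
    ((hA.good i).mono _ _ (ind_bd _ _) (ind_bd _ _) fun z _ => indicator_le_indicator_of_subset
      (ball_subset_ball (hr1.trans (hrρ i hi))) (fun _ => zero_le_one) z).trans (hs i x)
  choose M₁ hM₁ using fun i => exists_level (hA.good i) (half_pos hr)
  obtain ⟨M₀, hM₀⟩ := FinalAux.exists_max F M₁
  have hM : ∀ i ∈ F, ∀ x y : ℂ, ‖x‖ ≤ 99000 → ‖y‖ ≤ 99000 → r / 2 ≤ ‖x - y‖ →
      |An (g i) x y| ≤ |M₀| := fun i hi x y h1 h2 h3 =>
    (hM₁ i x y h1 h2 h3).trans ((hM₀ i hi).trans (le_abs_self _))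
  refine ⟨fun i k l => -H i - ν i (En (g i) (fun y => clip |M₀| (An (g i) (k 0) y)) k l),
    fun i hi => ⟨fun k l k' l' β b a1 a2 a3 a4 a5 a6 a7 a8 a9 => ?_,
      pot_bnd (hA.good i) (abs_nonneg _) _⟩, fun i hi j hj hd k k₂ l hk e hc he => ?_⟩
  · have := pot_step (hA.good i) (abs_nonneg M₀) hB
      (fun x y h1 h2 h3 => hM i hi x y h1 h2 (by linarith)) (sm i hi) (-H i)
      k l k' l' β b a1 a2 a3 a4 a5 a6 a7 a8 a9
    beta_reduce at this ⊢
    linarith
  have hd' : dist i j ≤ 8000 * lam := by linarith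
  have k0 : (0 : ℝ) ∈ Icc 0 l := left_mem_Icc.2 hk.nn
  have hG := hA.good i
  obtain ⟨b1, b2⟩ := clip_bd hA hd' (abs_nonneg M₀) (hk.mono (by norm_num))
  have f2 := fun z (hz : 61000 ≤ ‖z‖) => En_far (hA.good j)
    (fun y => clip |M₀| (An (g j) (γ i j (k 0)) y)) (fun t => γ i j (k t)) l (z := z) (by linarith)
  have b3 := bd_chg hA hd' b2 f2
  have b4 := D_bd hA hd' (hk.mono (by norm_num))
  have b5 : Bd (Z i) fun z => 4 * π * ind (k 0) r z := bd_mul _ (ind_bd _ _)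
  have key := hG.mono _ _ (bd_add b4 b3) (bd_add b1 b5) fun z hz => by
    have h1 := D_eq (γ := γ) (g := g) i j k l |M₀| z
    have i1 := ind_nn (k 0) r z
    rcases lt_or_ge ‖k 0 - z‖ r with h | h
    · have h2 := abs_le.1 (err_near hA hd' (abs_nonneg M₀) (fun e : k 0 = z => hk.off 0 k0 (e ▸ hz))
        (by linarith [hk.bd 0 k0]) (show ‖k 0 - z‖ ≤ 3 by linarith))
      have h3 : ind (k 0) r z = 1 :=
        indicator_of_mem (mem_ball_iff_norm.2 (by rwa [norm_sub_rev])) _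
      rw [h3]
      linarith [h2.1]
    have h4 : 0 ≤ 4 * π * ind (k 0) r z := by positivity
    rcases le_total ‖z‖ 61000 with h2 | h2
    · rw [clip_eq (hM i hi _ _ (by linarith [hk.bd 0 k0]) (by linarith) (by linarith)),
        clip_eq (hM j hj _ _ (by linarith [hk.bd 0 k0, up hA hd' (k 0)])
          (by linarith [up hA hd' z]) (by
            linarith [low hA hd' (show ‖k 0‖ ≤ 100000 by linarith [hk.bd 0 k0])
              (show ‖z‖ ≤ 100000 by linarith)]))] at h1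
      linarith
    · rw [chi_zero (by linarith [TameAux.down hG.near z]), chi_zero (z := g j (γ i j z))
        (by linarith [TameAux.down (hA.good j).near (γ i j z), down hA hd' z])] at h1
      linarith
  rw [hG.add _ _ b4 b3, hG.add _ _ b1 b5, hG.smul _ _ (ind_bd _ _), hA.mean i j hd' _ b2 f2,
    D_indep hA hd' (hk.mono (by norm_num)) ((href i).mono (by norm_num)) e (hlast i)] at key
  have h1 := hH i j (by linarith)
  have h2 := mul_le_mul_of_nonneg_left (sm i hi (k 0)) (show 0 ≤ 4 * π by positivity)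
  have h3 : En (g j) (fun y => clip |M₀| (An (g j) (k₂ 0) y)) k₂ l =
      En (g j) (fun y => clip |M₀| (An (g j) (γ i j (k 0)) y)) (fun t => γ i j (k t)) l := by
    rw [he 0 k0]
    exact funext fun z => En_congr (k := fun t => γ i j (k t)) hk.nn he z
  beta_reduce at h1 ⊢
  rw [h3]
  linarith


end Pool.Agent.Lib.MP_399f8e_an.Ur.Uc
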