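import Pool.Agent.Lib.MP_399f8e_an.Uc.Atl
import Pool.Agent.Lib.MP_399f8e_an.Uc.Final
import Pool.Agent.Lib.MP_399f8e_an.Uc.Frame
import Pool.Agent.Lib.MP_399f8e_an.Ur.BoxEx

open Set Filter Topology Metric Complex
open scoped Real
open Pool.Agent.Lib.MP_399f8e_an.Rg

noncomputable section

namespace Pool.Agent.Lib.MP_399f8e_an.Ur.Uc

variable {φ : ℝ → S → S} {X : S → E} {m M L : ℝ}

theorem main (hφ : FD φ X m M L) (aper : ∀ x t, φ t x = x → t = 0)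
    (hmin : ∀ x, Dense (range fun t : ℝ => φ t x)) (ε : ℝ) (hε : 0 < ε) :
    ∃ η : ℝ, 0 < η ∧ ∀ (h : S ≃ₜ S) (τ : S → ℝ), (∀ t x, h (φ t x) = φ t (h x)) → Continuous τ →
      (∀ x, ‖(φ (τ x) (h x) : E) - x‖ ≤ η) →
        ∃ t₀ : ℝ, (∀ x, h x = φ t₀ x) ∧ ∀ x, |τ x + t₀| ≤ ε := by
  by_contra hcon
  have bad : ∀ η : ℝ, 0 < η → ∃ (h : S ≃ₜ S) (τ : S → ℝ), (∀ t x, h (φ t x) = φ t (h x)) ∧
      Continuous τ ∧ (∀ x, ‖(φ (τ x) (h x) : E) - x‖ ≤ η) ∧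
        ¬ ∃ t₀ : ℝ, (∀ x, h x = φ t₀ x) ∧ ∀ x, |τ x + t₀| ≤ ε := by
    intro η hη
    by_contra hn
    refine hcon ⟨η, hη, fun h τ h1 h2 h3 => ?_⟩
    by_contra hx
    exact hn ⟨h, τ, h1, h2, h3, hx⟩
  obtain ⟨η₀, hη₀, H₀⟩ := exists_frame3 hφ hmin ε hε
  obtain ⟨h₀, τ₀, a1, a2, a3, a4⟩ := bad η₀ hη₀
  obtain ⟨u, n, hu, hn, hF⟩ := (H₀ h₀ τ₀ a1 a2 a3).resolve_left a4
  obtain ⟨lam, δ, Y, pr, T, hδ, hB⟩ := exists_box hφ hu hn hF ε hε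
  obtain ⟨η₁, hη₁, H₁⟩ := exists_rt hφ.toIsFl hmin hB
  obtain ⟨h, τ, b1, b2, b3, b4⟩ := bad η₁ hη₁
  rcases H₁ h τ b1 b2 b3 with ⟨t₀, c1, c2⟩ | hR
  · exact b4 ⟨t₀, c1, fun x => (c2 x).trans hδ⟩
  · obtain ⟨g', ν, hA⟩ := exists_atlas hφ.toIsFl aper hmin hB hR
    exact no_atlas hA

end Pool.Agent.Lib.MP_399f8e_an.Ur.Uc
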