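import Pool.Agent.Lib.MP_399f8e_an.Uc.Tame
import Pool.Agent.Lib.MP_399f8e_an.Ur.Move

open Set Filter Topology Metric Complex
open scoped Real
open Pool.Agent.Lib.MP_399f8e_an.Rg

noncomputable section

namespace Pool.Agent.Lib.MP_399f8e_an.Ur.Uc

namespace MvAux

theorem val_le {Z U V : Set ℂ} {W : ℂ → ℝ}
    (h : ∀ z ∈ Z, (z ∈ U ∧ W z = 2 * π) ∨ (z ∈ V ∧ W z = 0)) : ∀ z ∈ Z, |W z| ≤ 2 * π := by
  have hpi : 0 < 2 * π := by positivity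
  intro z hz
  rcases h z hz with ⟨-, e⟩ | ⟨-, e⟩
  · rw [e, abs_of_pos hpi]
  · rw [e, abs_zero]
    exact hpi.le

theorem nu_ge {g g' : ℂ → ℂ} {ν : (ℂ → ℝ) → ℝ} {Z : Set ℂ} {R b : ℝ} (hG : Good g g' ν Z R b)
    {W : ℂ → ℝ} {x : ℂ} {r : ℝ} {U V : Set ℂ} (hUV : ∀ z ∈ U, z ∉ V)
    (hx : ball x r ⊆ U) (h : ∀ z ∈ Z, (z ∈ U ∧ W z = 2 * π) ∨ (z ∈ V ∧ W z = 0)) :
    2 * π * ν (ind x r) ≤ ν W := by
  have hpi : 0 < 2 * π := by positivity
  have h1 : Bd Z (ind x r) := ⟨1, fun z _ => by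
    rw [abs_of_nonneg (MoveAux.ind_mem x r z).1]
    exact (MoveAux.ind_mem x r z).2⟩
  have h2 : Bd Z (fun z => 2 * π * ind x r z) := ⟨2 * π, fun z _ => by
    rw [abs_of_nonneg (mul_nonneg hpi.le (MoveAux.ind_mem x r z).1)]
    exact mul_le_of_le_one_right hpi.le (MoveAux.ind_mem x r z).2⟩
  rw [← hG.smul (2 * π) _ h1]
  refine hG.mono _ _ h2 ⟨_, val_le h⟩ fun z hz => ?_
  rcases h z hz with ⟨-, e⟩ | ⟨hV, e⟩
  · rw [e]
    exact mul_le_of_le_one_right hpi.le (MoveAux.ind_mem x r z).2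
  · have h3 : z ∉ ball x r := fun hb => hUV z (hx hb) hV
    rw [e, ind, indicator_of_notMem h3, mul_zero]

end MvAux

open MvAux MoveAux in
theorem move {g g' : ℂ → ℂ} {ν : (ℂ → ℝ) → ℝ} {Z : Set ℂ} {P : (ℝ → ℂ) → ℝ → ℝ} {C θ : ℝ}
    (hG : Good g g' ν Z 3000 1) (hS : Step g ν Z P 3000 (2 * π + 3 * C) θ) (hC : 0 ≤ C)
    {k σ : ℝ → ℂ} {l T s₀ s s₁ e γ : ℝ}
    {v d d₀ : ℂ} (hk : Arc g k l) (he : 0 < e) (hd : ‖d‖ = 1) (h₀ : 0 ≤ s₀) (h₁ : s₁ ≤ l)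
    (hout : Seg k s s₁ v d e) (hin : Seg k s₀ s (v - e * d₀) d₀ e) (hturn : d₀ = d ∨ d₀ = I * d)
    (hc : Continuous σ) (hT : 0 < T) (hi : InjOn σ (Icc 0 T))
    (hray : ∀ x ∈ Icc (0 : ℝ) e, σ x = v + x * (I * d))
    (hball : ∀ z ∈ k '' Icc 0 l ∪ σ '' Icc 0 T, ‖z‖ ≤ 2000 ∧ z ∉ Z)
    (hB : ∀ (Q : ℝ → ℂ) (b : ℝ), 0 ≤ b → Continuous Q → InjOn Q (Icc 0 b) →
      Q '' Icc 0 b ⊆ k '' Icc 0 l ∪ σ '' Icc 0 T → ∀ z ∈ Z, |var Q 0 b z| ≤ C)
    (hit : (∃ x ∈ Ioc 0 T, σ x ∈ k '' Icc 0 l) ∨ ∃ x ∈ Icc 0 T, ∃ y ∈ Icc 0 T, σ x = g (σ y))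
    (hγ : 0 < γ)
    (gk : ∀ p ∈ Icc 0 l, p ∉ Ioo s s₁ → γ ≤ ‖k p - (v + e / 2 * d)‖)
    (gk' : ∀ p ∈ Icc 0 l, p ∉ Ioo s₀ s → γ ≤ ‖k p - (v - e / 2 * d₀)‖)
    (gg : ∀ p ∈ Icc 0 l, γ ≤ ‖g (k p) - (v + e / 2 * d)‖ ∧ γ ≤ ‖g' (k p) - (v - e / 2 * d₀)‖)
    (gσ : ∀ x ∈ Icc 0 T, γ ≤ ‖σ x - (v + e / 2 * d)‖ ∧ γ ≤ ‖σ x - (v - e / 2 * d₀)‖)
    (hσ : ∀ x ∈ Icc 0 T, ∀ p ∈ Ioo s₀ s₁, σ x = k p → p = s)
    (gc : ∀ x ∈ Icc 0 T, ∀ y ∈ Ico 0 x, σ x = g (σ y) →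
      (∀ p ∈ Icc 0 y, g (σ p) ≠ v + e / 2 * d) → ∀ p ∈ Icc 0 y, γ ≤ ‖g (σ p) - (v + e / 2 * d)‖)
    (gc' : ∀ x ∈ Icc 0 T, ∀ y ∈ Ico 0 x, σ x = g' (σ y) →
      (∀ p ∈ Icc 0 y, g' (σ p) ≠ v - e / 2 * d₀) →
        ∀ p ∈ Icc 0 y, γ ≤ ‖g' (σ p) - (v - e / 2 * d₀)‖) :
    ∃ κ l', Arc g κ l' ∧ Shape g g' k l s σ T κ l' ∧
      (P k l + 2 * π * ν (ind (v + e / 2 * d + γ / 2 * (I * d)) (γ / 2)) - θ ≤ P κ l' ∨
        P k l + 2 * π * ν (ind (v - e / 2 * d₀ + γ / 2 * (I * d₀)) (γ / 2)) - θ ≤ P κ l') := by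
  have hTop : Top g g' (3000 - 5) := hG.top le_rfl
  have hl := hk.pos
  have hs : s ∈ Ioo 0 l := ⟨lt_of_le_of_lt h₀ hin.lt, lt_of_lt_of_le hout.lt h₁⟩
  have hd0 : d ≠ 0 := by
    intro h
    rw [h, norm_zero] at hd
    exact zero_ne_one hd
  have hd₀ : d₀ ≠ 0 := by
    rcases hturn with h | h
    · rwa [h]
    · rw [h]
      exact mul_ne_zero I_ne_zero hd0
  have kb : ∀ p ∈ Icc 0 l, ‖k p‖ ≤ 2000 ∧ k p ∉ Z := fun p hp => hball _ (Or.inl ⟨p, hp, rfl⟩)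
  have σb : ∀ x ∈ Icc 0 T, ‖σ x‖ ≤ 2000 ∧ σ x ∉ Z := fun x hx => hball _ (Or.inr ⟨x, hx, rfl⟩)
  obtain ⟨L, hL, hLk⟩ := exists_line (r := 2000) hTop hk (fun p hp => (kb p hp).1) (by norm_num)
  have hr : (2000 + 2 : ℝ) + 20 ≤ 3000 - 5 := by norm_num
  have hr0 : (2000 + 2 : ℝ) ≤ 3000 - 5 := by norm_num
  have outL := seg_congr hout hs.1.le h₁ hLk
  have inL := seg_congr hin h₀ hs.2.le hLk
  have hσ0 : σ 0 = L s := by
    rw [hray 0 ⟨le_rfl, he.le⟩, outL.fst]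
    simp
  have hmid : ∀ x ∈ Icc 0 T, ∀ p ∈ Ioo s₀ s₁, σ x = L p → p = s := fun x hx p hp e1 =>
    hσ x hx p hp (e1.trans (hLk p ⟨h₀.trans hp.1.le, hp.2.le.trans h₁⟩))
  have hloc : ∃ x₀ : ℝ, 0 < x₀ ∧ ∀ x ∈ Ioo 0 x₀, ∀ p ∈ Icc (-l) (2 * l), σ x ≠ L p := by
    have hC : IsClosed (L '' (Icc (-l) s₀ ∪ Icc s₁ (2 * l))) :=
      ((isCompact_Icc.union isCompact_Icc).image hL.cont).isClosed
    have h0 : (0 : ℝ) ∈ σ ⁻¹' (L '' (Icc (-l) s₀ ∪ Icc s₁ (2 * l)))ᶜ := by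
      rintro ⟨p, hp, e1⟩
      have h1 := hin.lt
      have h2 := hout.lt
      have hp' : p ∈ Icc (-l) (2 * l) ∧ p ≠ s := by
        rcases hp with hp | hp
        · exact ⟨⟨hp.1, by linarith [hp.2, hs.2]⟩, by linarith [hp.2] |> ne_of_lt⟩
        · exact ⟨⟨by linarith [hp.1, hs.1], hp.2⟩, by linarith [hp.1] |> ne_of_gt⟩
      refine hp'.2 (hL.inj2 p ⟨by linarith [hp'.1.1], by linarith [hp'.1.2]⟩ s
        ⟨by linarith [hs.1], by linarith [hs.2]⟩ ?_ (e1.trans hσ0))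
      rw [abs_le]
      exact ⟨by linarith [hp'.1.1, hs.2], by linarith [hp'.1.2, hs.1]⟩
    obtain ⟨x₀, hx₀, hb⟩ := Metric.isOpen_iff.mp (hC.isOpen_compl.preimage hc) 0 h0
    refine ⟨min x₀ T, lt_min hx₀ hT, fun x hx p hp e1 => ?_⟩
    have hxT : x ∈ Icc 0 T := ⟨hx.1.le, hx.2.le.trans (min_le_right _ _)⟩
    have hx' : x ∈ ball (0 : ℝ) x₀ := by
      rw [mem_ball_zero_iff, Real.norm_eq_abs, abs_of_pos hx.1]
      exact lt_of_lt_of_le hx.2 (min_le_left _ _)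
    rcases le_or_gt p s₀ with h1 | h1
    · exact hb hx' ⟨p, Or.inl ⟨hp.1, h1⟩, e1.symm⟩
    rcases le_or_gt s₁ p with h2 | h2
    · exact hb hx' ⟨p, Or.inr ⟨h2, hp.2⟩, e1.symm⟩
    have h3 := hmid x hxT p ⟨h1, h2⟩ e1
    rw [h3, ← hσ0] at e1
    exact hx.1.ne' (hi hxT ⟨le_rfl, hT.le⟩ e1)
  obtain ⟨u, hu, hF, hcase⟩ := exists_fst hTop hL hr0 hs hc hT hσ0 hi
    (fun x hx => (σb x hx).1.trans (by norm_num)) hloc (hit.imp
      (fun ⟨x, hx, p, hp, e1⟩ => ⟨x, hx, p, ⟨by linarith [hp.1], by linarith [hp.2]⟩,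
        e1.symm.trans (hLk p hp).symm⟩) id)
  have huT : Icc 0 u ⊆ Icc 0 T := Icc_subset_Icc le_rfl hu.2
  have huu : u ∈ Icc 0 T := ⟨hu.1.le, hu.2⟩
  have tame : ∀ (Q : ℝ → ℂ) (b : ℝ), 0 ≤ b → Continuous Q → InjOn Q (Icc 0 b) →
      Q '' Icc 0 b ⊆ k '' Icc 0 l ∪ σ '' Icc 0 T → Tame Z 2000 Q b := fun Q b h1 h2 h3 h4 =>
    ⟨h2, h1, fun t ht => (hball _ (h4 ⟨t, ht, rfl⟩)).1, fun t ht => (hball _ (h4 ⟨t, ht, rfl⟩)).2,
      C, hB Q b h1 h2 h3 h4⟩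
  have tk : Tame Z 2000 k l := tame k l hl.le hk.cont hk.inj subset_union_left
  have bk := hB k l hl.le hk.cont hk.inj subset_union_left
  have hpi := Real.pi_pos
  have vk : ∀ z, var L 0 l z = var k 0 l z := fun z =>
    var_congr (fun p hp => hLk p (by rwa [uIcc_of_le hl.le] at hp)) z
  have subd : L '' Icc 0 l ∪ σ '' Icc 0 u ⊆ k '' Icc 0 l ∪ σ '' Icc 0 T := by
    rintro z (⟨p, hp, rfl⟩ | ⟨x, hx, rfl⟩)
    · exact Or.inl ⟨p, hp, (hLk p hp).symm⟩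
    · exact Or.inr ⟨x, huT hx, rfl⟩
  have Lup : ∀ p ∈ Icc l (2 * l), L p = g (k (p - l)) := fun p hp => by
    rw [per' hL ⟨by linarith [hp.1], by linarith [hp.2]⟩,
      hLk _ ⟨by linarith [hp.1], by linarith [hp.2]⟩]
  have Ldn : ∀ p ∈ Icc (-l) 0, L p = g' (k (p + l)) := fun p hp => by
    rw [per_inv hTop hL hr0 ⟨by linarith [hp.1], by linarith [hp.2]⟩,
      hLk _ ⟨by linarith [hp.1], by linarith [hp.2]⟩]
  have zσ : ∀ z ∈ Z, z ∉ σ '' Icc 0 u := by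
    rintro z hz ⟨x, hx, rfl⟩
    exact (σb x (huT hx)).2 hz
  have direct : (∃ κ l' β b J U V K w rest c, Res g L l s s₁ σ u κ l' β b J U V K w rest c) →
      ∃ κ l', Arc g κ l' ∧ Shape g g' k l s σ T κ l' ∧
        P k l + 2 * π * ν (ind (v + e / 2 * d + γ / 2 * (I * d)) (γ / 2)) - θ ≤ P κ l' := by
    rintro ⟨κ, l', β, b, J, U, V, K, w, rest, c, h⟩
    have hKγ := kgap (γ := γ) hTop hL hF hr h he hd0 h₁ outL rfl (fun p hp => by
      rcases le_total p l with h1 | h1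
      · have h2 : p ∈ Icc 0 l := ⟨by linarith [hp.1, hs.1, hout.lt], h1⟩
        rw [hLk p h2]
        exact gk p h2 fun h3 => absurd h3.2 (not_lt.mpr hp.1)
      · rw [Lup p ⟨h1, by linarith [hp.2, hs.2]⟩]
        exact (gg _ ⟨by linarith, by linarith [hp.2, hs.2]⟩).1)
      (fun x hx => (gσ x (huT hx)).1) (gc u huu)
    obtain ⟨hc2, hU⟩ := gain_dir hTop hL hF hr h he hd h₀ h₁ outL inL hturn hray hγ hKγ
    have tκ := tame κ l' h.arc.pos.le h.arc.cont h.arc.inj ((kappa_sub hs h).trans subd)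
    have tβ := tame β b h.bnn h.bcont h.binj (h.bim.trans subd)
    refine ⟨κ, l', h.arc, ?_, ?_⟩
    · rcases h.shape with h1 | ⟨t, ht, e1, h1⟩
      · exact ⟨s, ⟨hs.1.le, le_rfl⟩, s, ⟨le_rfl, hs.2.le⟩,
          h1.trans ((image_mono huT).trans subset_union_right), Or.inr ⟨Or.inl rfl, Or.inl rfl⟩⟩
      rcases le_or_gt t l with h2 | h2
      · have h3 : t ∈ Icc 0 l := ⟨by linarith [ht.1, hs.1], h2⟩
        exact ⟨0, ⟨le_rfl, hs.1.le⟩, l, ⟨hs.2.le, le_rfl⟩, (kappa_sub hs h).trans subd,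
          Or.inl ⟨u, hu, t, h3, (e1.trans (hLk t h3)).symm⟩⟩
      · refine ⟨t - l, ⟨by linarith, by linarith [ht.2]⟩, s, ⟨le_rfl, hs.2.le⟩, fun z hz => ?_,
          Or.inr ⟨Or.inr ⟨u, huu, e1.trans (Lup t ⟨h2.le, by linarith [ht.2, hs.2]⟩)⟩,
            Or.inl rfl⟩⟩
        rcases h1 hz with (⟨p, hp, rfl⟩ | ⟨x, hx, rfl⟩) | ⟨p, hp, rfl⟩
        · exact Or.inl ⟨p, ⟨(le_max_right _ _).trans hp.1, hp.2⟩,
            (hLk p ⟨(le_max_left _ _).trans hp.1, hp.2.trans hs.2.le⟩).symm⟩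
        · exact Or.inr ⟨x, huT hx, rfl⟩
        · exact absurd (hp.1.trans hp.2) (not_le.mpr h2)
    · suffices hW : ∀ z ∈ Z, (z ∈ U ∧ Wn g k l κ l' β b z = 2 * π) ∨
          (z ∈ V ∧ Wn g k l κ l' β b z = 0) by
        have bκ := hB κ l' h.arc.pos.le h.arc.cont h.arc.inj ((kappa_sub hs h).trans subd)
        have bβ := hB β b h.bnn h.bcont h.binj (h.bim.trans subd)
        have h1 := hS k l κ l' β b (tk.mono (by norm_num)) (tκ.mono (by norm_num))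
          (tβ.mono (by norm_num)) hk.last h.arc.last (h.b0.trans (hLk 0 ⟨le_rfl, hl.le⟩)) h.b1
          (fun z hz => (bβ z hz).trans (by linarith)) fun z hz => by
            have a0 := abs_le.1 (val_le hW z hz)
            have a1 := abs_le.1 (bk z hz)
            have a2 := abs_le.1 (bκ z hz)
            have a3 := abs_le.1 (bβ z hz)
            rw [Wn] at a0
            exact abs_le.2 ⟨by linarith [a0.1, a1.2, a2.1, a3.1], by linarith [a0.2, a1.1, a2.2, a3.2]⟩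
        linarith [MvAux.nu_ge hG h.jor.dUV hU hW]
      intro z hz
      have e1 : Wn g k l κ l' β b z = Wn g L l κ l' β b z := by rw [Wn, Wn, vk]
      rw [e1, ← hc2]
      refine wn_val hs h₁ hout.lt h ?_ (zσ z hz) ?_
      · rintro ⟨p, hp, rfl⟩
        rcases le_total p l with h1 | h1
        · rw [hLk p ⟨hp.1, h1⟩] at hz
          exact (kb p ⟨hp.1, h1⟩).2 hz
        · have h2 := kb (p - l) ⟨by linarith, by linarith [hp.2]⟩
          rw [Lup p ⟨h1, hp.2⟩, hG.Zg _ (h2.1.trans (by norm_num))] at hz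
          exact h2.2 hz
      · rintro ⟨_, ⟨x, hx, rfl⟩, rfl⟩
        have h2 := σb x (huT hx)
        rw [hG.Zg _ (h2.1.trans (by norm_num))] at hz
        exact h2.2 hz
  have hLm := hL.mirror hTop hr0
  have hFm := hF.mirror hTop hr0
  have outM : Seg (fun t => L (l - t)) (l - s) (l - s₀) v (-d₀) e := seg_mirror inL (by ring)
  have inM : Seg (fun t => L (l - t)) (l - s₁) (l - s) (v + e * d) (-d) e := seg_mirror outL rfl
  have h₁m : l - s₀ ≤ l := by linarith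
  have mirror : (∃ κ l' β b J U V K w rest c,
      Res g' (fun t => L (l - t)) l (l - s) (l - s₀) σ u κ l' β b J U V K w rest c) →
      ∃ κ l', Arc g κ l' ∧ Shape g g' k l s σ T κ l' ∧
        P k l + 2 * π * ν (ind (v - e / 2 * d₀ + γ / 2 * (I * d₀)) (γ / 2)) - θ ≤ P κ l' := by
    rintro ⟨κ, l', β, b, J, U, V, K, w, rest, c, h⟩
    have hKγ := kgap (γ := γ) (m := v - e / 2 * d₀) hTop.symm hLm hFm hr h he (neg_ne_zero.mpr hd₀)
      h₁m outM (by ring) (fun p hp => by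
        rcases le_total 0 (l - p) with h1 | h1
        · have h2 : l - p ∈ Icc 0 l := ⟨h1, by linarith [hp.1, hin.lt, hs.2]⟩
          rw [hLk _ h2]
          exact gk' _ h2 fun h3 => by linarith [h3.1, hp.1]
        · rw [Ldn _ ⟨by linarith [hp.2, hs.1], h1⟩]
          exact (gg _ ⟨by linarith [hp.2, hs.1], by linarith⟩).2)
      (fun x hx => (gσ x (huT hx)).2) (gc' u huu)
    obtain ⟨hc2, hU⟩ := gain_mir hTop.symm hLm hFm hr h he hd (by linarith) h₁m outM inM hturn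
      hray hγ hKγ
    have subm : (fun t => L (l - t)) '' Icc 0 l ∪ σ '' Icc 0 u ⊆ k '' Icc 0 l ∪ σ '' Icc 0 T := by
      rintro z (⟨p, hp, rfl⟩ | ⟨x, hx, rfl⟩)
      · have h1 : l - p ∈ Icc 0 l := ⟨by linarith [hp.2], by linarith [hp.1]⟩
        exact Or.inl ⟨l - p, h1, (hLk _ h1).symm⟩
      · exact Or.inr ⟨x, huT hx, rfl⟩
    have κsub := (kappa_sub hFm.hs h).trans subm
    have rev : (fun t => κ (l' - t)) '' Icc 0 l' ⊆ κ '' Icc 0 l' := by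
      rintro _ ⟨p, hp, rfl⟩
      exact ⟨l' - p, ⟨by linarith [hp.2], by linarith [hp.1]⟩, rfl⟩
    have arc : Arc g (fun t => κ (l' - t)) l' := h.arc.mirror hTop fun p hp =>
      (hball _ (κsub ⟨p, hp, rfl⟩)).1.trans (by norm_num)
    have tκ := tame _ l' arc.pos.le arc.cont arc.inj (rev.trans κsub)
    have tβ := tame β b h.bnn h.bcont h.binj (h.bim.trans subm)
    refine ⟨_, l', arc, ?_, ?_⟩
    · rcases h.shape with h1 | ⟨t, ht, e1, h1⟩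
      · exact ⟨s, ⟨hs.1.le, le_rfl⟩, s, ⟨le_rfl, hs.2.le⟩,
          (rev.trans h1).trans ((image_mono huT).trans subset_union_right),
          Or.inr ⟨Or.inl rfl, Or.inl rfl⟩⟩
      rcases le_or_gt t l with h2 | h2
      · have h3 : l - t ∈ Icc 0 l := ⟨by linarith, by linarith [ht.1, hs.2]⟩
        exact ⟨0, ⟨le_rfl, hs.1.le⟩, l, ⟨hs.2.le, le_rfl⟩, rev.trans κsub,
          Or.inl ⟨u, hu, l - t, h3, (e1.trans (hLk _ h3)).symm⟩⟩
      · refine ⟨s, ⟨hs.1.le, le_rfl⟩, l - t + l, ⟨by linarith [ht.2], by linarith⟩,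
          fun z hz => ?_, Or.inr ⟨Or.inl rfl, Or.inr ⟨u, huu,
            e1.trans (Ldn _ ⟨by linarith [ht.2, hs.1], by linarith⟩)⟩⟩⟩
        rcases h1 (rev hz) with (⟨p, hp, rfl⟩ | ⟨x, hx, rfl⟩) | ⟨p, hp, rfl⟩
        · have h3 := (le_max_right _ _).trans hp.1
          have h4 := (le_max_left _ _).trans hp.1
          exact Or.inl ⟨l - p, ⟨by linarith [hp.2], by linarith⟩,
            (hLk _ ⟨by linarith [hp.2, hs.1], by linarith⟩).symm⟩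
        · exact Or.inr ⟨x, huT hx, rfl⟩
        · exact absurd (hp.1.trans hp.2) (not_le.mpr h2)
    · suffices hW : ∀ z ∈ Z, (z ∈ U ∧ var k 0 l z + var β 0 b z - var (fun t => κ (l' - t)) 0 l' z -
          var (fun t => g' (β t)) 0 b z = 2 * π) ∨ (z ∈ V ∧ var k 0 l z + var β 0 b z -
            var (fun t => κ (l' - t)) 0 l' z - var (fun t => g' (β t)) 0 b z = 0) by
        have bκ := hB _ l' arc.pos.le arc.cont arc.inj (rev.trans κsub)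
        have bβ := hB β b h.bnn h.bcont h.binj (h.bim.trans subm)
        have h1 := Step.rev hG le_rfl hS tk tκ tβ (by norm_num) (by norm_num) hk.last arc.last
          (by rw [h.b0, sub_zero, hLk l ⟨hl.le, le_rfl⟩]) (by rw [h.b1, sub_self])
          (fun z hz => (bβ z hz).trans (by linarith)) fun z hz => by
            have a0 := abs_le.1 (val_le hW z hz)
            have a1 := abs_le.1 (bk z hz)
            have a2 := abs_le.1 (bκ z hz)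
            have a3 := abs_le.1 (bβ z hz)
            exact abs_le.2 ⟨by linarith [a0.2, a1.1, a2.2, a3.1], by linarith [a0.1, a1.2, a2.1, a3.2]⟩
        linarith [MvAux.nu_ge hG h.jor.dUV hU hW]
      intro z hz
      have e1 : var k 0 l z + var β 0 b z - var (fun t => κ (l' - t)) 0 l' z -
          var (fun t => g' (β t)) 0 b z = -Wn g' (fun t => L (l - t)) l κ l' β b z := by
        rw [Wn, var_rev, var_rev, sub_zero, sub_zero, sub_self, sub_self, var_symm κ 0 l',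
          var_symm L 0 l, vk]
        ring
      have key := wn_val hFm.hs h₁m outM.lt h (z := z) ?_ (zσ z hz) ?_
      · rcases key with ⟨h1, h2⟩ | ⟨h1, h2⟩
        · exact Or.inl ⟨h1, by rw [e1, h2, hc2, neg_neg]⟩
        · exact Or.inr ⟨h1, by rw [e1, h2, neg_zero]⟩
      · rintro ⟨p, hp, e2⟩
        have e3 : L (l - p) = z := e2
        rcases le_total 0 (l - p) with h1 | h1
        · have h2 : l - p ∈ Icc 0 l := ⟨h1, by linarith [hp.1]⟩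
          rw [← e3, hLk _ h2] at hz
          exact (kb _ h2).2 hz
        · have h2 := kb (l - p + l) ⟨by linarith [hp.2], by linarith⟩
          rw [← e3, Ldn _ ⟨by linarith [hp.2], h1⟩, hG.Zg' (by linarith [h2.1])] at hz
          exact h2.2 hz
      · rintro ⟨_, ⟨x, hx, rfl⟩, rfl⟩
        have h2 := σb x (huT hx)
        rw [hG.Zg' (by linarith [h2.1])] at hz
        exact h2.2 hz
  rcases hcase with ⟨y, hy, e1⟩ | ⟨y, hy, e1⟩ | ⟨hfree, t, ht, hts, e1⟩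
  · obtain ⟨κ, l', h1, h2, h3⟩ := direct (core_C hTop hL hF hr hd0 outL h₁ hy e1)
    exact ⟨κ, l', h1, h2, Or.inl h3⟩
  · obtain ⟨κ, l', h1, h2, h3⟩ :=
      mirror (core_C hTop.symm hLm hFm hr (neg_ne_zero.mpr hd₀) outM h₁m hy e1)
    exact ⟨κ, l', h1, h2, Or.inr h3⟩
  · have hnot : t ∉ Ioo s₀ s₁ := fun h => hts (hmid u huu t h e1)
    rcases lt_or_gt_of_ne hts with hlt | hgt
    · have h0 : t ≤ s₀ := le_of_not_gt fun h => hnot ⟨h, hlt.trans hout.lt⟩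
      obtain ⟨κ, l', h1, h2, h3⟩ := mirror (core_S (t := l - t) hTop.symm hLm hFm hr
        (neg_ne_zero.mpr hd₀) outM (fun x hx y hy e2 => hfree y hy x hx (by
          rw [e2, hG.inv' _ ((σb y (huT hy)).1.trans (by norm_num))]))
        ⟨by linarith, by linarith [ht.1]⟩ (by rw [sub_sub_cancel]; exact e1))
      exact ⟨κ, l', h1, h2, Or.inr h3⟩
    · have h0 : s₁ ≤ t := le_of_not_gt fun h => hnot ⟨hin.lt.trans hgt, h⟩
      obtain ⟨κ, l', h1, h2, h3⟩ := direct (core_S hTop hL hF hr hd0 outL hfree ⟨h0, ht.2⟩ e1)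
      exact ⟨κ, l', h1, h2, Or.inl h3⟩

end Pool.Agent.Lib.MP_399f8e_an.Ur.Uc
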