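import Pool.Agent.Lib.MP_399f8e_an.Uc.Tame

open Set Filter Topology Metric Complex
open scoped Real
open Pool.Agent.Lib.MP_399f8e_an.Rg

noncomputable section

namespace Pool.Agent.Lib.MP_399f8e_an.Ur.Uc

open AmapAux

variable {g g' : ℂ → ℂ} {ν : (ℂ → ℝ) → ℝ} {Z : Set ℂ}

namespace PtAux

theorem isA {g : ℂ → ℂ} {r : ℝ} (hc : Continuous g) (hn : ∀ z, ‖g z - z‖ ≤ 1)
    (hi : InjOn g (closedBall 0 (r + 6))) : IsA g (An g) r := by
  have hi3 : InjOn g (closedBall 0 (r + 3)) :=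
    hi.mono (closedBall_subset_closedBall (by linarith))
  have hi6 : InjOn g (closedBall 0 (r + 3 + 3)) := by
    rwa [show r + 3 + 3 = r + 6 by ring]
  refine ⟨An_cont hc hn hi3, fun x y h hx hy => ?_, fun x y h hx hy =>
    An_lift hc hi3 h hx hy⟩
  have hxs : ContinuousOn (fun s : ℝ => xs x y s) (uIcc (0 : ℝ) 1) := by
    have h1 : ContinuousOn (fun s : ℝ => (((x, y), s) : (ℂ × ℂ) × ℝ)) (uIcc (0 : ℝ) 1) := by
      fun_prop
    exact (xs_cont r).comp h1 fun s hs => ⟨⟨h, hx, hy⟩, hs⟩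
  have hb : ∀ s ∈ uIcc (0 : ℝ) 1, ‖xs x y s‖ ≤ r + 3 := fun s hs => by
    linarith [norm_xs_le h hs]
  have hy3 : ‖y‖ ≤ r + 3 := by linarith
  have hA := An_cont hc hn hi6
  have c1 : ContinuousOn (fun s : ℝ => An g (xs x y s) y) (uIcc (0 : ℝ) 1) :=
    hA.comp (f := fun s : ℝ => ((xs x y s, y) : ℂ × ℂ)) (hxs.prodMk continuousOn_const)
      fun s hs => ⟨xs_ne h hs, hb s hs, hy3⟩
  have c2 : ContinuousOn (fun s : ℝ => An g y (xs x y s)) (uIcc (0 : ℝ) 1) :=
    hA.comp (f := fun s : ℝ => ((y, xs x y s) : ℂ × ℂ)) (continuousOn_const.prodMk hxs)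
      fun s hs => ⟨(xs_ne h hs).symm, hy3, hb s hs⟩
  have k := int_const (F := fun s : ℝ => An g (xs x y s) y - An g y (xs x y s))
    isPreconnected_uIcc (c1.sub c2)
    (fun s hs => An_int hc hi6 (xs_ne h hs) (hb s hs) hy3) 0 left_mem_uIcc 1 right_mem_uIcc
  have hf : 2 < ‖xs x y 1 - y‖ := by
    rw [norm_xs_sub h zero_le_one]
    linarith [norm_nonneg (x - y)]
  have hf' : 2 < ‖y - xs x y 1‖ := by rwa [norm_sub_rev]
  have e : (g y - g (xs x y 1)) / (y - xs x y 1) = (g (xs x y 1) - g y) / (xs x y 1 - y) := by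
    rw [← neg_div_neg_eq, neg_sub, neg_sub]
  simp only [xs_zero] at k
  rw [An_far hc hn hf, An_far hc hn hf', e, sub_self] at k
  linarith

theorem near1 (hG : Good g g' ν Z 100000 (1 / 2)) (z : ℂ) : ‖g z - z‖ ≤ 1 :=
  (hG.near z).trans (by norm_num)

theorem chi_one {z : ℂ} (h : ‖z‖ ≤ 42000) : chi z = 1 := if_pos h

theorem chi_zero {z : ℂ} (h : 42000 < ‖z‖) : chi z = 0 := if_neg (not_le.2 h)

theorem chi_cases (z : ℂ) : chi z = 0 ∨ chi z = 1 := by
  rcases le_or_gt ‖z‖ 42000 with h | h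
  · exact Or.inr (chi_one h)
  · exact Or.inl (chi_zero h)

theorem chi_mul_le (z : ℂ) (x : ℝ) : |chi z * x| ≤ |x| := by
  rcases chi_cases z with h | h <;> simp [h]

theorem clip_le {M : ℝ} (hM : 0 ≤ M) (x : ℝ) : |clip M x| ≤ M :=
  abs_le.2 ⟨le_max_left _ _, max_le (by linarith) (min_le_right _ _)⟩

theorem ind_bd (x : ℂ) (r : ℝ) : Bd Z (ind x r) := ⟨1, fun z _ => by
  unfold ind
  by_cases hz : z ∈ ball x r <;> simp [hz]⟩

theorem ind_nn (x : ℂ) (r : ℝ) (z : ℂ) : 0 ≤ ind x r z :=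
  indicator_nonneg (fun _ _ => zero_le_one) z

theorem bd_add {w w' : ℂ → ℝ} (h : Bd Z w) (h' : Bd Z w') : Bd Z fun z => w z + w' z := by
  obtain ⟨C, hC⟩ := h
  obtain ⟨C', hC'⟩ := h'
  exact ⟨C + C', fun z hz => (abs_add_le _ _).trans (add_le_add (hC z hz) (hC' z hz))⟩

theorem bd_sub {w w' : ℂ → ℝ} (h : Bd Z w) (h' : Bd Z w') : Bd Z fun z => w z - w' z := by
  obtain ⟨C, hC⟩ := h
  obtain ⟨C', hC'⟩ := h'
  exact ⟨C + C', fun z hz => (abs_sub _ _).trans (add_le_add (hC z hz) (hC' z hz))⟩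

theorem bd_mul (c : ℝ) {w : ℂ → ℝ} (h : Bd Z w) : Bd Z fun z => c * w z := by
  obtain ⟨C, hC⟩ := h
  exact ⟨|c| * C, fun z hz => by
    beta_reduce
    rw [abs_mul]
    exact mul_le_mul_of_nonneg_left (hC z hz) (abs_nonneg c)⟩

theorem bd_map (hG : Good g g' ν Z 100000 (1 / 2)) {w : ℂ → ℝ} (h : Bd Z w)
    (h0 : ∀ z, 99000 ≤ ‖z‖ → w z = 0) : Bd Z fun z => w (g z) := by
  obtain ⟨C, hC⟩ := h
  refine ⟨|C|, fun z hz => ?_⟩
  rcases le_total ‖z‖ 100000 with h | h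
  · exact (hC _ ((hG.Zg z h).2 hz)).trans (le_abs_self C)
  · beta_reduce
    rw [h0 _ (by linarith [TameAux.down hG.near z]), abs_zero]
    exact abs_nonneg C

end PtAux

open PtAux

theorem isA_An (hG : Good g g' ν Z 100000 (1 / 2)) : IsA g (An g) 99000 := by
  refine isA hG.cont (near1 hG) fun x hx y hy e => ?_
  rw [mem_closedBall_zero_iff] at hx hy
  rw [← hG.inv x (by linarith), e, hG.inv y (by linarith)]

theorem An_le (hG : Good g g' ν Z 100000 (1 / 2)) {x y : ℂ} (h : 2 < ‖x - y‖) : |An g x y| ≤ π := by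
  rw [An_far hG.cont (near1 hG) h]
  exact abs_arg_le_pi _

theorem exists_level (hG : Good g g' ν Z 100000 (1 / 2)) {r : ℝ} (hr : 0 < r) :
    ∃ M : ℝ, ∀ x y : ℂ, ‖x‖ ≤ 99000 → ‖y‖ ≤ 99000 → r ≤ ‖x - y‖ → |An g x y| ≤ M := by
  have hK : IsCompact ((closedBall (0 : ℂ) 99000 ×ˢ closedBall (0 : ℂ) 99000) ∩
      {p : ℂ × ℂ | r ≤ ‖p.1 - p.2‖}) :=
    ((isCompact_closedBall _ _).prod (isCompact_closedBall _ _)).inter_right
      (isClosed_le continuous_const (by fun_prop))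
  obtain ⟨B, hB⟩ := hK.exists_bound_of_continuousOn (f := fun p : ℂ × ℂ => An g p.1 p.2)
    ((isA_An hG).cont.mono fun p hp => by
      have h3 : r ≤ ‖p.1 - p.2‖ := hp.2
      refine ⟨fun h4 => ?_, mem_closedBall_zero_iff.1 hp.1.1, mem_closedBall_zero_iff.1 hp.1.2⟩
      rw [h4, sub_self, norm_zero] at h3
      linarith)
  exact ⟨B, fun x y h1 h2 h3 =>
    hB (x, y) ⟨⟨mem_closedBall_zero_iff.2 h1, mem_closedBall_zero_iff.2 h2⟩, h3⟩⟩

theorem En_congr {A : ℂ → ℝ} {k k' : ℝ → ℂ} {l : ℝ} (hl : 0 ≤ l) (e : ∀ t ∈ Icc 0 l, k' t = k t)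
    (z : ℂ) : En g A k' l z = En g A k l z := by
  unfold En
  rw [e 0 (left_mem_Icc.2 hl),
    var_congr (P := k') (Q := k) (fun t ht => e t (by rwa [uIcc_of_le hl] at ht))]

theorem En_far (hG : Good g g' ν Z 100000 (1 / 2)) (A : ℂ → ℝ) (k : ℝ → ℂ) (l : ℝ) {z : ℂ}
    (hz : 42001 ≤ ‖z‖) : En g A k l z = 0 := by
  unfold En
  rw [chi_zero (z := z) (by linarith), chi_zero (z := g z) (by linarith [TameAux.down hG.near z])]
  ring

theorem En_diff (hG : Good g g' ν Z 100000 (1 / 2)) {k k' β : ℝ → ℂ} {l l' b : ℝ}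
    (hk : Tame Z 40000 k l) (hk' : Tame Z 40000 k' l') (hβ : Tame Z 40000 β b)
    (e1 : k l = g (k 0)) (e2 : k' l' = g (k' 0)) (e3 : β 0 = k 0) (e4 : β b = k' 0) {z : ℂ}
    (hz : z ∈ Z) : En g (An g (k 0)) k l z - En g (An g (k' 0)) k' l' z =
      Wn g k l k' l' β b z + chi (g z) * var (fun t => g (β t)) 0 b (g z)
        - chi z * var (fun t => g (β t)) 0 b z := by
  rcases le_or_gt ‖z‖ 99000 with h | h
  · have h1 := var_map (isA_An hG) hG.cont (hβ.isOff hz) (fun t ht => by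
      rw [uIcc_of_le hβ.nn] at ht
      linarith [hβ.bd t ht]) h
    rw [e3, e4] at h1
    rcases le_or_gt ‖z‖ 41000 with h2 | h2
    · unfold En Wn
      rw [h1, chi_one (z := z) (by linarith),
        chi_one (z := g z) (by linarith [TameAux.up hG.near z])]
      ring
    · have h3 := wn_far hG.cont (near1 hG) hk hk' hβ e1 e2 e3 e4 (z := z) (by linarith)
      have h4 := (TameAux.far hβ.cont hβ.nn hβ.bd (z := z) (by linarith)).1
      rw [e3, e4] at h4
      rw [h3, h1]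
      unfold Wn at h3
      unfold En
      linear_combination chi z * h3 - (chi (g z) - chi z) * h4
  · rw [En_far hG _ _ _ (by linarith), En_far hG _ _ _ (by linarith),
      wn_far hG.cont (near1 hG) hk hk' hβ e1 e2 e3 e4 (by linarith), chi_zero (z := z) (by linarith),
      chi_zero (z := g z) (by linarith [TameAux.down hG.near z])]
    ring

theorem En_clip_le {k : ℝ → ℂ} {l C M : ℝ} (hM : 0 ≤ M) (hC : ∀ z ∈ Z, |var k 0 l z| ≤ C) :
    ∀ z ∈ Z, |En g (fun y => clip M (An g (k 0) y)) k l z| ≤ |C| + π + M := by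
  intro z hz
  have h1 := abs_le.1 ((chi_mul_le z _).trans ((hC z hz).trans (le_abs_self C)))
  have h2 := abs_le.1 ((chi_mul_le (g z) _).trans (clip_le hM (An g (k 0) z)))
  have h3 : |(chi (g z) - chi z) * arg ((k 0 - z) / (0 - z))| ≤ π := by
    have h4 := abs_arg_le_pi ((k 0 - z) / (0 - z))
    have h5 := Real.pi_pos
    rcases chi_cases z with a | a <;> rcases chi_cases (g z) with b | b <;> simp [a, b] <;>
      first | exact h5.le | simpa using h4
  have h4 := abs_le.1 h3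
  unfold En
  exact abs_le.2 ⟨by linarith [h1.1, h2.2, h4.2], by linarith [h1.2, h2.1, h4.1]⟩

theorem clip_lip {M : ℝ} (hM : 0 ≤ M) (x y : ℝ) : |x - clip M x - (y - clip M y)| ≤ |x - y| := by
  unfold clip
  rcases le_total x y with h | h
  · rw [abs_of_nonpos (sub_nonpos.2 h), abs_le]
    simp only [max_def, min_def]
    split_ifs <;> constructor <;> linarith
  · rw [abs_of_nonneg (sub_nonneg.2 h), abs_le]
    simp only [max_def, min_def]
    split_ifs <;> constructor <;> linarith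

theorem clip_eq {M x : ℝ} (h : |x| ≤ M) : clip M x = x := by
  unfold clip
  rw [min_eq_left (abs_le.1 h).2, max_eq_right (abs_le.1 h).1]

theorem pot_step (hG : Good g g' ν Z 100000 (1 / 2)) {M r B θ : ℝ} (hM0 : 0 ≤ M) (hB : 0 ≤ B)
    (hM : ∀ x y : ℂ, ‖x‖ ≤ 99000 → ‖y‖ ≤ 99000 → r ≤ ‖x - y‖ → |An g x y| ≤ M)
    (hs : ∀ x, ν (ind x r) ≤ θ) (c : ℝ) :
    Step g ν Z (fun k l => c - ν (En g (fun y => clip M (An g (k 0) y)) k l)) 40000 B
      (4 * B * θ) := by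
  intro k l k' l' β b hk hk' hβ e1 e2 e3 e4 b1 b2
  obtain ⟨C, hC⟩ := hk.bv
  obtain ⟨C', hC'⟩ := hk'.bv
  have a1 : Bd Z _ := ⟨_, En_clip_le (g := g) hM0 hC⟩
  have a2 : Bd Z _ := ⟨_, En_clip_le (g := g) hM0 hC'⟩
  have a3 : Bd Z (Wn g k l k' l' β b) :=
    ⟨_, fun z hz => TameAux.four (hC z hz) (b2 z hz) (hC' z hz) (b1 z hz)⟩
  set u : ℂ → ℝ := fun z => chi z * var (fun t => g (β t)) 0 b z with hu
  have a4 : Bd Z u := ⟨B, fun z hz => (chi_mul_le z _).trans (b2 z hz)⟩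
  have u0 : ∀ z, 99000 ≤ ‖z‖ → u z = 0 := fun z hz => by
    rw [hu]
    beta_reduce
    rw [chi_zero (by linarith), zero_mul]
  have a5 := bd_map hG a4 u0
  have a6 := hG.invν u a4 fun z hz => u0 z (by linarith)
  have a7 : Bd Z fun z => 2 * B * (ind (k 0) r z + ind (k' 0) r z) :=
    bd_mul _ (bd_add (ind_bd _ _) (ind_bd _ _))
  have n1 := hk.bd 0 (left_mem_Icc.2 hk.nn)
  have n2 := hk'.bd 0 (left_mem_Icc.2 hk'.nn)
  have key := hG.mono _ _ (bd_add (bd_add a2 a3) a5) (bd_add (bd_add a1 a4) a7) fun z hz => by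
    have h1 := En_diff hG hk hk' hβ e1 e2 e3 e4 hz
    have h2 : -(2 * B * (ind (k 0) r z + ind (k' 0) r z)) ≤ chi (g z) *
        (An g (k 0) z - clip M (An g (k 0) z) - (An g (k' 0) z - clip M (An g (k' 0) z))) := by
      have i1 := ind_nn (k 0) r z
      have i2 := ind_nn (k' 0) r z
      rcases le_or_gt ‖z‖ 99000 with h | h
      swap
      · rw [chi_zero (by linarith [TameAux.down hG.near z]), zero_mul, neg_nonpos]
        positivity
      by_cases h3 : r ≤ ‖k 0 - z‖ ∧ r ≤ ‖k' 0 - z‖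
      · rw [clip_eq (hM _ _ (by linarith) h h3.1), clip_eq (hM _ _ (by linarith) h h3.2), sub_self,
          sub_self, sub_self, mul_zero, neg_nonpos]
        positivity
      have h4 : 1 ≤ ind (k 0) r z + ind (k' 0) r z := by
        rw [not_and_or, not_le, not_le, norm_sub_rev, norm_sub_rev (k' 0)] at h3
        rcases h3 with h3 | h3
        · have : ind (k 0) r z = 1 := indicator_of_mem (mem_ball_iff_norm.2 h3) _
          linarith
        · have : ind (k' 0) r z = 1 := indicator_of_mem (mem_ball_iff_norm.2 h3) _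
          linarith
      have h5 := var_map (isA_An hG) hG.cont (hβ.isOff hz) (fun t ht => by
        rw [uIcc_of_le hβ.nn] at ht
        linarith [hβ.bd t ht]) h
      rw [e3, e4] at h5
      have h6 := abs_le.1 (b1 z hz)
      have h7 := abs_le.1 (b2 _ ((hG.Zg z (by linarith)).2 hz))
      have h8 : |An g (k 0) z - An g (k' 0) z| ≤ 2 * B :=
        abs_le.2 ⟨by linarith [h6.1, h7.2], by linarith [h6.2, h7.1]⟩
      have h9 := (abs_le.1 ((chi_mul_le (g z) _).trans ((clip_lip hM0 _ _).trans h8))).1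
      nlinarith
    simp only [hu]
    unfold En at h1 ⊢
    linarith
  rw [hG.add _ _ (bd_add a2 a3) a5, hG.add _ _ a2 a3, hG.add _ _ (bd_add a1 a4) a7,
    hG.add _ _ a1 a4, hG.smul _ _ (bd_add (ind_bd _ _) (ind_bd _ _)),
    hG.add _ _ (ind_bd _ _) (ind_bd _ _), a6] at key
  have h1 := mul_le_mul_of_nonneg_left (add_le_add (hs (k 0)) (hs (k' 0)))
    (show 0 ≤ 2 * B by linarith)
  beta_reduce
  linarith

theorem pot_bnd (hG : Good g g' ν Z 100000 (1 / 2)) {M : ℝ} (hM0 : 0 ≤ M) (c : ℝ) :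
    Bnd Z (fun k l => c - ν (En g (fun y => clip M (An g (k 0) y)) k l)) 40000 := by
  intro C
  refine ⟨c + (|C| + π + M) * ν fun _ => 1, fun k l _ hC => ?_⟩
  have h1 := En_clip_le (g := g) hM0 hC
  have h2 := hG.nu_le (w := fun z => -1 * En g (fun y => clip M (An g (k 0) y)) k l z)
    (C := |C| + π + M) fun z hz => by
      rw [neg_one_mul, abs_neg]
      exact h1 z hz
  rw [hG.smul _ _ ⟨_, h1⟩] at h2
  beta_reduce
  linarith

end Pool.Agent.Lib.MP_399f8e_an.Ur.Uc
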