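import Pool.Agent.Lib.MP_399f8e_an.Uc.Defs
import Pool.Agent.Lib.MP_399f8e_an.Ur.Ret

open Set Filter Topology Metric Complex
open scoped Real
open Pool.Agent.Lib.MP_399f8e_an.Rg

noncomputable section

namespace Pool.Agent.Lib.MP_399f8e_an.Ur.Uc

variable {φ : ℝ → S → S} {lam δ : ℝ} {Y : S → ℂ → S} {pr : S → S → ℂ} {T : S → S → ℝ}
variable {τ : S → ℝ} {h : S ≃ₜ S}

namespace RtAux

/-- a symmetry that moves one point along its orbit is a time map -/
theorem eq_time (hφ : IsFl φ) (hmin : ∀ x, Dense (range fun t : ℝ => φ t x))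
    (hc : ∀ t x, h (φ t x) = φ t (h x)) {x : S} {a : ℝ} (e : φ a (h x) = x) (y : S) :
    h y = φ (-a) y := by
  have h1 : Continuous fun y => φ (-a) y := hφ.cont.comp (Continuous.prodMk_right (-a))
  refine congrFun (Continuous.ext_on (hmin x) h.continuous h1 ?_) y
  rintro _ ⟨t, rfl⟩
  have h2 : h x = φ (-a) x := by
    conv_rhs => rw [← e, ← hφ.add, neg_add_cancel, hφ.zero]
  show h (φ t x) = φ (-a) (φ t x)
  rw [hc, h2, ← hφ.add, ← hφ.add, add_comm]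

theorem steps (hφ : IsFl φ) (hδ : 0 < δ) (hR : Rt φ h τ lam δ) (y : S) (n : ℕ) :
    ∀ s t : ℝ, n * δ ≤ t - s → t - s ≤ (n + 1) * δ →
      9 * δ / 10 * n - δ / 10 ≤ t + τ (φ t y) - (s + τ (φ s y)) := by
  have one : ∀ s t : ℝ, 0 ≤ t - s → t - s ≤ δ →
      t - s - δ / 10 ≤ t + τ (φ t y) - (s + τ (φ s y)) := fun s t h1 h2 => by
    have := hR.coarse (φ s y) (t - s) (abs_le.2 ⟨by linarith, h2⟩)
    rw [← hφ.add, sub_add_cancel] at this
    linarith [(abs_le.1 this).1]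
  induction n with
  | zero =>
    intro s t h1 h2
    simp only [Nat.cast_zero, zero_mul, zero_add, one_mul, mul_zero] at h1 h2 ⊢
    linarith [one s t h1 h2]
  | succ n ih =>
    intro s t h1 h2
    push_cast at h1 h2 ⊢
    have h3 := ih (s + δ) t (by linarith) (by linarith)
    have h4 := one s (s + δ) (by linarith) (by linarith)
    linarith

theorem far (hφ : IsFl φ) (hδ : 0 < δ) (hR : Rt φ h τ lam δ) (y : S) {s t : ℝ}
    (h0 : δ ≤ t - s) : 8 * δ / 10 ≤ t + τ (φ t y) - (s + τ (φ s y)) := by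
  have h5 : 0 ≤ (t - s) / δ := div_nonneg (by linarith) hδ.le
  have h1 : (1 : ℝ) ≤ (⌊(t - s) / δ⌋₊ : ℝ) := by
    exact_mod_cast (Nat.one_le_floor_iff _).2 ((one_le_div hδ).2 h0)
  have h2 := steps hφ hδ hR y ⌊(t - s) / δ⌋₊ s t ((le_div_iff₀ hδ).1 (Nat.floor_le h5))
    ((div_le_iff₀ hδ).1 (Nat.lt_floor_add_one _).le)
  have h3 : 9 * δ / 10 * 1 ≤ 9 * δ / 10 * (⌊(t - s) / δ⌋₊ : ℝ) :=
    mul_le_mul_of_nonneg_left h1 (by linarith)
  linarith

theorem small (hφ : IsFl φ) (hδ : 0 < δ) (hR : Rt φ h τ lam δ) (y : S) {t : ℝ}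
    (h0 : |t + τ (φ t y) - τ y| ≤ 2 * δ / 10) : |t| ≤ δ := by
  obtain ⟨h1, h2⟩ := abs_le.1 h0
  refine abs_le.2 ⟨?_, ?_⟩
  · by_contra h3
    have := far hφ hδ hR y (s := t) (t := 0) (by linarith [not_le.1 h3])
    rw [hφ.zero] at this
    linarith
  · by_contra h3
    have := far hφ hδ hR y (s := 0) (t := t) (by linarith [not_le.1 h3])
    rw [hφ.zero] at this
    linarith

theorem onto (hφ : IsFl φ) (hR : Rt φ h τ lam δ) (y : S) : ∃ t : ℝ, t + τ (φ t y) = 0 := by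
  obtain ⟨C, hC⟩ := isCompact_univ.exists_bound_of_continuousOn hR.cont.continuousOn
  have hc : Continuous fun t => t + τ (φ t y) :=
    continuous_id.add (hR.cont.comp (hφ.cont.comp (continuous_id.prodMk continuous_const)))
  have h1 := abs_le.1 (hC (φ C y) (mem_univ _))
  have h2 := abs_le.1 (hC (φ (-C) y) (mem_univ _))
  exact mem_range_of_exists_le_of_exists_ge hc ⟨-C, by linarith [h2.2]⟩ ⟨C, by linarith [h1.1]⟩

theorem G_le (hR : Rt φ h τ lam δ) {y c : S} {a : ℝ} (h0 : ‖(y : E) - c‖ ≤ a) :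
    ‖(φ (τ y) (h y) : E) - c‖ ≤ lam / 10 + a :=
  (norm_sub_le_norm_sub_add_norm_sub _ (y : E) _).trans (add_le_add (hR.near y) h0)

theorem ret_eq (c : S) {z : ℂ} (hz : ‖z‖ ≤ 200000) :
    ret φ h τ Y pr c z = pr c (φ (τ (Y c z)) (h (Y c z))) := by
  simp [ret, cl_eq hz]

end RtAux

open RtAux

theorem exists_rt (hφ : IsFl φ) (hmin : ∀ x, Dense (range fun t : ℝ => φ t x))
    (hB : Box φ lam δ Y pr T) : ∃ η : ℝ, 0 < η ∧ ∀ (h : S ≃ₜ S) (τ : S → ℝ),
    (∀ t x, h (φ t x) = φ t (h x)) → Continuous τ → (∀ x, ‖(φ (τ x) (h x) : E) - x‖ ≤ η) →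
    (∃ t₀ : ℝ, (∀ x, h x = φ t₀ x) ∧ ∀ x, |τ x + t₀| ≤ δ) ∨ Rt φ h τ lam δ := by
  have hl := hB.lam_pos
  have hδ := hB.δ_pos
  obtain ⟨η, hη, hu⟩ := RtExAux.unif hφ δ hl
  refine ⟨min η (lam / 10), lt_min hη (by linarith), fun h τ hc hτ hn => ?_⟩
  have hn1 : ∀ x, ‖(φ (τ x) (h x) : E) - x‖ ≤ η := fun x => (hn x).trans (min_le_left _ _)
  have hn2 : ∀ x, ‖(φ (τ x) (h x) : E) - x‖ ≤ lam / 10 := fun x => (hn x).trans (min_le_right _ _)
  by_cases hfar : ∀ x a, |a - τ x| ≤ δ / 10 → φ a (h x) ≠ x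
  swap
  · push Not at hfar
    obtain ⟨x, a, ha, e⟩ := hfar
    have h1 := eq_time hφ hmin hc e
    refine Or.inl ⟨-a, h1, fun y => ?_⟩
    by_contra hy
    refine RtExAux.gap RtExAux.conn (F := fun y => |τ y + -a|) (hτ.add continuous_const).abs.continuousOn
      hδ (fun z _ hz => hB.dich hφ (x := z) ?_ hz) (mem_univ x) (mem_univ y) ?_
      (by linarith [not_le.1 hy])
    · rw [hφ.add, ← h1]
      linarith [hn2 z]
    · rw [← sub_eq_add_neg, abs_sub_comm]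
      linarith
  refine Or.inr ⟨hc, hτ, hn2, hfar, fun y t ht => ?_⟩
  have d : ∀ s ∈ Icc (-δ) δ, |τ (φ s y) - τ y| ≤ 9 * δ / 10 → |τ (φ s y) - τ y| ≤ δ / 10 :=
    fun s hs h0 => by
      refine hB.dich hφ (x := φ s (φ (τ y) (h y))) ?_ h0
      have e : φ (τ (φ s y) - τ y) (φ s (φ (τ y) (h y))) = φ (τ (φ s y)) (h (φ s y)) := by
        rw [hc, ← hφ.add, ← hφ.add, ← hφ.add]
        congr 1
        ring
      have h1 := hn2 (φ s y)
      have h2 := hu s (abs_le.2 hs) _ _ (hn1 y)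
      have h3 := norm_sub_le_norm_sub_add_norm_sub (φ (τ (φ s y)) (h (φ s y)) : E) (φ s y)
        (φ s (φ (τ y) (h y)))
      rw [norm_sub_rev] at h2
      rw [e]
      linarith
  by_contra hx
  have hcc : Continuous fun s => |τ (φ s y) - τ y| :=
    ((hτ.comp (hφ.cont.comp (continuous_id.prodMk continuous_const))).sub continuous_const).abs
  refine RtExAux.gap isPreconnected_Icc hcc.continuousOn hδ d (a := 0) (b := t)
    ⟨by linarith, hδ.le⟩ (abs_le.1 ht) (by rw [hφ.zero, sub_self, abs_zero]; linarith) ?_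
  by_contra h2
  exact hx (d t (abs_le.1 ht) (by linarith [not_le.1 h2]))

theorem ret_cont (hφ : IsFl φ) (hB : Box φ lam δ Y pr T) (hR : Rt φ h τ lam δ) (c : S) :
    Continuous (ret φ h τ Y pr c) := by
  have hl := hB.lam_pos
  have h1 : Continuous fun z => Y c (cl z) := (hB.Ycont c).comp continuous_cl
  have h2 : Continuous fun z => φ (τ (Y c (cl z))) (h (Y c (cl z))) :=
    hφ.cont.comp ((hR.cont.comp h1).prodMk (h.continuous.comp h1))
  refine Continuous.add ?_ (continuous_id.sub continuous_cl)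
  refine (hB.prcont c).comp_continuous h2 fun z => ?_
  exact (G_le hR (RetAux.Y_le hB c (norm_cl z))).trans (by linarith)

theorem ret_near (hφ : IsFl φ) (hB : Box φ lam δ Y pr T) (hR : Rt φ h τ lam δ) (c : S) (z : ℂ) :
    ‖ret φ h τ Y pr c z - z‖ ≤ 1 / 2 := by
  have hl := hB.lam_pos
  have h1 := hB.pr_lip hφ (c := c) (q := Y c (cl z)) (q' := φ (τ (Y c (cl z))) (h (Y c (cl z))))
    ((RetAux.Y_le hB c (norm_cl z)).trans (by linarith)) ((hR.near _).trans (by linarith))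
  rw [hB.pr_Y c ((norm_cl z).trans (by norm_num))] at h1
  have e : ret φ h τ Y pr c z - z = pr c (φ (τ (Y c (cl z))) (h (Y c (cl z)))) - cl z := by
    unfold ret; ring
  rw [e]
  refine le_of_mul_le_mul_left ?_ hl
  linarith [hR.near (Y c (cl z))]

theorem ret_flow (hφ : IsFl φ) (hB : Box φ lam δ Y pr T) (hR : Rt φ h τ lam δ) (c : S) {z : ℂ}
    (hz : ‖z‖ ≤ 200000) : ∃ a : ℝ, |a - τ (Y c z)| ≤ δ / 10 ∧
      Y c (ret φ h τ Y pr c z) = φ a (h (Y c z)) := by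
  have hl := hB.lam_pos
  have h1 : ‖(φ (τ (Y c z)) (h (Y c z)) : E) - c‖ ≤ 10 ^ 6 * lam :=
    (G_le hR (RetAux.Y_le hB c hz)).trans (by linarith)
  refine ⟨T c (φ (τ (Y c z)) (h (Y c z))) + τ (Y c z), by simpa using hB.Tle c _ h1, ?_⟩
  rw [ret_eq c hz, hφ.add, hB.flow c _ h1]

theorem ret_nofix (hφ : IsFl φ) (hB : Box φ lam δ Y pr T) (hR : Rt φ h τ lam δ) (c : S) {z : ℂ}
    (hz : ‖z‖ ≤ 200000) : ret φ h τ Y pr c z ≠ z := by
  intro e
  obtain ⟨a, h1, h2⟩ := ret_flow hφ hB hR c hz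
  rw [e] at h2
  exact hR.far _ a h1 h2.symm

theorem ret_inj (hφ : IsFl φ) (hB : Box φ lam δ Y pr T) (hR : Rt φ h τ lam δ) (c : S) :
    InjOn (ret φ h τ Y pr c) (closedBall 0 200000) := by
  intro z hz z' hz' e
  have hz1 : ‖z‖ ≤ 200000 := by simpa using hz
  have hz2 : ‖z'‖ ≤ 200000 := by simpa using hz'
  obtain ⟨a, h1, h2⟩ := ret_flow hφ hB hR c hz1
  obtain ⟨a', h1', h2'⟩ := ret_flow hφ hB hR c hz2
  have h3 : φ (a - a') (Y c z) = Y c z' := h.injective (by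
    rw [hR.comm, sub_eq_neg_add, hφ.add, ← h2, e, h2', ← hφ.add, neg_add_cancel, hφ.zero])
  have h4 : |a - a'| ≤ δ := by
    refine small hφ hB.δ_pos hR (Y c z) ?_
    rw [h3]
    have := abs_sub (a - τ (Y c z)) (a' - τ (Y c z'))
    have e2 : a - a' + τ (Y c z') - τ (Y c z) = a - τ (Y c z) - (a' - τ (Y c z')) := by ring
    rw [e2]
    linarith
  exact (hB.uniq c z z' _ h4 (by linarith) (by linarith) h3).2

theorem ret_surj (hφ : IsFl φ) (hB : Box φ lam δ Y pr T) (hR : Rt φ h τ lam δ) (c : S) {z : ℂ}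
    (hz : ‖z‖ ≤ 199000) : ∃ w, ‖w - z‖ ≤ 1 / 2 ∧ ret φ h τ Y pr c w = z := by
  have hl := hB.lam_pos
  have hδ := hB.δ_pos
  obtain ⟨t, ht⟩ := onto hφ hR (h.symm (Y c z))
  set y := Y c z with hy
  set q := φ t (h.symm y) with hq
  have h0 : φ (τ q) (h q) = y := by
    rw [hq, hR.comm, h.apply_symm_apply, ← hφ.add, add_comm, ht, hφ.zero]
  have h1 : ‖(q : E) - y‖ ≤ lam / 10 := by
    have := hR.near q
    rwa [h0, norm_sub_rev] at this
  have h2 : ‖(y : E) - c‖ ≤ 400000 * lam := RetAux.Y_le hB c (by linarith)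
  have h3 : ‖(q : E) - c‖ ≤ 10 ^ 6 * lam :=
    (norm_sub_le_norm_sub_add_norm_sub _ (y : E) _).trans (by linarith)
  have h4 := hB.pr_lip hφ (c := c) (q := y) (q' := q) (by linarith) (by linarith)
  have h5 : pr c y = z := hB.pr_Y c (by linarith)
  rw [h5] at h4
  have h6 : ‖pr c q - z‖ ≤ 1 / 2 := le_of_mul_le_mul_left (by linarith) hl
  have h7 : ‖pr c q‖ ≤ 200000 := by
    have := norm_sub_norm_le (pr c q) z
    linarith
  refine ⟨pr c q, h6, ?_⟩
  have h8 := hB.flow c q h3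
  have h9 := hB.Tle c q h3
  have e : φ (τ (Y c (pr c q))) (h (Y c (pr c q))) = φ (τ (φ (T c q) q) - τ q + T c q) y := by
    rw [← h8, hR.comm]
    calc φ (τ (φ (T c q) q)) (φ (T c q) (h q)) = φ (τ (φ (T c q) q) + T c q) (h q) :=
          (hφ.add _ _ _).symm
      _ = φ ((τ (φ (T c q) q) - τ q + T c q) + τ q) (h q) := by congr 1; ring
      _ = _ := by rw [hφ.add _ (τ q), h0]
  have h10 := G_le hR (RetAux.Y_le hB c h7)
  rw [ret_eq c h7, e, hB.pr_flow hφ (by linarith) (by rw [← e]; linarith) ?_, h5]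
  have := hR.coarse q (T c q) (by linarith)
  have := abs_add_le (τ (φ (T c q) q) - τ q) (T c q)
  linarith

theorem ret_comm (hφ : IsFl φ) (hB : Box φ lam δ Y pr T) (hR : Rt φ h τ lam δ) {c c' : S}
    (hd : dist c c' ≤ 8000 * lam) {z : ℂ} (hz : ‖z‖ ≤ 180000) :
    gam Y pr c c' (ret φ h τ Y pr c z) = ret φ h τ Y pr c' (gam Y pr c c' z) := by
  have hl := hB.lam_pos
  have hδ := hB.δ_pos
  have hd' : ‖(c : E) - c'‖ ≤ 8000 * lam := by rwa [← dist_eq_norm]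
  have h1 : ‖ret φ h τ Y pr c z‖ ≤ 200000 := by
    have := norm_sub_norm_le (ret φ h τ Y pr c z) z
    linarith [ret_near hφ hB hR c z]
  have h2 : ‖gam Y pr c c' z‖ ≤ 200000 := by
    have := norm_sub_norm_le (gam Y pr c c' z) z
    linarith [hB.gam_disp hd z]
  obtain ⟨a, a1, a2⟩ := ret_flow hφ hB hR c (z := z) (by linarith)
  obtain ⟨b, b1, b2⟩ := hB.gam_flow (c := c) (c' := c') (by linarith) (z := z) (by linarith)
  have e : φ (τ (Y c' (gam Y pr c c' z))) (h (Y c' (gam Y pr c c' z)))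
      = φ (τ (φ b (Y c z)) + b - a) (Y c (ret φ h τ Y pr c z)) := by
    rw [a2, b2, hR.comm, ← hφ.add, ← hφ.add]
    congr 1
    ring
  have h3 := G_le hR (RetAux.Y_le hB c' h2)
  have h4 : ‖(Y c (ret φ h τ Y pr c z) : E) - c'‖ ≤ 10 ^ 6 * lam :=
    (norm_sub_le_norm_sub_add_norm_sub _ (c : E) _).trans (by linarith [RetAux.Y_le hB c h1])
  rw [RetAux.gam_eq c c' h1, ret_eq c' h2, e, hB.pr_flow hφ h4 (by rw [← e]; linarith) ?_]
  have c1 := abs_le.1 (hR.coarse (Y c z) b (by linarith))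
  have c2 := abs_le.1 a1
  have c3 := abs_le.1 b1
  exact abs_le.2 ⟨by linarith, by linarith⟩


end Pool.Agent.Lib.MP_399f8e_an.Ur.Uc
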