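import Pool.Agent.Results.MP_399f8e_an.C0DiscreteCentralizer

/-!
The two earlier statements, derived from the theorem on the centraliser.
-/

open Set
open Pool.Agent.Results.MP_399f8e_an.C0DiscreteCentralizer

namespace Pool.Agent.Lib.MP_399f8e_an.Spec

variable [Fact (Module.finrank ℝ R4 = 3 + 1)] {φ : ℝ → S3 → S3}

theorem aper (hφ : IsC2Flow φ) (hmin : ∀ x, Dense (Set.range fun t : ℝ => φ t x)) (x : S3)
    (t : ℝ) (ht : φ t x = x) : t = 0 := by
  obtain ⟨hs, h0, hadd⟩ := hφ
  by_contra hne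
  rcases lt_or_gt_of_ne hne with h | h
  · have h2 : φ (-t) x = x := by
      have h3 := hadd (-t) t x
      rw [neg_add_cancel, h0, ht] at h3
      exact h3.symm
    exact Rg.not_dense_of_per φ hs hadd x (-t) (neg_pos.2 h) h2 (hmin x)
  · exact Rg.not_dense_of_per φ hs hadd x t h ht (hmin x)

/-- the statement handed in before as `NotUniformlyRigid` -/
theorem not_rigid (hφ : IsC2Flow φ) (hmin : ∀ x, Dense (Set.range fun t : ℝ => φ t x)) (ε : ℝ)
    (hε : 0 < ε) : ∃ η : ℝ, 0 < η ∧ ∀ τ : S3 → ℝ, Continuous τ →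
      (∀ x, ‖(φ (τ x) x : R4) - (x : R4)‖ ≤ η) → ∀ x, |τ x| ≤ ε := by
  obtain ⟨η, hη, H⟩ := result φ hφ hmin ε hε
  refine ⟨η, hη, fun τ hτ hn x => ?_⟩
  obtain ⟨t₀, h1, h2⟩ := H (Homeomorph.refl S3) τ (fun _ _ => rfl) hτ hn
  have := h2 x
  rwa [aper hφ hmin x t₀ (h1 x).symm, add_zero] at this

/-- The displacement of a self-map of the sphere, as a vector of `R4`. -/
def disp (g : S3 → S3) (x : S3) : R4 := (g x : R4) - (x : R4)

/-- The displacement of `g` has size at most `η` and Lipschitz constant at most `η`. -/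
def NearId (g : S3 → S3) (η : ℝ) : Prop :=
  (∀ x, ‖disp g x‖ ≤ η) ∧ ∀ x y : S3, ‖disp g x - disp g y‖ ≤ η * ‖(x : R4) - (y : R4)‖

/-- the statement handed in before as `DiscreteCentralizer` -/
theorem discrete (hφ : IsC2Flow φ) (hmin : ∀ x, Dense (Set.range fun t : ℝ => φ t x)) (ε : ℝ)
    (hε : 0 < ε) : ∃ η : ℝ, 0 < η ∧ ∀ (h : S3 → S3) (τ : S3 → ℝ),
      (∀ t x, h (φ t x) = φ t (h x)) → Continuous τ → NearId (fun x => φ (τ x) (h x)) η →
      ∃ t₀ : ℝ, (∀ x, h x = φ t₀ x) ∧ ∀ x, |τ x + t₀| ≤ ε := by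
  obtain ⟨η, hη, H⟩ := result φ hφ hmin ε hε
  have ap := aper hφ hmin
  obtain ⟨hs, h0, hadd⟩ := hφ
  have hφc : Continuous fun p : ℝ × S3 => φ p.1 p.2 := hs.continuous
  refine ⟨min η (1 / 2), lt_min hη one_half_pos, fun h τ hc hτ hn => ?_⟩
  set G : S3 → S3 := fun x => φ (τ x) (h x) with hG
  have lip : ∀ x y : S3, ‖(G x : R4) - G y - ((x : R4) - y)‖ ≤ 1 / 2 * ‖(x : R4) - y‖ :=
    fun x y => by
      have h1 := hn.2 x y
      have e : disp G x - disp G y = (G x : R4) - G y - ((x : R4) - y) := by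
        unfold disp
        abel
      rw [e] at h1
      exact h1.trans (mul_le_mul_of_nonneg_right (min_le_right _ _) (norm_nonneg _))
  have Gc : Continuous G := by
    refine (LipschitzWith.of_dist_le_mul (K := 2) fun x y => ?_).continuous
    rw [Subtype.dist_eq, Subtype.dist_eq, dist_eq_norm, dist_eq_norm]
    have h1 := norm_sub_norm_le ((G x : R4) - G y) ((x : R4) - y)
    have h2 := norm_nonneg ((x : R4) - y)
    push_cast
    linarith [lip x y]
  have Gi : Function.Injective G := fun x y e => by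
    have h1 := lip x y
    rw [e, sub_self, zero_sub, norm_neg] at h1
    exact Subtype.ext (sub_eq_zero.1 (norm_le_zero_iff.1 (by linarith)))
  have hh : ∀ x, h x = φ (-τ x) (G x) := fun x => by
    rw [hG]
    beta_reduce
    rw [← hadd, neg_add_cancel, h0]
  have hcont : Continuous h := (hφc.comp (hτ.neg.prodMk Gc)).congr fun x => (hh x).symm
  have hinj : Function.Injective h := fun x y e => by
    obtain ⟨C, hC⟩ := isCompact_univ.exists_bound_of_continuousOn hτ.continuousOn
    have hcc : Continuous fun t => t + τ (φ t y) :=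
      continuous_id.add (hτ.comp (hφc.comp (continuous_id.prodMk continuous_const)))
    have a1 := abs_le.1 (hC (φ (2 * C) y) (mem_univ _))
    have a2 := abs_le.1 (hC (φ (-(2 * C)) y) (mem_univ _))
    have a3 := abs_le.1 (hC x (mem_univ _))
    obtain ⟨t, ht⟩ : τ x ∈ range fun t => t + τ (φ t y) :=
      mem_range_of_exists_le_of_exists_ge hcc ⟨-(2 * C), by linarith [a2.2, a3.1]⟩
        ⟨2 * C, by linarith [a1.1, a3.2]⟩
    have h1 : φ t y = x := Gi (by
      show φ (τ (φ t y)) (h (φ t y)) = φ (τ x) (h x)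
      rw [hc, ← hadd, add_comm, e]
      exact congrArg (fun s => φ s (h y)) ht)
    have h2 : t = 0 := ap (h y) t (by rw [← hc, h1, e])
    rw [← h1, h2, h0]
  have hsurj : Function.Surjective h := fun y => by
    have h1 : IsClosed (range h) := (isCompact_range hcont).isClosed
    exact h1.closure_subset (closure_mono (by
      rintro _ ⟨t, rfl⟩
      exact ⟨φ t y, hc t y⟩) (hmin (h y) y))
  exact H (Continuous.homeoOfEquivCompactToT2 (f := Equiv.ofBijective h ⟨hinj, hsurj⟩) hcont) τ hc hτ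
    fun x => (hn.1 x).trans (min_le_left _ _)

end Pool.Agent.Lib.MP_399f8e_an.Spec
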