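import Pool.Agent.Lib.MP_399f8e_an.Uc.Defs
import Pool.Agent.Lib.MP_399f8e_an.Ur.Tame

open Set Filter Topology Metric Complex
open scoped Real
open Pool.Agent.Lib.MP_399f8e_an.Rg

noncomputable section

namespace Pool.Agent.Lib.MP_399f8e_an.Ur.Uc

variable {g g' : ℂ → ℂ} {ν : (ℂ → ℝ) → ℝ} {Z : Set ℂ} {R b : ℝ} {P : (ℝ → ℂ) → ℝ → ℝ}

namespace GoodAux

theorem b_nn (h : Good g g' ν Z R b) : 0 ≤ b := (norm_nonneg _).trans (h.near 0)

theorem big (h : Good g g' ν Z R b) {f : ℂ → ℂ}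
    (hf : ∀ w, Bd Z w → (∀ z, R - 5 < ‖z‖ → w z = 0) → ν (fun z => w (f z)) = ν w)
    (U : Set ℂ) (hU : U ⊆ closedBall 0 (R - 5)) (x : ℂ) (r : ℝ) (hr : 0 < r)
    (hx : ball x r ⊆ U) : ∃ z ∈ U, f z ∉ U ∨ f z ∈ ball x r := by
  by_contra hc
  push Not at hc
  have bd : ∀ (V : Set ℂ) (z : ℂ), 0 ≤ V.indicator (fun _ => (1 : ℝ)) z ∧
      |V.indicator (fun _ => (1 : ℝ)) z| ≤ 1 := fun V z => by
    by_cases hz : z ∈ V <;> simp [hz]
  have h1 := hf ((U \ ball x r).indicator fun _ => 1) ⟨1, fun z _ => (bd _ z).2⟩ fun z hz =>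
    indicator_of_notMem (fun e => by
      have := mem_closedBall_zero_iff.1 (hU e.1)
      linarith) _
  have h2 := h.add ((U \ ball x r).indicator fun _ => 1) (ind x r) ⟨1, fun z _ => (bd _ z).2⟩
    ⟨1, fun z _ => (bd _ z).2⟩
  have h3 := h.pos x r (by
    have := mem_closedBall_zero_iff.1 (hU (hx (mem_ball_self hr)))
    linarith) hr
  have key : ∀ z, (U \ ball x r).indicator (fun _ => (1 : ℝ)) z + ind x r z =
      U.indicator (fun _ => (1 : ℝ)) z := fun z => by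
    by_cases hz : z ∈ ball x r
    · rw [indicator_of_notMem (fun e => e.2 hz), ind, indicator_of_mem hz,
        indicator_of_mem (hx hz), zero_add]
    · rw [ind, indicator_of_notMem hz, add_zero]
      by_cases hzU : z ∈ U
      · rw [indicator_of_mem hzU, indicator_of_mem (show z ∈ U \ ball x r from ⟨hzU, hz⟩)]
      · rw [indicator_of_notMem hzU, indicator_of_notMem (fun e => hzU e.1)]
  have h4 := h.mono (fun z => (U \ ball x r).indicator (fun _ => (1 : ℝ)) z + ind x r z)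
    (fun z => (U \ ball x r).indicator (fun _ => (1 : ℝ)) (f z))
    ⟨1, fun z _ => by beta_reduce; rw [key]; exact (bd _ z).2⟩ ⟨1, fun z _ => (bd _ _).2⟩ fun z _ => by
      rw [key]
      by_cases hzU : z ∈ U
      · rw [indicator_of_mem hzU, indicator_of_mem (show f z ∈ U \ ball x r from hc z hzU)]
      · rw [indicator_of_notMem hzU]
        exact (bd _ _).1
  linarith

end GoodAux

theorem Good.nu_congr (h : Good g g' ν Z R b) {w w' : ℂ → ℝ} (hw : Bd Z w)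
    (e : ∀ z ∈ Z, w z = w' z) : ν w = ν w' := by
  have hw' : Bd Z w' := by
    obtain ⟨C, hC⟩ := hw
    exact ⟨C, fun z hz => e z hz ▸ hC z hz⟩
  exact le_antisymm (h.mono _ _ hw hw' fun z hz => (e z hz).le)
    (h.mono _ _ hw' hw fun z hz => (e z hz).ge)

theorem Good.nu_zero (h : Good g g' ν Z R b) {w : ℂ → ℝ} (e : ∀ z ∈ Z, w z = 0) : ν w = 0 := by
  have hw : Bd Z w := ⟨0, fun z hz => by rw [e z hz, abs_zero]⟩
  rw [h.nu_congr (w' := fun z => 0 * w z) hw fun z hz => by rw [e z hz, mul_zero],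
    h.smul 0 w hw, zero_mul]

theorem Good.nu_sub (h : Good g g' ν Z R b) {w w' : ℂ → ℝ} (hw : Bd Z w) (hw' : Bd Z w') :
    ν (fun z => w z - w' z) = ν w - ν w' := by
  have h1 : Bd Z fun z => -1 * w' z := by
    obtain ⟨C, hC⟩ := hw'
    exact ⟨C, fun z hz => by beta_reduce; rw [neg_one_mul, abs_neg]; exact hC z hz⟩
  have h2 := h.add _ _ hw h1
  rw [h.smul (-1) w' hw'] at h2
  rw [sub_eq_add_neg (ν w), ← neg_one_mul (ν w'), ← h2]
  congr 1
  funext z
  ring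

theorem Good.nu_le (h : Good g g' ν Z R b) {w : ℂ → ℝ} {C : ℝ} (hw : ∀ z ∈ Z, |w z| ≤ C) :
    ν w ≤ C * ν (fun _ => 1) := by
  have h1 : Bd Z fun _ => (1 : ℝ) := ⟨1, fun _ _ => by rw [abs_one]⟩
  rw [← h.smul C _ h1]
  exact h.mono _ _ ⟨C, hw⟩ ⟨|C|, fun _ _ => by rw [mul_one]⟩ fun z hz => by
    rw [mul_one]
    exact (le_abs_self _).trans (hw z hz)

theorem Good.Zg' (h : Good g g' ν Z R b) {z : ℂ} (hz : ‖z‖ + b ≤ R) : g' z ∈ Z ↔ z ∈ Z := by
  have hb := GoodAux.b_nn h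
  have h1 := TameAux.up h.near' z
  rw [← h.Zg (g' z) (by linarith), h.inv' z (by linarith)]

theorem Good.inv_nu' (h : Good g g' ν Z R b) {w : ℂ → ℝ} (hw : Bd Z w)
    (h0 : ∀ z, R - 2 * b ≤ ‖z‖ → w z = 0) :
    Bd Z (fun z => w (g' z)) ∧ ν (fun z => w (g' z)) = ν w := by
  have hb := GoodAux.b_nn h
  have h1 : Bd Z fun z => w (g' z) := by
    obtain ⟨C, hC⟩ := hw
    refine ⟨|C|, fun z hz => ?_⟩
    by_cases hzR : ‖z‖ + b ≤ R
    · exact (hC _ ((h.Zg' hzR).2 hz)).trans (le_abs_self C)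
    · have := TameAux.down h.near' z
      beta_reduce
      rw [h0 (g' z) (by linarith), abs_zero]
      exact abs_nonneg C
  refine ⟨h1, ?_⟩
  rw [← h.invν _ h1 fun z hz => h0 _ (by linarith [TameAux.down h.near' z])]
  congr 1
  funext z
  by_cases hzR : ‖z‖ ≤ R
  · rw [h.inv z hzR]
  · have h2 := TameAux.down h.near z
    have h3 := TameAux.down h.near' (g z)
    rw [h0 (g' (g z)) (by linarith), h0 z (by linarith)]

theorem Good.top (h : Good g g' ν Z R b) (hb : b ≤ 1) : Top g g' (R - 5) := by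
  have hb0 := GoodAux.b_nn h
  refine ⟨h.cont, h.cont', fun z => (h.near z).trans hb, fun z => (h.near' z).trans hb,
    fun z hz => h.inv z (by linarith), fun z hz => h.inv' z (by linarith),
    fun z hz => h.nofix z (by linarith), fun z hz e => h.nofix z (by linarith) ?_,
    GoodAux.big h fun w h1 h2 => h.invν w h1 fun z hz => h2 z (by linarith),
    GoodAux.big h fun w h1 h2 => (h.inv_nu' h1 fun z hz => h2 z (by linarith)).2⟩
  have := h.inv' z (by linarith)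
  rwa [e] at this

theorem Good.off_map (h : Good g g' ν Z R b) {r l : ℝ} {k : ℝ → ℂ} (hk : Tame Z r k l)
    (hr : r ≤ R) {z : ℂ} (hz : z ∈ Z) : Off (fun t => g (k t)) 0 l z := by
  refine ⟨(h.cont.comp hk.cont).continuousOn, fun t ht (e : g (k t) = z) => ?_⟩
  rw [uIcc_of_le hk.nn] at ht
  exact hk.off t ht ((h.Zg _ ((hk.bd t ht).trans hr)).1 (e ▸ hz))

theorem Step.rev (h : Good g g' ν Z R b) (hb : b ≤ 1) {r ρ l l' c B θ : ℝ}
    (hS : Step g ν Z P ρ B θ) {k k' β : ℝ → ℂ} (hk : Tame Z r k l) (hk' : Tame Z r k' l')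
    (hβ : Tame Z r β c) (hr : r + 3 ≤ R) (hρ : r + 1 ≤ ρ) (e1 : k l = g (k 0))
    (e2 : k' l' = g (k' 0)) (e3 : β 0 = k l) (e4 : β c = k' l')
    (b1 : ∀ z ∈ Z, |var β 0 c z| ≤ B) (b2 : ∀ z ∈ Z, |var (fun t => g' (β t)) 0 c z| ≤ B) :
    P k l + ν (fun z => var k 0 l z + var β 0 c z - var k' 0 l' z
      - var (fun t => g' (β t)) 0 c z) - θ ≤ P k' l' := by
  have h1 := hk.bd 0 (left_mem_Icc.2 hk.nn)
  have h2 := hk'.bd 0 (left_mem_Icc.2 hk'.nn)
  have e : ∀ z, var (fun t => g (g' (β t))) 0 c z = var β 0 c z := fun z =>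
    var_congr (P := fun t => g (g' (β t))) (Q := β) (fun t ht => h.inv' _ (by
      rw [uIcc_of_le hβ.nn] at ht
      linarith [hβ.bd t ht])) z
  have t : Tame Z ρ (fun t => g' (β t)) c :=
    ⟨h.cont'.comp hβ.cont, hβ.nn, fun t ht => by linarith [TameAux.up h.near' (β t), hβ.bd t ht],
      fun t ht e => hβ.off t ht ((h.Zg' (by linarith [hβ.bd t ht])).1 e), B, b2⟩
  have := hS k l k' l' (fun t => g' (β t)) c (hk.mono (by linarith)) (hk'.mono (by linarith)) t e1 e2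
    (by rw [e3, e1, h.inv _ (by linarith)]) (by rw [e4, e2, h.inv _ (by linarith)]) b2
    (fun z hz => by rw [e]; exact b1 z hz)
  have e' : Wn g k l k' l' (fun t => g' (β t)) c = fun z => var k 0 l z + var β 0 c z
      - var k' 0 l' z - var (fun t => g' (β t)) 0 c z := funext fun z => by rw [Wn, e]
  rwa [e'] at this

end Pool.Agent.Lib.MP_399f8e_an.Ur.Uc
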